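import Mathlib

/-! ErrA (err_pos): the sums of the error terms (real analysis only).

err_pos. m0 = h/(2 ga), |m ga - h/2| = ga |m - m0|, N = ceil(2 m0) + 1 (N <= h + 3).
For m > N: |m - m0| >= m/2, term <= (h/m)/(ga m/2) = 4 m0/m^2, sum <= 4 m0/N <= 2.
For m <= N: h/m = 2 ga m0/m <= 2 ga (1 + |m - m0|/m), so
term <= 2 ga/(1 + ga |m - m0|) + 2/m; sum of 2/m <= 2 (1 + log N); the (at most two) m with
|m - m0| < 1 give 2 ga each; the others 2/|m - m0|, sum <= 4 (1 + log N).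
(The constant 40 is generous.)
err_neg. For m <= h: (h/m)/(h + 2 m al) <= 1/m, sum <= 1 + log h; for m > h: <= h/(2 m^2), sum <= 1. -/

namespace Pool.Agent.SQ42

/-- the harmonic sum -/
theorem errA_harm (h : ℝ) (hh : 1 ≤ h) :
    ∑ i ∈ Finset.range ⌊h⌋₊, (1 : ℝ) / (i + 1) ≤ 1 + Real.log h := by
  have := harmonic_floor_le_one_add_log h hh
  rw [harmonic] at this
  push_cast at this
  simpa [one_div] using this

/-- the far part -/
theorem errA_far (c : ℝ) (hc : 0 < c) (N : ℕ) :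
    ∑ i ∈ Finset.range N, (if c ≤ (i : ℝ) + 1 then 2 * c / ((i : ℝ) + 1) ^ 2 else 0)
      ≤ max 0 (4 - 4 * c / ((N : ℝ) + 1)) := by
  induction N with
  | zero => simp
  | succ n ih =>
    rw [Finset.sum_range_succ]
    have hn : (0 : ℝ) < (n : ℝ) + 1 := by positivity
    have hn2 : (0 : ℝ) < (n : ℝ) + 1 + 1 := by positivity
    push_cast
    by_cases h : c ≤ (n : ℝ) + 1
    · rw [if_pos h]
      have h0 : 0 ≤ 4 - 4 * c / ((n : ℝ) + 1) := by
        have : 4 * c / ((n : ℝ) + 1) ≤ 4 := by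
          rw [div_le_iff₀ hn]; linarith
        linarith
      rw [max_eq_right h0] at ih
      refine le_trans ?_ (le_max_right _ _)
      have key : 2 * c / ((n : ℝ) + 1) ^ 2 ≤ 4 * c / ((n : ℝ) + 1) - 4 * c / ((n : ℝ) + 1 + 1) := by
        rw [div_sub_div _ _ hn.ne' hn2.ne', div_le_div_iff₀ (by positivity) (by positivity)]
        have hn0 : (0 : ℝ) ≤ n := Nat.cast_nonneg n
        have : 4 * c * ((n : ℝ) + 1 + 1) - ((n : ℝ) + 1) * (4 * c) = 4 * c := by ring
        rw [this]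
        nlinarith [mul_nonneg hc.le hn0, mul_nonneg (mul_nonneg hc.le hn0) hn0]
      linarith
    · rw [if_neg h, add_zero]
      push Not at h
      have h0 : 4 - 4 * c / ((n : ℝ) + 1) ≤ 0 := by
        have : 4 ≤ 4 * c / ((n : ℝ) + 1) := by
          rw [le_div_iff₀ hn]; linarith
        linarith
      rw [max_eq_left h0] at ih
      exact le_trans ih (le_max_left _ _)

/-- sum of `2 ga / (1 + ga j)` -/
theorem errA_G (ga : ℝ) (hg : 1 ≤ ga) (L : ℕ) :
    ∑ j ∈ Finset.range L, 2 * ga / (1 + ga * j) ≤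
      2 * ga + 4 * ∑ i ∈ Finset.range L, (1 : ℝ) / (i + 1) := by
  have h1 : ∀ j ∈ Finset.range L, 2 * ga / (1 + ga * (j : ℝ)) ≤
      (if j = 0 then 2 * ga else 0) + 4 * ((1 : ℝ) / (j + 1)) := by
    intro j _
    rcases Nat.eq_zero_or_pos j with rfl | hj
    · simp
    · rw [if_neg hj.ne']
      have hj1 : (1 : ℝ) ≤ j := by exact_mod_cast hj
      have hp : 0 < 1 + ga * (j : ℝ) := by positivity
      rw [zero_add, mul_one_div, div_le_div_iff₀ hp (by positivity)]
      nlinarith [mul_le_mul_of_nonneg_left hj1 (by linarith : (0:ℝ) ≤ ga)]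
  refine (Finset.sum_le_sum h1).trans ?_
  rw [Finset.sum_add_distrib, ← Finset.mul_sum]
  have h2 : ∑ j ∈ Finset.range L, (if j = 0 then 2 * ga else 0) ≤ 2 * ga := by
    rw [Finset.sum_ite_eq']
    split_ifs
    · exact le_rfl
    · linarith
  linarith

/-- the near part -/
theorem errA_near (ga m0 : ℝ) (hg : 1 ≤ ga) (hm : 0 ≤ m0) (L : ℕ) (hL : ⌊m0⌋₊ ≤ L) :
    ∑ i ∈ Finset.range L, 2 * ga / (1 + ga * |(i : ℝ) + 1 - m0|) ≤
      2 * ∑ j ∈ Finset.range L, 2 * ga / (1 + ga * j) := by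
  obtain ⟨k, hk⟩ : ∃ k, k = ⌊m0⌋₊ := ⟨_, rfl⟩
  rw [← hk] at hL
  have hk1 : (k : ℝ) ≤ m0 := by rw [hk]; exact Nat.floor_le hm
  have hk2 : m0 < k + 1 := by rw [hk]; exact Nat.lt_floor_add_one m0
  have hpos : ∀ j : ℕ, 0 ≤ 2 * ga / (1 + ga * (j : ℝ)) := fun j => by positivity
  have hmono : ∀ x y : ℝ, 0 ≤ x → x ≤ y → 2 * ga / (1 + ga * y) ≤ 2 * ga / (1 + ga * x) := by
    intro x y hx hxy
    apply div_le_div_of_nonneg_left (by positivity) (by positivity)
    nlinarith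
  rw [← Finset.sum_range_add_sum_Ico _ hL]
  have h1 : ∑ i ∈ Finset.range k, 2 * ga / (1 + ga * |(i : ℝ) + 1 - m0|) ≤
      ∑ j ∈ Finset.range L, 2 * ga / (1 + ga * j) := by
    calc ∑ i ∈ Finset.range k, 2 * ga / (1 + ga * |(i : ℝ) + 1 - m0|)
        ≤ ∑ i ∈ Finset.range k, 2 * ga / (1 + ga * ((k - 1 - i : ℕ) : ℝ)) := by
          refine Finset.sum_le_sum fun i hi => hmono _ _ (Nat.cast_nonneg _) ?_
          have hi' := Finset.mem_range.1 hi
          have : ((k - 1 - i : ℕ) : ℝ) = k - 1 - i := by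
            rw [Nat.cast_sub (by omega), Nat.cast_sub (by omega)]; simp
          rw [this, abs_sub_comm]
          refine le_trans ?_ (le_abs_self _)
          linarith
      _ = ∑ i ∈ Finset.range k, 2 * ga / (1 + ga * (i : ℝ)) :=
          Finset.sum_range_reflect (fun i : ℕ => 2 * ga / (1 + ga * (i : ℝ))) k
      _ ≤ _ := Finset.sum_le_sum_of_subset_of_nonneg
          (Finset.range_subset_range.2 hL) (fun j _ _ => hpos j)
  have h2 : ∑ i ∈ Finset.Ico k L, 2 * ga / (1 + ga * |(i : ℝ) + 1 - m0|) ≤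
      ∑ j ∈ Finset.range L, 2 * ga / (1 + ga * j) := by
    rw [Finset.sum_Ico_eq_sum_range]
    calc ∑ i ∈ Finset.range (L - k), 2 * ga / (1 + ga * |((k + i : ℕ) : ℝ) + 1 - m0|)
        ≤ ∑ i ∈ Finset.range (L - k), 2 * ga / (1 + ga * (i : ℝ)) := by
          refine Finset.sum_le_sum fun i hi => hmono _ _ (Nat.cast_nonneg _) ?_
          refine le_trans ?_ (le_abs_self _)
          push_cast
          linarith
      _ ≤ _ := Finset.sum_le_sum_of_subset_of_nonneg
          (Finset.range_subset_range.2 (Nat.sub_le _ _)) (fun j _ _ => hpos j)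
  linarith

/-- all partial sums -/
theorem errA_partial (h ga : ℝ) (hh : 1 ≤ h) (hg : 1 ≤ ga) (N : ℕ) :
    ∑ m ∈ Finset.range N, h / (m + 1) * (1 / (1 + |(m + 1 : ℝ) * ga - h / 2|))
      ≤ 40 * (ga + 1 + Real.log h) := by
  have hh0 : 0 < h := by linarith
  have hg0 : 0 < ga := by linarith
  have hc : 0 < h / ga := by positivity
  have hlog : 0 ≤ Real.log h := Real.log_nonneg hh
  -- the pointwise bound
  have hpt : ∀ m ∈ Finset.range N, h / ((m : ℝ) + 1) * (1 / (1 + |((m : ℝ) + 1) * ga - h / 2|)) ≤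
      (if h / ga ≤ (m : ℝ) + 1 then 2 * (h / ga) / ((m : ℝ) + 1) ^ 2 else 0) +
      (if m < ⌊h⌋₊ then (2 * ga / (1 + ga * |(m : ℝ) + 1 - h / (2 * ga)|) +
        2 * ((1 : ℝ) / (m + 1))) else 0) := by
    intro m _
    have hm : (0 : ℝ) < (m : ℝ) + 1 := by positivity
    by_cases h1 : h / ga ≤ (m : ℝ) + 1
    · rw [if_pos h1]
      have h2 : h ≤ ((m : ℝ) + 1) * ga := (div_le_iff₀ hg0).1 h1
      have h3 : ((m : ℝ) + 1) * ga / 2 ≤ |((m : ℝ) + 1) * ga - h / 2| :=
        le_trans (by linarith) (le_abs_self _)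
      have h4 : 1 / (1 + |((m : ℝ) + 1) * ga - h / 2|) ≤ 1 / (((m : ℝ) + 1) * ga / 2) :=
        one_div_le_one_div_of_le (by positivity) (by linarith)
      have h5 : h / ((m : ℝ) + 1) * (1 / (1 + |((m : ℝ) + 1) * ga - h / 2|)) ≤
          h / ((m : ℝ) + 1) * (1 / (((m : ℝ) + 1) * ga / 2)) :=
        mul_le_mul_of_nonneg_left h4 (by positivity)
      have h6 : h / ((m : ℝ) + 1) * (1 / (((m : ℝ) + 1) * ga / 2)) =
          2 * (h / ga) / ((m : ℝ) + 1) ^ 2 := by
        field_simp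
      rw [h6] at h5
      refine h5.trans (le_add_of_nonneg_right ?_)
      split_ifs <;> positivity
    · rw [if_neg h1, zero_add]
      push Not at h1
      have h2 : ((m : ℝ) + 1) * ga < h := (lt_div_iff₀ hg0).1 h1
      have h2' : (m : ℝ) + 1 ≤ h := by nlinarith
      have h3 : m < ⌊h⌋₊ := by
        have : m + 1 ≤ ⌊h⌋₊ := Nat.le_floor (by push_cast; exact h2')
        omega
      rw [if_pos h3]
      have habs : |((m : ℝ) + 1) * ga - h / 2| = ga * |(m : ℝ) + 1 - h / (2 * ga)| := by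
        rw [← abs_of_pos hg0, ← abs_mul, abs_of_pos hg0]
        congr 1
        field_simp
      rw [← habs]
      have hA := abs_nonneg (((m : ℝ) + 1) * ga - h / 2)
      have hB := neg_abs_le (((m : ℝ) + 1) * ga - h / 2)
      generalize |((m : ℝ) + 1) * ga - h / 2| = A at hA hB ⊢
      have hA1 : 0 < 1 + A := by linarith
      rw [mul_one_div, mul_one_div, div_div, div_add_div _ _ hA1.ne' hm.ne',
        div_le_div_iff₀ (by positivity) (by positivity)]
      have : h ≤ 2 * ga * ((m : ℝ) + 1) + (1 + A) * 2 := by nlinarith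
      calc h * ((1 + A) * ((m : ℝ) + 1)) ≤
          (2 * ga * ((m : ℝ) + 1) + (1 + A) * 2) * ((1 + A) * ((m : ℝ) + 1)) :=
            mul_le_mul_of_nonneg_right this (by positivity)
        _ = (2 * ga * ((m : ℝ) + 1) + (1 + A) * 2) * (((m : ℝ) + 1) * (1 + A)) := by ring
  refine (Finset.sum_le_sum hpt).trans ?_
  rw [Finset.sum_add_distrib]
  have hfar := errA_far (h / ga) hc N
  have hmax : max 0 (4 - 4 * (h / ga) / ((N : ℝ) + 1)) ≤ 4 := by
    apply max_le (by norm_num)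
    have : 0 ≤ 4 * (h / ga) / ((N : ℝ) + 1) := by positivity
    linarith
  have hB : ∑ m ∈ Finset.range N, (if m < ⌊h⌋₊ then
      (2 * ga / (1 + ga * |(m : ℝ) + 1 - h / (2 * ga)|) + 2 * ((1 : ℝ) / (m + 1))) else 0) ≤
      ∑ m ∈ Finset.range ⌊h⌋₊,
        (2 * ga / (1 + ga * |(m : ℝ) + 1 - h / (2 * ga)|) + 2 * ((1 : ℝ) / (m + 1))) := by
    rw [← Finset.sum_filter]
    refine Finset.sum_le_sum_of_subset_of_nonneg ?_ (fun j _ _ => by positivity)
    intro j hj
    exact Finset.mem_range.2 (Finset.mem_filter.1 hj).2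
  rw [Finset.sum_add_distrib, ← Finset.mul_sum] at hB
  have hm0 : (0 : ℝ) ≤ h / (2 * ga) := by positivity
  have hfl : ⌊h / (2 * ga)⌋₊ ≤ ⌊h⌋₊ := by
    apply Nat.floor_le_floor
    rw [div_le_iff₀ (by positivity)]
    nlinarith
  have hnear := errA_near ga (h / (2 * ga)) hg hm0 ⌊h⌋₊ hfl
  have hG := errA_G ga hg ⌊h⌋₊
  have hharm := errA_harm h hh
  linarith

theorem err_pos (h ga : ℝ) (hh : 1 ≤ h) (hg : 1 ≤ ga) :
    Summable (fun m : ℕ => h / (m + 1) * (1 / (1 + |(m + 1 : ℝ) * ga - h / 2|))) ∧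
    ∑' m : ℕ, h / (m + 1) * (1 / (1 + |(m + 1 : ℝ) * ga - h / 2|))
      ≤ 40 * (ga + 1 + Real.log h) := by
  have hnn : ∀ m : ℕ, 0 ≤ h / (m + 1) * (1 / (1 + |(m + 1 : ℝ) * ga - h / 2|)) :=
    fun m => by positivity
  exact ⟨summable_of_sum_range_le hnn (errA_partial h ga hh hg),
    Real.tsum_le_of_sum_range_le hnn (errA_partial h ga hh hg)⟩

end Pool.Agent.SQ42
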