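import Mathlib

/-! ErrB (err_neg): the sums of the error terms (real analysis only).

err_pos. m0 = h/(2 ga), |m ga - h/2| = ga |m - m0|, N = ceil(2 m0) + 1 (N <= h + 3).
For m > N: |m - m0| >= m/2, term <= (h/m)/(ga m/2) = 4 m0/m^2, sum <= 4 m0/N <= 2.
For m <= N: h/m = 2 ga m0/m <= 2 ga (1 + |m - m0|/m), so
term <= 2 ga/(1 + ga |m - m0|) + 2/m; sum of 2/m <= 2 (1 + log N); the (at most two) m with
|m - m0| < 1 give 2 ga each; the others 2/|m - m0|, sum <= 4 (1 + log N).
(The constant 40 is generous.)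
err_neg. For m <= h: (h/m)/(h + 2 m al) <= 1/m, sum <= 1 + log h; for m > h: <= h/(2 m^2), sum <= 1. -/

namespace Pool.Agent.SQ42

theorem err_neg (h al : ℝ) (hh : 1 ≤ h) (ha : 1 ≤ al) :
    Summable (fun m : ℕ => h / (m + 1) * (1 / (h + 2 * (m + 1 : ℝ) * al))) ∧
    ∑' m : ℕ, h / (m + 1) * (1 / (h + 2 * (m + 1 : ℝ) * al)) ≤ 4 * (1 + Real.log h) := by
  have hh0 : 0 < h := by linarith
  have hnn : ∀ m : ℕ, 0 ≤ h / (m + 1) * (1 / (h + 2 * (m + 1 : ℝ) * al)) := fun m => by positivity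
  have b1 : ∀ m : ℕ, h / (m + 1) * (1 / (h + 2 * (m + 1 : ℝ) * al)) ≤ ((m : ℝ) + 1)⁻¹ := by
    intro m
    have h1 : h / (m + 1) * (1 / (h + 2 * (m + 1 : ℝ) * al)) =
        ((m : ℝ) + 1)⁻¹ * (h / (h + 2 * (m + 1 : ℝ) * al)) := by ring
    rw [h1]
    have h2 : h / (h + 2 * (m + 1 : ℝ) * al) ≤ 1 := by
      rw [div_le_one (by positivity)]
      have : 0 ≤ 2 * (m + 1 : ℝ) * al := by positivity
      linarith
    have h3 : 0 ≤ ((m : ℝ) + 1)⁻¹ := by positivity
    exact mul_le_of_le_one_right h3 h2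
  have b2 : ∀ m : ℕ, h / (m + 1) * (1 / (h + 2 * (m + 1 : ℝ) * al)) ≤
      h / 2 * (1 / ((m : ℝ) + 1) ^ 2) := by
    intro m
    have h1 : h / 2 * (1 / ((m : ℝ) + 1) ^ 2) = h / (m + 1) * (1 / (2 * (m + 1 : ℝ))) := by
      field_simp
    rw [h1]
    apply mul_le_mul_of_nonneg_left _ (by positivity)
    apply one_div_le_one_div_of_le (by positivity)
    have : 2 * (m + 1 : ℝ) * 1 ≤ 2 * (m + 1 : ℝ) * al :=
      mul_le_mul_of_nonneg_left ha (by positivity)
    linarith
  have hs : Summable (fun m : ℕ => h / (m + 1) * (1 / (h + 2 * (m + 1 : ℝ) * al))) := by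
    have h1 : Summable (fun m : ℕ => 1 / ((m : ℝ) + 1) ^ 2) := by
      have := (summable_nat_add_iff 1).2 (Real.summable_one_div_nat_pow.2 one_lt_two)
      simpa using this
    exact Summable.of_nonneg_of_le hnn b2 (h1.mul_left (h / 2))
  refine ⟨hs, ?_⟩
  obtain ⟨H, hH⟩ : ∃ H, H = ⌈h⌉₊ := ⟨_, rfl⟩
  have hH1 : h ≤ H := by rw [hH]; exact Nat.le_ceil _
  have hH2 : (H : ℝ) < h + 1 := by rw [hH]; exact Nat.ceil_lt_add_one hh0.le
  have hH0 : (0 : ℝ) < H := by linarith
  rw [← hs.sum_add_tsum_nat_add H]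
  have p1 : ∑ m ∈ Finset.range H, h / (m + 1) * (1 / (h + 2 * (m + 1 : ℝ) * al)) ≤
      1 + Real.log H := by
    refine (Finset.sum_le_sum fun m _ => b1 m).trans ?_
    have := harmonic_le_one_add_log H
    unfold harmonic at this
    push_cast at this
    exact this
  have p2 : ∑' m : ℕ, h / (((m + H : ℕ) : ℝ) + 1) *
      (1 / (h + 2 * (((m + H : ℕ) : ℝ) + 1 : ℝ) * al)) ≤ h / 2 * (1 / H) := by
    apply Real.tsum_le_of_sum_range_le (fun m => hnn (m + H))
    intro n
    have key : ∀ n : ℕ, ∑ m ∈ Finset.range n, h / (((m + H : ℕ) : ℝ) + 1) *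
        (1 / (h + 2 * (((m + H : ℕ) : ℝ) + 1 : ℝ) * al)) ≤
        h / 2 * (1 / H - 1 / ((n : ℝ) + H)) := by
      intro n
      induction n with
      | zero => simp
      | succ n ih =>
        rw [Finset.sum_range_succ]
        have h1 := b2 (n + H)
        have h2 : h / 2 * (1 / (((n + H : ℕ) : ℝ) + 1) ^ 2) ≤
            h / 2 * (1 / ((n : ℝ) + H) - 1 / ((n : ℝ) + 1 + H)) := by
          apply mul_le_mul_of_nonneg_left _ (by positivity)
          have hx : 0 < (n : ℝ) + H := by positivity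
          have e : 1 / ((n : ℝ) + H) - 1 / ((n : ℝ) + 1 + H) =
              1 / (((n : ℝ) + H) * ((n : ℝ) + 1 + H)) := by
            field_simp
            ring
          rw [e]
          apply one_div_le_one_div_of_le (by positivity)
          push_cast
          nlinarith
        push_cast at h1 h2 ih ⊢
        have e2 : h / 2 * (1 / (H : ℝ) - 1 / ((n : ℝ) + 1 + H)) =
            h / 2 * (1 / (H : ℝ) - 1 / ((n : ℝ) + H)) +
            h / 2 * (1 / ((n : ℝ) + H) - 1 / ((n : ℝ) + 1 + H)) := by ring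
        rw [e2]
        linarith
    refine (key n).trans ?_
    apply mul_le_mul_of_nonneg_left _ (by positivity)
    have : 0 ≤ 1 / ((n : ℝ) + H) := by positivity
    linarith
  have p3 : h / 2 * (1 / H) ≤ 1 / 2 := by
    have : h * (1 / H) ≤ 1 := by
      rw [mul_one_div, div_le_one hH0]
      exact hH1
    linarith
  have p4 : Real.log H ≤ Real.log h + 7 / 10 := by
    have h1 : Real.log H ≤ Real.log (2 * h) := Real.log_le_log hH0 (by linarith)
    rw [Real.log_mul (by norm_num) (by linarith)] at h1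
    have := Real.log_two_lt_d9
    linarith
  have p5 : 0 ≤ Real.log h := Real.log_nonneg hh
  linarith

end Pool.Agent.SQ42
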