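import Pool.Agent.SQ42.Def

/-! FresC (fres_neg): two integrals without stationary point (integration by parts).

(1) phase ph(y) = h y + m y^2, ph' = h + 2 m y > 0 increasing on [al, be]:
int e(ph) = [e(ph)/(2 pi i ph')] + int e(ph) ph''/(2 pi i ph'^2), bounded by
(1/(2 pi)) (1/ph'(al) + 1/ph'(be) + (1/ph'(al) - 1/ph'(be))) = 1/(pi ph'(al)).
(2) int 2 y e(h y) dy = [2 y e(h y)/(2 pi i h)] - int 2 e(h y)/(2 pi i h) dy, bounded by
(al + be + be - al)/(pi h) <= be/h. -/

namespace Pool.Agent.SQ42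

open MeasureTheory

theorem hasDerivAt_FC16 (h m y : ℝ) (hq : 0 < h + 2 * m * y) :
    HasDerivAt (fun y : ℝ => e (h * y - -m * y ^ 2) /
        (2 * Real.pi * Complex.I * ((h + 2 * m * y : ℝ) : ℂ)))
      (e (h * y - -m * y ^ 2) - e (h * y - -m * y ^ 2) * (2 * m : ℝ) /
        (2 * Real.pi * Complex.I * ((h + 2 * m * y : ℝ) : ℂ) ^ 2)) y := by
  have hph : HasDerivAt (fun y : ℝ => h * y - -m * y ^ 2) (h + 2 * m * y) y := by
    have h1 : HasDerivAt (fun y : ℝ => h * y) (h * 1) y := (hasDerivAt_id y).const_mul h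
    have h2 : HasDerivAt (fun y : ℝ => -m * y ^ 2) (-m * (2 * y)) y := by
      have := (hasDerivAt_pow 2 y).const_mul (-m)
      simpa using this
    exact (h1.sub h2).congr_deriv (by ring)
  have he : HasDerivAt (fun y : ℝ => e (h * y - -m * y ^ 2))
      ((h + 2 * m * y) • (2 * Real.pi * Complex.I * e (h * y - -m * y ^ 2))) y :=
    HasDerivAt.scomp (g₁ := e) y (hasDerivAt_e (h * y - -m * y ^ 2)) hph
  have hd : HasDerivAt (fun y : ℝ => (2 * Real.pi * Complex.I * ((h + 2 * m * y : ℝ) : ℂ)))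
      (2 * Real.pi * Complex.I * ((2 * m : ℝ) : ℂ)) y := by
    have h3 : HasDerivAt (fun y : ℝ => h + 2 * m * y) (2 * m) y := by
      have h4 : HasDerivAt (fun y : ℝ => 2 * m * y) (2 * m * 1) y :=
        (hasDerivAt_id y).const_mul (2 * m)
      exact ((h4.const_add h)).congr_deriv (by ring)
    exact h3.ofReal_comp.const_mul _
  have hqC : ((h + 2 * m * y : ℝ) : ℂ) ≠ 0 := by exact_mod_cast hq.ne'
  have hpi : (Real.pi : ℂ) ≠ 0 := by exact_mod_cast Real.pi_ne_zero
  have hne : (2 * Real.pi * Complex.I * ((h + 2 * m * y : ℝ) : ℂ)) ≠ 0 :=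
    mul_ne_zero (mul_ne_zero (mul_ne_zero two_ne_zero hpi) Complex.I_ne_zero) hqC
  refine (he.div hd hne).congr_deriv ?_
  rw [Complex.real_smul]
  generalize e (h * y - -m * y ^ 2) = E at *
  generalize ((h + 2 * m * y : ℝ) : ℂ) = Q at *
  have hI := Complex.I_ne_zero
  field_simp

theorem fres_neg (h m al be : ℝ) (hh : 0 < h) (hm : 0 ≤ m) (ha : 0 ≤ al) (hab : al ≤ be) :
    ‖G h (-m) al be‖ ≤ 1 / (h + 2 * m * al) := by
  have hq : ∀ y ∈ Set.uIcc al be, 0 < h + 2 * m * y := by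
    intro y hy
    rw [Set.uIcc_of_le hab] at hy
    have : 0 ≤ m * y := mul_nonneg hm (ha.trans hy.1)
    linarith
  have hpi := Real.pi_pos
  have hpiC : (Real.pi : ℂ) ≠ 0 := by exact_mod_cast Real.pi_ne_zero
  have hce : Continuous fun y : ℝ => e (h * y - -m * y ^ 2) := cont_e.comp (by fun_prop)
  have hcq : Continuous fun y : ℝ => ((h + 2 * m * y : ℝ) : ℂ) :=
    Complex.continuous_ofReal.comp (by fun_prop)
  have hc2 : ContinuousOn (fun y : ℝ => e (h * y - -m * y ^ 2) * (2 * m : ℝ) /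
      (2 * Real.pi * Complex.I * ((h + 2 * m * y : ℝ) : ℂ) ^ 2)) (Set.uIcc al be) := by
    refine ContinuousOn.div (hce.mul continuous_const).continuousOn
      (continuous_const.mul (hcq.pow 2)).continuousOn ?_
    intro y hy
    have hqC : ((h + 2 * m * y : ℝ) : ℂ) ≠ 0 := by exact_mod_cast (hq y hy).ne'
    exact mul_ne_zero (mul_ne_zero (mul_ne_zero two_ne_zero hpiC) Complex.I_ne_zero)
      (pow_ne_zero 2 hqC)
  have hi1 : IntervalIntegrable (fun y : ℝ => e (h * y - -m * y ^ 2)) volume al be :=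
    hce.intervalIntegrable _ _
  have hi2 : IntervalIntegrable (fun y : ℝ => e (h * y - -m * y ^ 2) * (2 * m : ℝ) /
      (2 * Real.pi * Complex.I * ((h + 2 * m * y : ℝ) : ℂ) ^ 2)) volume al be :=
    hc2.intervalIntegrable
  have hftc := intervalIntegral.integral_eq_sub_of_hasDerivAt
    (fun y hy => hasDerivAt_FC16 h m y (hq y hy)) (hi1.sub hi2)
  rw [intervalIntegral.integral_sub hi1 hi2] at hftc
  have hG : G h (-m) al be = (e (h * be - -m * be ^ 2) /
        (2 * Real.pi * Complex.I * ((h + 2 * m * be : ℝ) : ℂ)) -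
      e (h * al - -m * al ^ 2) / (2 * Real.pi * Complex.I * ((h + 2 * m * al : ℝ) : ℂ))) +
      ∫ y in al..be, e (h * y - -m * y ^ 2) * (2 * m : ℝ) /
        (2 * Real.pi * Complex.I * ((h + 2 * m * y : ℝ) : ℂ) ^ 2) := by
    unfold G
    rw [← hftc]
    ring
  have hqa : 0 < h + 2 * m * al := hq al Set.left_mem_uIcc
  have hqb : 0 < h + 2 * m * be := hq be Set.right_mem_uIcc
  have hn1 : ∀ y : ℝ, 0 < h + 2 * m * y → ‖e (h * y - -m * y ^ 2) /
      (2 * Real.pi * Complex.I * ((h + 2 * m * y : ℝ) : ℂ))‖ =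
      1 / (2 * Real.pi * (h + 2 * m * y)) := by
    intro y hy
    rw [norm_div, norm_e, norm_mul, norm_mul, norm_mul, Complex.norm_I, Complex.norm_real,
      Complex.norm_real, Real.norm_of_nonneg hpi.le, Real.norm_of_nonneg hy.le,
      Complex.norm_ofNat]
    ring
  have hn2 : ∀ y : ℝ, 0 < h + 2 * m * y → ‖e (h * y - -m * y ^ 2) * (2 * m : ℝ) /
      (2 * Real.pi * Complex.I * ((h + 2 * m * y : ℝ) : ℂ) ^ 2)‖ =
      2 * m / (2 * Real.pi * (h + 2 * m * y) ^ 2) := by
    intro y hy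
    rw [norm_div, norm_mul, norm_e, norm_mul, norm_mul, norm_mul, norm_pow, Complex.norm_I,
      Complex.norm_real, Complex.norm_real, Complex.norm_real, Real.norm_of_nonneg hpi.le,
      Real.norm_of_nonneg hy.le, Real.norm_of_nonneg (by linarith : 0 ≤ 2 * m),
      Complex.norm_ofNat]
    ring
  -- the real integral
  have hR : ∀ y ∈ Set.uIcc al be, HasDerivAt (fun y : ℝ => -(1 / (2 * Real.pi * (h + 2 * m * y))))
      (2 * m / (2 * Real.pi * (h + 2 * m * y) ^ 2)) y := by
    intro y hy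
    have hqy := hq y hy
    have h3 : HasDerivAt (fun y : ℝ => 2 * Real.pi * (h + 2 * m * y)) (2 * Real.pi * (2 * m)) y := by
      have h4 : HasDerivAt (fun y : ℝ => 2 * m * y) (2 * m * 1) y :=
        (hasDerivAt_id y).const_mul (2 * m)
      exact ((h4.const_add h).const_mul (2 * Real.pi)).congr_deriv (by ring)
    have h5 := (h3.inv (by positivity)).neg
    have h6 : (fun y : ℝ => -(1 / (2 * Real.pi * (h + 2 * m * y)))) =
        fun y : ℝ => -(2 * Real.pi * (h + 2 * m * y))⁻¹ := by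
      funext y
      rw [one_div]
    rw [h6]
    refine h5.congr_deriv ?_
    field_simp
  have hcR : ContinuousOn (fun y : ℝ => 2 * m / (2 * Real.pi * (h + 2 * m * y) ^ 2))
      (Set.uIcc al be) := by
    refine ContinuousOn.div continuousOn_const (by fun_prop) ?_
    intro y hy
    have hqy := hq y hy
    positivity
  have hRi := intervalIntegral.integral_eq_sub_of_hasDerivAt hR hcR.intervalIntegrable
  have hb : ‖∫ y in al..be, e (h * y - -m * y ^ 2) * (2 * m : ℝ) /
        (2 * Real.pi * Complex.I * ((h + 2 * m * y : ℝ) : ℂ) ^ 2)‖ ≤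
      1 / (2 * Real.pi * (h + 2 * m * al)) - 1 / (2 * Real.pi * (h + 2 * m * be)) := by
    have h7 := intervalIntegral.norm_integral_le_of_norm_le (μ := volume) hab
      (f := fun y : ℝ => e (h * y - -m * y ^ 2) * (2 * m : ℝ) /
        (2 * Real.pi * Complex.I * ((h + 2 * m * y : ℝ) : ℂ) ^ 2))
      (g := fun y : ℝ => 2 * m / (2 * Real.pi * (h + 2 * m * y) ^ 2))
      (Filter.Eventually.of_forall fun y hy =>
        (hn2 y (hq y (by rw [Set.uIcc_of_le hab]; exact Set.Ioc_subset_Icc_self hy))).le)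
      hcR.intervalIntegrable
    rw [hRi] at h7
    linarith
  rw [hG]
  have h8 := norm_add_le (e (h * be - -m * be ^ 2) /
        (2 * Real.pi * Complex.I * ((h + 2 * m * be : ℝ) : ℂ)) -
      e (h * al - -m * al ^ 2) / (2 * Real.pi * Complex.I * ((h + 2 * m * al : ℝ) : ℂ)))
      (∫ y in al..be, e (h * y - -m * y ^ 2) * (2 * m : ℝ) /
        (2 * Real.pi * Complex.I * ((h + 2 * m * y : ℝ) : ℂ) ^ 2))
  have h9 := norm_sub_le (e (h * be - -m * be ^ 2) /
        (2 * Real.pi * Complex.I * ((h + 2 * m * be : ℝ) : ℂ)))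
      (e (h * al - -m * al ^ 2) / (2 * Real.pi * Complex.I * ((h + 2 * m * al : ℝ) : ℂ)))
  rw [hn1 be hqb, hn1 al hqa] at h9
  have h10 : 2 * (1 / (2 * Real.pi * (h + 2 * m * al))) ≤ 1 / (h + 2 * m * al) := by
    have h11 : 2 * (1 / (2 * Real.pi * (h + 2 * m * al))) = 1 / (Real.pi * (h + 2 * m * al)) := by
      field_simp
    rw [h11]
    apply one_div_le_one_div_of_le hqa
    nlinarith [Real.pi_gt_three]
  linarith

end Pool.Agent.SQ42
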