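import Pool.Agent.SQ42.Def

/-! FresD (lin_int): two integrals without stationary point (integration by parts).

(1) phase ph(y) = h y + m y^2, ph' = h + 2 m y > 0 increasing on [al, be]:
int e(ph) = [e(ph)/(2 pi i ph')] + int e(ph) ph''/(2 pi i ph'^2), bounded by
(1/(2 pi)) (1/ph'(al) + 1/ph'(be) + (1/ph'(al) - 1/ph'(be))) = 1/(pi ph'(al)).
(2) int 2 y e(h y) dy = [2 y e(h y)/(2 pi i h)] - int 2 e(h y)/(2 pi i h) dy, bounded by
(al + be + be - al)/(pi h) <= be/h. -/

namespace Pool.Agent.SQ42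

open MeasureTheory

private theorem fresd_deriv (h y : ℝ) (hh : h ≠ 0) :
    HasDerivAt (fun y : ℝ => e (h * y) / (2 * Real.pi * Complex.I * h)) (e (h * y)) y := by
  have h3 : HasDerivAt (fun y : ℝ => h * y) h y := by
    simpa using (hasDerivAt_id y).const_mul h
  have h1 : HasDerivAt (fun y : ℝ => e (h * y)) (h • (2 * Real.pi * Complex.I * e (h * y))) y :=
    (hasDerivAt_e (h * y)).scomp y h3
  have h4 := h1.div_const (2 * Real.pi * Complex.I * h)
  have hc : (h : ℂ) ≠ 0 := by exact_mod_cast hh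
  have hp : (Real.pi : ℂ) ≠ 0 := by exact_mod_cast Real.pi_ne_zero
  have he : (h • (2 * Real.pi * Complex.I * e (h * y)) : ℂ) / (2 * Real.pi * Complex.I * h) =
      e (h * y) := by
    rw [Complex.real_smul]
    field_simp
  rw [he] at h4
  exact h4

theorem lin_int (h al be : ℝ) (hh : 0 < h) (ha : 0 ≤ al) (hab : al ≤ be) :
    ‖∫ y in al..be, (2 * y : ℂ) * e (h * y)‖ ≤ be / h := by
  have hcont : Continuous fun y : ℝ => e (h * y) :=
    cont_e.comp (continuous_const.mul continuous_id)
  have hu : ∀ y ∈ Set.uIcc al be, HasDerivAt (fun y : ℝ => (2 * y : ℂ)) 2 y := by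
    intro y _
    have h1 : HasDerivAt (fun y : ℝ => ((y : ℝ) : ℂ)) 1 y := by
      simpa using (hasDerivAt_id y).ofReal_comp
    simpa using h1.const_mul (2 : ℂ)
  have hv : ∀ y ∈ Set.uIcc al be, HasDerivAt
      (fun y : ℝ => e (h * y) / (2 * Real.pi * Complex.I * h)) (e (h * y)) y :=
    fun y _ => fresd_deriv h y hh.ne'
  have key := intervalIntegral.integral_mul_deriv_eq_deriv_mul hu hv
    (intervalIntegrable_const) (hcont.intervalIntegrable al be)
  rw [key]
  have hnorm : ∀ y : ℝ, ‖e (h * y) / (2 * Real.pi * Complex.I * h)‖ = 1 / (2 * Real.pi * h) := by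
    intro y
    rw [norm_div, norm_e]
    congr 1
    rw [norm_mul, norm_mul, norm_mul, Complex.norm_I, Complex.norm_real, Complex.norm_real]
    simp [abs_of_pos hh, abs_of_pos Real.pi_pos]
  have hbe : 0 ≤ be := ha.trans hab
  have n1 : ‖(2 * (be : ℂ)) * (e (h * be) / (2 * Real.pi * Complex.I * h))‖ =
      2 * be * (1 / (2 * Real.pi * h)) := by
    rw [norm_mul, hnorm, norm_mul, Complex.norm_real]
    simp [abs_of_nonneg hbe]
  have n2 : ‖(2 * (al : ℂ)) * (e (h * al) / (2 * Real.pi * Complex.I * h))‖ =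
      2 * al * (1 / (2 * Real.pi * h)) := by
    rw [norm_mul, hnorm, norm_mul, Complex.norm_real]
    simp [abs_of_nonneg ha]
  have n3 : ‖∫ y in al..be, (2 : ℂ) * (e (h * y) / (2 * Real.pi * Complex.I * h))‖ ≤
      2 * (1 / (2 * Real.pi * h)) * |be - al| := by
    apply intervalIntegral.norm_integral_le_of_norm_le_const
    intro y _
    rw [norm_mul, hnorm]
    simp
  rw [abs_of_nonneg (sub_nonneg.2 hab)] at n3
  calc _ ≤ ‖(2 * (be : ℂ)) * (e (h * be) / (2 * Real.pi * Complex.I * h))‖ +
        ‖(2 * (al : ℂ)) * (e (h * al) / (2 * Real.pi * Complex.I * h))‖ +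
        ‖∫ y in al..be, (2 : ℂ) * (e (h * y) / (2 * Real.pi * Complex.I * h))‖ := by
        refine (norm_sub_le _ _).trans ?_
        gcongr
        exact norm_sub_le _ _
    _ ≤ 2 * be * (1 / (2 * Real.pi * h)) + 2 * al * (1 / (2 * Real.pi * h)) +
        2 * (1 / (2 * Real.pi * h)) * (be - al) := by
        rw [n1, n2]
        gcongr
    _ = 2 / Real.pi * (be / h) := by
        have := Real.pi_pos
        field_simp
        ring
    _ ≤ 1 * (be / h) := by
        apply mul_le_mul_of_nonneg_right _ (by positivity)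
        rw [div_le_one Real.pi_pos]
        exact Real.two_le_pi
    _ = be / h := one_mul _

end Pool.Agent.SQ42
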