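import Pool.Agent.SQ42.Def

/-! PoisB (subst_step); the whole proof: exact summation formula.

Proof. f(x) = e(h sqrt x) is smooth on [A, B], A >= 1. For an integer a, integration by parts gives
(f(a) + f(a+1))/2 - int_a^(a+1) f = int_a^(a+1) (x - a - 1/2) f'(x) dx
= (1/12) (f'(a+1) - f'(a)) - (1/2) int_a^(a+1) B2(x - a) f''(x) dx, B2(t) = t^2 - t + 1/6
= sum_(m>=1) cos(2 pi m t)/(pi^2 m^2) (Mathlib: hasSum_one_div_nat_pow_mul_cos, k = 1), absolutely
convergent, so the integral may be taken term by term; integrate each term by parts back: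
int_a^(a+1) cos(2 pi m x) f''(x) dx = f'(a+1) - f'(a) + 2 pi m int sin(2 pi m x) f'(x) dx, and
sum 1/(pi^2 m^2) = 1/6 cancels the boundary terms. So
int_a^(a+1) (x-a-1/2) f' = - sum_m (1/(pi m)) int_a^(a+1) sin(2 pi m x) f'(x) dx (unit_step).
Sum over a = A, ..., B-1. With x = y^2: f'(x) dx = 2 pi i h e(h y) dy and
sin(2 pi m y^2) = (e(m y^2) - e(-m y^2))/(2 i):
-(1/(pi m)) int_A^B sin(2 pi m x) f'(x) dx = (h/m) (G(h, m) - G(h, -m)) (subst_step);
int_A^B f = int_al^be 2 y e(h y) dy. -/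

namespace Pool.Agent.SQ42

open MeasureTheory

theorem subst_step (h m : ℝ) (hm : m ≠ 0) (A B : ℕ) (hA : 1 ≤ A) (hAB : A ≤ B) :
    -((1 / (Real.pi * m) : ℝ) : ℂ) * ∫ x in (A : ℝ)..B,
        ((Real.sin (2 * Real.pi * m * x) : ℝ) : ℂ) *
          (Real.pi * Complex.I * h / Real.sqrt x * e (h * Real.sqrt x))
      = ((h / m : ℝ) : ℂ) * (G h m (Real.sqrt A) (Real.sqrt B) -
          G h (-m) (Real.sqrt A) (Real.sqrt B)) := by
  have hA1 : (1 : ℝ) ≤ A := by exact_mod_cast hA
  have hAB1 : (A : ℝ) ≤ B := by exact_mod_cast hAB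
  have hal : (1 : ℝ) ≤ Real.sqrt A := by
    rw [Real.one_le_sqrt]; exact hA1
  have hab : Real.sqrt (A : ℝ) ≤ Real.sqrt B := Real.sqrt_le_sqrt hAB1
  have hpos : ∀ y ∈ Set.uIcc (Real.sqrt (A : ℝ)) (Real.sqrt B), (0 : ℝ) < y := by
    intro y hy
    rw [Set.uIcc_of_le hab] at hy
    linarith [hy.1]
  have key := intervalIntegral.integral_deriv_smul_comp' (a := Real.sqrt (A : ℝ))
    (b := Real.sqrt (B : ℝ)) (f := fun y : ℝ => y ^ 2) (f' := fun y : ℝ => 2 * y)
    (g := fun x : ℝ => ((Real.sin (2 * Real.pi * m * x) : ℝ) : ℂ) *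
          (Real.pi * Complex.I * h / Real.sqrt x * e (h * Real.sqrt x)))
    (fun y _ => by simpa using hasDerivAt_pow 2 y)
    (by fun_prop)
    (by
      have hc : ContinuousOn (fun x : ℝ => ((Real.sqrt x : ℝ) : ℂ))
          ((fun y : ℝ => y ^ 2) '' Set.uIcc (Real.sqrt (A : ℝ)) (Real.sqrt B)) := by
        fun_prop
      have hne : ∀ x ∈ ((fun y : ℝ => y ^ 2) '' Set.uIcc (Real.sqrt (A : ℝ)) (Real.sqrt B)),
          ((Real.sqrt x : ℝ) : ℂ) ≠ 0 := by
        rintro x ⟨y, hy, rfl⟩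
        have := hpos y hy
        have h2 : Real.sqrt (y ^ 2) = y := Real.sqrt_sq this.le
        simp only [h2]
        exact_mod_cast this.ne'
      have he := cont_e
      refine ContinuousOn.mul (by fun_prop) (ContinuousOn.mul ?_ ?_)
      · exact ContinuousOn.div (by fun_prop) hc hne
      · exact (he.comp (by fun_prop)).continuousOn)
  have hsA : (Real.sqrt (A : ℝ)) ^ 2 = A := Real.sq_sqrt (by linarith)
  have hsB : (Real.sqrt (B : ℝ)) ^ 2 = B := Real.sq_sqrt (by linarith)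
  simp only [hsA, hsB] at key
  rw [← key]
  have hpi : (Real.pi : ℂ) ≠ 0 := by exact_mod_cast Real.pi_ne_zero
  have hmc : (m : ℂ) ≠ 0 := by exact_mod_cast hm
  have hI1 : IntervalIntegrable (fun y : ℝ => e (h * y - m * y ^ 2)) volume
      (Real.sqrt (A : ℝ)) (Real.sqrt B) :=
    (cont_e.comp (by fun_prop)).intervalIntegrable _ _
  have hI2 : IntervalIntegrable (fun y : ℝ => e (h * y - (-m) * y ^ 2)) volume
      (Real.sqrt (A : ℝ)) (Real.sqrt B) :=
    (cont_e.comp (by fun_prop)).intervalIntegrable _ _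
  have hpt : ∀ y ∈ Set.uIcc (Real.sqrt (A : ℝ)) (Real.sqrt B),
      (2 * y) • ((fun x : ℝ => ((Real.sin (2 * Real.pi * m * x) : ℝ) : ℂ) *
          (Real.pi * Complex.I * h / Real.sqrt x * e (h * Real.sqrt x))) ∘
            (fun y : ℝ => y ^ 2)) y
        = (Real.pi * h : ℂ) * (e (h * y - (-m) * y ^ 2) - e (h * y - m * y ^ 2)) := by
    intro y hy
    have hy0 := hpos y hy
    have h2 : Real.sqrt (y ^ 2) = y := Real.sqrt_sq hy0.le
    have hyc : (y : ℂ) ≠ 0 := by exact_mod_cast hy0.ne'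
    have hsin : ((Real.sin (2 * Real.pi * m * y ^ 2) : ℝ) : ℂ)
        = (e (m * y ^ 2) - e (-(m * y ^ 2))) / (2 * Complex.I) := by
      unfold e
      rw [Complex.ofReal_sin, Complex.sin]
      have hI : Complex.I ≠ 0 := Complex.I_ne_zero
      have hII : Complex.I * Complex.I = -1 := Complex.I_mul_I
      have q1 : -(((2 * Real.pi * m * y ^ 2 : ℝ) : ℂ)) * Complex.I
          = 2 * Real.pi * ((-(m * y ^ 2) : ℝ) : ℂ) * Complex.I := by
        push_cast; ring
      have q2 : (((2 * Real.pi * m * y ^ 2 : ℝ) : ℂ)) * Complex.I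
          = 2 * Real.pi * ((m * y ^ 2 : ℝ) : ℂ) * Complex.I := by
        push_cast; ring
      rw [q1, q2]
      generalize Complex.exp (2 * Real.pi * ((-(m * y ^ 2) : ℝ) : ℂ) * Complex.I) = u
      generalize Complex.exp (2 * Real.pi * ((m * y ^ 2 : ℝ) : ℂ) * Complex.I) = v
      rw [eq_div_iff (by simp)]
      linear_combination (u - v) * hII
    have e1 : e (h * y - (-m) * y ^ 2) = e (h * y) * e (m * y ^ 2) := by
      rw [← e_add]; congr 1; ring
    have e2 : e (h * y - m * y ^ 2) = e (h * y) * e (-(m * y ^ 2)) := by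
      rw [← e_add]; congr 1
    simp only [Function.comp_apply, h2, Complex.real_smul]
    rw [hsin, e1, e2]
    push_cast
    have hI : Complex.I ≠ 0 := Complex.I_ne_zero
    field_simp
  rw [intervalIntegral.integral_congr hpt, intervalIntegral.integral_const_mul,
    intervalIntegral.integral_sub hI2 hI1]
  unfold G
  generalize (∫ y in Real.sqrt (A : ℝ)..Real.sqrt B, e (h * y - (-m) * y ^ 2)) = u
  generalize (∫ y in Real.sqrt (A : ℝ)..Real.sqrt B, e (h * y - m * y ^ 2)) = v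
  push_cast
  field_simp
  ring

end Pool.Agent.SQ42
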