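import Pool.Agent.SQ42.PoisA
import Pool.Agent.SQ42.PoisB

/-! Pois (pois, from unit_step and subst_step); the whole proof: exact summation formula.

Proof. f(x) = e(h sqrt x) is smooth on [A, B], A >= 1. For an integer a, integration by parts gives
(f(a) + f(a+1))/2 - int_a^(a+1) f = int_a^(a+1) (x - a - 1/2) f'(x) dx
= (1/12) (f'(a+1) - f'(a)) - (1/2) int_a^(a+1) B2(x - a) f''(x) dx, B2(t) = t^2 - t + 1/6
= sum_(m>=1) cos(2 pi m t)/(pi^2 m^2) (Mathlib: hasSum_one_div_nat_pow_mul_cos, k = 1), absolutely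
convergent, so the integral may be taken term by term; integrate each term by parts back:
int_a^(a+1) cos(2 pi m x) f''(x) dx = f'(a+1) - f'(a) + 2 pi m int sin(2 pi m x) f'(x) dx, and
sum 1/(pi^2 m^2) = 1/6 cancels the boundary terms. So
int_a^(a+1) (x-a-1/2) f' = - sum_m (1/(pi m)) int_a^(a+1) sin(2 pi m x) f'(x) dx (unit_step).
Sum over a = A, ..., B-1. With x = y^2: f'(x) dx = 2 pi i h e(h y) dy and
sin(2 pi m y^2) = (e(m y^2) - e(-m y^2))/(2 i):
-(1/(pi m)) int_A^B sin(2 pi m x) f'(x) dx = (h/m) (G(h, m) - G(h, -m)) (subst_step);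
int_A^B f = int_al^be 2 y e(h y) dy. -/

namespace Pool.Agent.SQ42

open MeasureTheory

/-- derivative of `e (h sqrt x)` -/
theorem Pois_d1 (h x : ℝ) (hx : 0 < x) :
    HasDerivAt (fun x : ℝ => e (h * Real.sqrt x))
      (Real.pi * Complex.I * h / Real.sqrt x * e (h * Real.sqrt x)) x := by
  have h1 : HasDerivAt (fun x : ℝ => h * Real.sqrt x) (h * (1 / (2 * Real.sqrt x))) x :=
    (Real.hasDerivAt_sqrt hx.ne').const_mul h
  have h2 := (hasDerivAt_e (h * Real.sqrt x)).scomp x h1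
  have hs : (Real.sqrt x : ℂ) ≠ 0 := by
    have : Real.sqrt x ≠ 0 := (Real.sqrt_pos.2 hx).ne'
    exact_mod_cast this
  have e1 : (h * (1 / (2 * Real.sqrt x))) • (2 * Real.pi * Complex.I * e (h * Real.sqrt x)) =
      Real.pi * Complex.I * h / Real.sqrt x * e (h * Real.sqrt x) := by
    rw [Complex.real_smul]
    push_cast
    field_simp
  rw [e1] at h2
  exact h2

/-- the second derivative -/
noncomputable def Pois_f2 (h x : ℝ) : ℂ :=
  Real.pi * Complex.I * h * ((((-(1 / (2 * Real.sqrt x)) / Real.sqrt x ^ 2 : ℝ)) : ℂ) *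
    e (h * Real.sqrt x) + (((Real.sqrt x)⁻¹ : ℝ) : ℂ) *
      (Real.pi * Complex.I * h / Real.sqrt x * e (h * Real.sqrt x)))

theorem Pois_d2 (h x : ℝ) (hx : 0 < x) :
    HasDerivAt (fun x : ℝ => Real.pi * Complex.I * h / Real.sqrt x * e (h * Real.sqrt x))
      (Pois_f2 h x) x := by
  have hs : Real.sqrt x ≠ 0 := (Real.sqrt_pos.2 hx).ne'
  have h1 : HasDerivAt (fun x : ℝ => (((Real.sqrt x)⁻¹ : ℝ) : ℂ))
      (((-(1 / (2 * Real.sqrt x)) / Real.sqrt x ^ 2 : ℝ)) : ℂ) x :=
    ((Real.hasDerivAt_sqrt hx.ne').fun_inv hs).ofReal_comp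
  have h2 := (h1.fun_mul (Pois_d1 h x hx)).const_mul (Real.pi * Complex.I * h : ℂ)
  refine (h2.congr_of_eventuallyEq (Filter.Eventually.of_forall fun y => ?_))
  simp only [Complex.ofReal_inv]
  ring

theorem Pois_c0 (h : ℝ) : Continuous (fun x : ℝ => e (h * Real.sqrt x)) :=
  cont_e.comp (continuous_const.mul Real.continuous_sqrt)

theorem Pois_c2 (h : ℝ) (S : Set ℝ) (hS : ∀ x ∈ S, 0 < x) : ContinuousOn (Pois_f2 h) S := by
  have hs : ∀ x ∈ S, Real.sqrt x ≠ 0 := fun x hx => (Real.sqrt_pos.2 (hS x hx)).ne'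
  have hs2 : ∀ x ∈ S, (Real.sqrt x : ℂ) ≠ 0 := fun x hx => by exact_mod_cast hs x hx
  have c1 : ContinuousOn (fun x : ℝ => Real.sqrt x) S := Real.continuous_sqrt.continuousOn
  have c2 : ContinuousOn (fun x : ℝ => (Real.sqrt x : ℂ)) S :=
    (Complex.continuous_ofReal.comp Real.continuous_sqrt).continuousOn
  have c3 : ContinuousOn (fun x : ℝ => e (h * Real.sqrt x)) S := (Pois_c0 h).continuousOn
  have c4 : ContinuousOn (fun x : ℝ => -(1 / (2 * Real.sqrt x)) / Real.sqrt x ^ 2) S := by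
    apply ContinuousOn.div
    · apply ContinuousOn.neg
      apply ContinuousOn.div continuousOn_const (continuousOn_const.mul c1)
      intro x hx
      exact mul_ne_zero two_ne_zero (hs x hx)
    · exact c1.pow 2
    · intro x hx
      exact pow_ne_zero 2 (hs x hx)
  have c5 : ContinuousOn (fun x : ℝ => (Real.sqrt x)⁻¹) S := c1.inv₀ hs
  have c6 : ContinuousOn (fun x : ℝ => (((-(1 / (2 * Real.sqrt x)) / Real.sqrt x ^ 2 : ℝ)) : ℂ)) S :=
    Complex.continuous_ofReal.comp_continuousOn c4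
  have c7 : ContinuousOn (fun x : ℝ => (((Real.sqrt x)⁻¹ : ℝ) : ℂ)) S :=
    Complex.continuous_ofReal.comp_continuousOn c5
  have c8 : ContinuousOn (fun x : ℝ => (Real.pi * Complex.I * h / Real.sqrt x : ℂ)) S :=
    continuousOn_const.div c2 hs2
  unfold Pois_f2
  exact continuousOn_const.mul ((c6.mul c3).add (c7.mul (c8.mul c3)))

theorem Pois_sum (F : ℕ → ℂ) (A B : ℕ) (hAB : A ≤ B) :
    ∑ a ∈ Finset.Ico A B, (F a + F (a + 1)) / 2 =
      (∑ a ∈ Finset.Icc A B, F a) - (F A + F B) / 2 := by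
  induction B, hAB using Nat.le_induction with
  | base => simp
  | succ n hn ih =>
    rw [Finset.sum_Ico_succ_top hn, ih, Finset.sum_Icc_succ_top (by omega)]
    ring

theorem Pois_int (h : ℝ) (A B : ℕ) :
    ∫ x in (A : ℝ)..B, e (h * Real.sqrt x) =
      ∫ y in (Real.sqrt A)..(Real.sqrt B), (2 * y : ℂ) * e (h * y) := by
  have h1 : ∀ x ∈ Set.uIcc (Real.sqrt A) (Real.sqrt B),
      HasDerivAt (fun y : ℝ => y ^ 2) (2 * x) x := by
    intro x _
    have := hasDerivAt_pow 2 x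
    simpa using this
  have h2 := intervalIntegral.integral_deriv_smul_comp (a := Real.sqrt A) (b := Real.sqrt B)
    (f := fun y : ℝ => y ^ 2) (f' := fun y : ℝ => 2 * y) (g := fun x : ℝ => e (h * Real.sqrt x))
    h1 (by fun_prop) (Pois_c0 h)
  have hA : Real.sqrt A ^ 2 = A := Real.sq_sqrt (Nat.cast_nonneg A)
  have hB : Real.sqrt B ^ 2 = B := Real.sq_sqrt (Nat.cast_nonneg B)
  simp only [hA, hB] at h2
  rw [← h2]
  apply intervalIntegral.integral_congr
  intro y hy
  have hy0 : 0 ≤ y := by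
    have := hy.1
    exact le_trans (le_min (Real.sqrt_nonneg _) (Real.sqrt_nonneg _)) this
  simp only [Function.comp_apply]
  rw [Real.sqrt_sq hy0, Complex.real_smul]
  push_cast
  ring

theorem pois (h : ℝ) (A B : ℕ) (hA : 1 ≤ A) (hAB : A ≤ B) :
    HasSum (fun m : ℕ => ((h / (m + 1) : ℝ) : ℂ) *
        (G h (m + 1) (Real.sqrt A) (Real.sqrt B) - G h (-(m + 1)) (Real.sqrt A) (Real.sqrt B)))
      ((∑ a ∈ Finset.Icc A B, e (h * Real.sqrt a)) -
        (e (h * Real.sqrt A) + e (h * Real.sqrt B)) / 2 -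
        ∫ y in (Real.sqrt A)..(Real.sqrt B), (2 * y : ℂ) * e (h * y)) := by
  have hf1c : ∀ S : Set ℝ, (∀ x ∈ S, 0 < x) → ContinuousOn
      (fun x : ℝ => Real.pi * Complex.I * h / Real.sqrt x * e (h * Real.sqrt x)) S := by
    intro S hS x hx
    exact (Pois_d2 h x (hS x hx)).continuousAt.continuousWithinAt
  have hstep : ∀ a ∈ Finset.Ico A B, HasSum (fun m : ℕ => -((1 / (Real.pi * (m + 1)) : ℝ) : ℂ) *
        ∫ x in (a : ℝ)..(a + 1), ((Real.sin (2 * Real.pi * (m + 1) * x) : ℝ) : ℂ) *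
          (Real.pi * Complex.I * h / Real.sqrt x * e (h * Real.sqrt x)))
      ((e (h * Real.sqrt a) + e (h * Real.sqrt (a + 1))) / 2 -
        ∫ x in (a : ℝ)..(a + 1), e (h * Real.sqrt x)) := by
    intro a ha
    have ha1 : 1 ≤ a := hA.trans (Finset.mem_Ico.1 ha).1
    have hpos : ∀ x ∈ Set.Icc (a : ℝ) (a + 1), 0 < x := by
      intro x hx
      have : (1 : ℝ) ≤ a := by exact_mod_cast ha1
      linarith [hx.1]
    exact unit_step (fun x : ℝ => e (h * Real.sqrt x))
      (fun x : ℝ => Real.pi * Complex.I * h / Real.sqrt x * e (h * Real.sqrt x)) (Pois_f2 h) a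
      (fun x hx => Pois_d1 h x (hpos x hx)) (fun x hx => Pois_d2 h x (hpos x hx))
      (Pois_c2 h _ hpos)
  have hs := hasSum_sum hstep
  have hval : ∑ a ∈ Finset.Ico A B, ((e (h * Real.sqrt a) + e (h * Real.sqrt (a + 1))) / 2 -
        ∫ x in (a : ℝ)..(a + 1), e (h * Real.sqrt x)) =
      (∑ a ∈ Finset.Icc A B, e (h * Real.sqrt a)) -
        (e (h * Real.sqrt A) + e (h * Real.sqrt B)) / 2 -
        ∫ y in (Real.sqrt A)..(Real.sqrt B), (2 * y : ℂ) * e (h * y) := by
    rw [Finset.sum_sub_distrib]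
    congr 1
    · have := Pois_sum (fun a : ℕ => e (h * Real.sqrt a)) A B hAB
      rw [← this]
      apply Finset.sum_congr rfl
      intro a _
      push_cast
      rfl
    · rw [← Pois_int]
      have := intervalIntegral.sum_integral_adjacent_intervals_Ico (μ := volume)
        (f := fun x : ℝ => e (h * Real.sqrt x)) (a := fun k : ℕ => (k : ℝ)) hAB
        (fun k _ => (Pois_c0 h).intervalIntegrable _ _)
      rw [← this]
      apply Finset.sum_congr rfl
      intro a _
      push_cast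
      rfl
  rw [hval] at hs
  refine hs.congr_fun ?_
  intro m
  have hm : ((m : ℝ) + 1) ≠ 0 := by positivity
  rw [← subst_step h ((m : ℝ) + 1) hm A B hA hAB, ← Finset.mul_sum]
  congr 1
  have hpos : ∀ k ∈ Set.Ico A B, ∀ x ∈ Set.uIcc ((k : ℝ)) (((k + 1 : ℕ)) : ℝ), 0 < x := by
    intro k hk x hx
    have h1 : (1 : ℝ) ≤ k := by exact_mod_cast hA.trans hk.1
    have h2 : (k : ℝ) ≤ ((k + 1 : ℕ) : ℝ) := by push_cast; linarith
    rw [Set.uIcc_of_le h2] at hx
    linarith [hx.1]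
  have := intervalIntegral.sum_integral_adjacent_intervals_Ico (μ := volume)
    (f := fun x : ℝ => ((Real.sin (2 * Real.pi * ((m : ℝ) + 1) * x) : ℝ) : ℂ) *
      (Real.pi * Complex.I * h / Real.sqrt x * e (h * Real.sqrt x)))
    (a := fun k : ℕ => (k : ℝ)) hAB
    (fun k hk => by
      apply ContinuousOn.intervalIntegrable
      apply ContinuousOn.mul
      · apply Continuous.continuousOn
        exact Complex.continuous_ofReal.comp (Real.continuous_sin.comp (by fun_prop))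
      · exact hf1c _ (hpos k hk))
  rw [← this]
  apply Finset.sum_congr rfl
  intro a _
  push_cast
  rfl

end Pool.Agent.SQ42
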