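import Pool.Agent.SQ42.FresB
import Pool.Agent.SQ42.FresC
import Pool.Agent.SQ42.FresD
import Pool.Agent.SQ42.Pois
import Pool.Agent.SQ42.ErrA
import Pool.Agent.SQ42.ErrB

/-! BProc: S(h,n) = K sum_(m in I(h,n)) h m^(-3/2) e(h^2/(4m)) + O(sqrt n (1 + log n)).

Proof. A = ceil(n/2) = (n+1)/2 in Nat, B = n; the a of S(h,n) are Icc A n. pois with al = sqrt A >= 1,
be = sqrt n. Boundary terms: norm <= 1. lin_int: <= sqrt n / h <= 2 (sqrt n <= 2 h). Terms G(h,-(m+1)):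
fres_neg and err_neg: <= 4 (1 + log h). Terms G(h,m+1): fres_main; the main terms are exactly those
m+1 with 2 m al < h <= 2 m be, so m+1 in I(h,n) (m al < h and al >= 1 give m <= h); the error is
<= C (sum err_pos(al) + err_pos(be)) <= 80 C (sqrt n + 1 + log h), log h <= log n. -/

namespace Pool.Agent.SQ42

open MeasureTheory

theorem bproc : ∃ K : ℂ, ∃ C : ℝ, 0 ≤ C ∧ ∀ n h : ℕ, 1 ≤ n → 1 ≤ h → h ≤ n →
    Real.sqrt n ≤ 2 * h →
    ‖S h n - K * ∑ m ∈ I h n, ((h / (m * Real.sqrt m) : ℝ) : ℂ) * e ((h : ℝ) ^ 2 / (4 * m))‖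
      ≤ C * Real.sqrt n * (1 + Real.log n) := by
  obtain ⟨K, C, hC, hK⟩ := fres_main
  refine ⟨K, 160 * C + 7, by positivity, ?_⟩
  intro n h hn hh hhn hsq
  obtain ⟨A, hA⟩ : ∃ A : ℕ, A = (n + 1) / 2 := ⟨_, rfl⟩
  have hA1 : 1 ≤ A := by omega
  have hAn : A ≤ n := by omega
  have hnR : (1 : ℝ) ≤ n := by exact_mod_cast hn
  have hhR : (1 : ℝ) ≤ h := by exact_mod_cast hh
  have hhnR : (h : ℝ) ≤ n := by exact_mod_cast hhn
  have hh0 : (0 : ℝ) < h := by linarith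
  obtain ⟨al, hal⟩ : ∃ al : ℝ, al = Real.sqrt A := ⟨_, rfl⟩
  obtain ⟨be, hbe⟩ : ∃ be : ℝ, be = Real.sqrt n := ⟨_, rfl⟩
  have hal1 : 1 ≤ al := by
    rw [hal]
    exact Real.one_le_sqrt.mpr (by exact_mod_cast hA1)
  have halbe : al ≤ be := by
    rw [hal, hbe]
    exact Real.sqrt_le_sqrt (by exact_mod_cast hAn)
  have hbe1 : 1 ≤ be := hal1.trans halbe
  have hP := pois (h : ℝ) A n hA1 hAn
  rw [← hal, ← hbe] at hP
  -- the sum
  have hS : S h n = ∑ a ∈ Finset.Icc A n, e (h * Real.sqrt a) := by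
    unfold S
    refine Finset.sum_congr ?_ (fun _ _ => rfl)
    ext a
    simp only [Finset.mem_filter, Finset.mem_range, Finset.mem_Icc]
    omega
  -- the main terms
  obtain ⟨main, hmain⟩ : ∃ main : ℕ → ℂ, main = fun m : ℕ =>
      ((h / (m + 1) : ℝ) : ℂ) * (if 2 * (m + 1 : ℝ) * al < h ∧ (h : ℝ) ≤ 2 * (m + 1 : ℝ) * be then
        K * (1 / Real.sqrt (m + 1 : ℝ) : ℝ) * e ((h : ℝ) ^ 2 / (4 * (m + 1 : ℝ))) else 0) := ⟨_, rfl⟩
  have hM0 : ∀ m ∉ Finset.range h, main m = 0 := by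
    intro m hm
    rw [Finset.mem_range, not_lt] at hm
    have hmR : (h : ℝ) ≤ m := by exact_mod_cast hm
    rw [hmain]
    simp only
    rw [if_neg, mul_zero]
    rintro ⟨h1, -⟩
    have : (m + 1 : ℝ) * 1 ≤ (m + 1 : ℝ) * al := mul_le_mul_of_nonneg_left hal1 (by positivity)
    nlinarith
  have hMs : HasSum main (∑ m ∈ Finset.range h, main m) := hasSum_sum_of_ne_finset_zero hM0
  have hMe : ∑ m ∈ Finset.range h, main m =
      K * ∑ m ∈ I h n, ((h / (m * Real.sqrt m) : ℝ) : ℂ) * e ((h : ℝ) ^ 2 / (4 * m)) := by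
    unfold I
    rw [← hA, ← hal, ← hbe, Finset.sum_filter, Finset.mul_sum]
    refine Finset.sum_nbij' (fun m => m + 1) (fun m => m - 1) ?_ ?_ ?_ ?_ ?_
    · intro m hm
      rw [Finset.mem_range] at hm
      rw [Finset.mem_Icc]
      omega
    · intro m hm
      rw [Finset.mem_Icc] at hm
      rw [Finset.mem_range]
      omega
    · intro m hm
      simp
    · intro m hm
      rw [Finset.mem_Icc] at hm
      omega
    · intro m hm
      rw [hmain]
      simp only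
      push_cast
      split_ifs with hc
      · have hs : (0 : ℝ) < Real.sqrt (m + 1 : ℝ) := Real.sqrt_pos.mpr (by positivity)
        have hsC : ((Real.sqrt (m + 1 : ℝ) : ℝ) : ℂ) ≠ 0 := by exact_mod_cast hs.ne'
        have hmC : ((m : ℂ) + 1) ≠ 0 := by
          have : ((m : ℝ) + 1) ≠ 0 := by positivity
          exact_mod_cast this
        field_simp
      · simp
  -- the errors
  obtain ⟨s1, t1⟩ := err_pos h al hhR hal1
  obtain ⟨s2, t2⟩ := err_pos h be hhR hbe1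
  obtain ⟨s3, t3⟩ := err_neg h al hhR hal1
  have hE := ((s1.hasSum.add s2.hasSum).mul_left C).add s3.hasSum
  have hD := (hP.sub hMs).norm_le_of_bounded hE (by
    intro m
    have hm1 : (1 : ℝ) ≤ (m : ℝ) + 1 := by
      have : (0 : ℝ) ≤ m := Nat.cast_nonneg m
      linarith
    have hm0 : (0 : ℝ) < (m : ℝ) + 1 := by linarith
    have k1 := hK h (m + 1) al be hm1 halbe
    have k2 := fres_neg h (m + 1) al be hh0 hm0.le (by linarith) halbe
    rw [hmain]
    simp only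
    rw [← mul_sub, norm_mul, Complex.norm_real, Real.norm_of_nonneg (by positivity)]
    have k3 : ‖G h (m + 1) al be - G h (-(m + 1)) al be -
        (if 2 * (m + 1 : ℝ) * al < h ∧ (h : ℝ) ≤ 2 * (m + 1 : ℝ) * be then
        K * (1 / Real.sqrt (m + 1 : ℝ) : ℝ) * e ((h : ℝ) ^ 2 / (4 * (m + 1 : ℝ))) else 0)‖ ≤
        C * (1 / (1 + |(m + 1 : ℝ) * al - h / 2|) + 1 / (1 + |(m + 1 : ℝ) * be - h / 2|)) +
          1 / (h + 2 * (m + 1 : ℝ) * al) := by
      rw [sub_right_comm]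
      exact (norm_sub_le _ _).trans (add_le_add k1 k2)
    calc (h / (m + 1) : ℝ) * _ ≤ (h / (m + 1) : ℝ) * (C * (1 / (1 + |(m + 1 : ℝ) * al - h / 2|) +
          1 / (1 + |(m + 1 : ℝ) * be - h / 2|)) + 1 / (h + 2 * (m + 1 : ℝ) * al)) :=
          mul_le_mul_of_nonneg_left k3 (by positivity)
      _ = _ := by ring)
  have hlin := lin_int h al be hh0 (by linarith) halbe
  have hl1 : Real.log h ≤ Real.log n := Real.log_le_log hh0 hhnR
  have hl0 : 0 ≤ Real.log n := Real.log_nonneg hnR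
  have hlh : 0 ≤ Real.log h := Real.log_nonneg hhR
  have hbd : ‖(e (h * al) + e (h * be)) / 2‖ ≤ 1 := by
    rw [norm_div]
    have h2 := norm_add_le (e (h * al)) (e (h * be))
    rw [norm_e, norm_e] at h2
    have h3 : ‖(2 : ℂ)‖ = 2 := by norm_num
    rw [h3]
    linarith
  have hbeh : be / h ≤ 2 := by
    rw [div_le_iff₀ hh0, hbe]
    exact hsq
  rw [hMe] at hD
  rw [hS, ← hbe]
  have hfin : ‖(∑ a ∈ Finset.Icc A n, e (h * Real.sqrt a)) -
      K * ∑ m ∈ I h n, ((h / (m * Real.sqrt m) : ℝ) : ℂ) * e ((h : ℝ) ^ 2 / (4 * m))‖ ≤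
      (C * ((∑' m : ℕ, (h : ℝ) / (m + 1) * (1 / (1 + |(m + 1 : ℝ) * al - h / 2|))) +
        ∑' m : ℕ, (h : ℝ) / (m + 1) * (1 / (1 + |(m + 1 : ℝ) * be - h / 2|))) +
        ∑' m : ℕ, (h : ℝ) / (m + 1) * (1 / (h + 2 * (m + 1 : ℝ) * al))) + 1 + be / h := by
    have e1 : (∑ a ∈ Finset.Icc A n, e (h * Real.sqrt a)) -
      K * ∑ m ∈ I h n, ((h / (m * Real.sqrt m) : ℝ) : ℂ) * e ((h : ℝ) ^ 2 / (4 * m)) =
      (((∑ a ∈ Finset.Icc A n, e (h * Real.sqrt a)) - (e (h * al) + e (h * be)) / 2 -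
        ∫ y in al..be, (2 * y : ℂ) * e (h * y)) -
        K * ∑ m ∈ I h n, ((h / (m * Real.sqrt m) : ℝ) : ℂ) * e ((h : ℝ) ^ 2 / (4 * m))) +
      (e (h * al) + e (h * be)) / 2 + ∫ y in al..be, (2 * y : ℂ) * e (h * y) := by ring
    rw [e1]
    exact (norm_add_le _ _).trans (add_le_add ((norm_add_le _ _).trans (add_le_add hD hbd)) hlin)
  refine hfin.trans ?_
  have a1 : al + 1 + Real.log h ≤ 2 * (be * (1 + Real.log n)) := by
    have h1 : 1 + Real.log n ≤ be * (1 + Real.log n) :=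
      le_mul_of_one_le_left (by linarith) hbe1
    have h2 : be ≤ be * (1 + Real.log n) := le_mul_of_one_le_right (by linarith) (by linarith)
    linarith
  have a2 : be + 1 + Real.log h ≤ 2 * (be * (1 + Real.log n)) := by
    have h1 : 1 + Real.log n ≤ be * (1 + Real.log n) :=
      le_mul_of_one_le_left (by linarith) hbe1
    have h2 : be ≤ be * (1 + Real.log n) := le_mul_of_one_le_right (by linarith) (by linarith)
    linarith
  have a3 : 1 ≤ be * (1 + Real.log n) := by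
    have h1 : 1 + Real.log n ≤ be * (1 + Real.log n) :=
      le_mul_of_one_le_left (by linarith) hbe1
    linarith
  have a4 : 1 + Real.log h ≤ be * (1 + Real.log n) := by
    have h1 : 1 + Real.log n ≤ be * (1 + Real.log n) :=
      le_mul_of_one_le_left (by linarith) hbe1
    linarith
  obtain ⟨X, hX⟩ : ∃ X : ℝ, X = be * (1 + Real.log n) := ⟨_, rfl⟩
  rw [← hX] at a1 a2 a3 a4
  have b1 : C * ((∑' m : ℕ, (h : ℝ) / (m + 1) * (1 / (1 + |(m + 1 : ℝ) * al - h / 2|))) +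
        ∑' m : ℕ, (h : ℝ) / (m + 1) * (1 / (1 + |(m + 1 : ℝ) * be - h / 2|))) ≤ C * (160 * X) := by
    refine mul_le_mul_of_nonneg_left ?_ hC
    linarith
  have e2 : (160 * C + 7) * be * (1 + Real.log n) = C * (160 * X) + 7 * X := by
    rw [hX]
    ring
  rw [e2]
  linarith

end Pool.Agent.SQ42
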