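import Mathlib

/-! CntA: splitting of the lcm.

Proof. L = lcm of the x i, N i = L/(x i), A = sum s i N i. For a prime p let v = v_p(L).
l1 = product of p^v over the primes p | L with p not dividing A, l2 = L/l1 = product of p^v over the
p | L with p | A. (So gcd(l1, A) = 1.) l1 l2^2 | prod x i: if p | l1 then v_p(prod x i) >= v (some x i
has valuation v). If p | l2, then p | A = sum s i N i; p does not divide N i iff v_p(x i) = v; there is
such an i, and if it were the only one, p would not divide A; so two indices i, i' have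
v_p(x i) = v_p(x i') = v and v_p(prod) >= 2 v = v_p(l1 l2^2). -/

namespace Pool.Agent.SQ42

theorem cnt_split {ι : Type} [Fintype ι] [DecidableEq ι] (x : ι → ℕ) (hx : ∀ i, 1 ≤ x i)
    (s : ι → ℤ) (hs : ∀ i, s i = 1 ∨ s i = -1) :
    ∃ l1 l2 : ℕ, 1 ≤ l1 ∧ 1 ≤ l2 ∧ Finset.univ.lcm x = l1 * l2 ∧
      IsCoprime (l1 : ℤ) (∑ i, s i * ((Finset.univ.lcm x / x i : ℕ) : ℤ)) ∧
      l1 * l2 ^ 2 ∣ ∏ i, x i := by
  classical
  obtain ⟨L, hL⟩ : ∃ L, L = Finset.univ.lcm x := ⟨_, rfl⟩
  rw [← hL]
  have hdvd : ∀ i, x i ∣ L := fun i => hL ▸ Finset.dvd_lcm (Finset.mem_univ i)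
  have hL0 : L ≠ 0 := by
    have h1 : L ∣ ∏ i, x i := by
      rw [hL]
      exact Finset.lcm_dvd fun i _ => Finset.dvd_prod_of_mem x (Finset.mem_univ i)
    have h2 : ∏ i, x i ≠ 0 := Finset.prod_ne_zero_iff.2 fun i _ => by
      have := hx i
      omega
    exact ne_zero_of_dvd_ne_zero h2 h1
  have hmul : ∀ i, x i * (L / x i) = L := fun i => Nat.mul_div_cancel' (hdvd i)
  obtain ⟨A, hA⟩ : ∃ A : ℤ, A = ∑ i, s i * ((L / x i : ℕ) : ℤ) := ⟨_, rfl⟩
  rw [← hA]
  have hbad : ∀ p, p.Prime → ∀ i, ¬ p ^ L.factorization p ∣ x i → p ∣ L / x i := by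
    intro p hp i hi
    by_contra h
    apply hi
    have h1 : p ^ L.factorization p ∣ x i * (L / x i) := by
      rw [hmul i]
      exact Nat.ordProj_dvd L p
    have h2 : Nat.Coprime (p ^ L.factorization p) (L / x i) :=
      Nat.Coprime.pow_left _ ((Nat.Prime.coprime_iff_not_dvd hp).2 h)
    exact h2.dvd_of_dvd_mul_right h1
  have hgood : ∀ p, p.Prime → ∀ i, p ^ L.factorization p ∣ x i → ¬ p ∣ L / x i := by
    intro p hp i hi h
    have h1 : p ^ (L.factorization p + 1) ∣ L := by
      rw [pow_succ]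
      exact (mul_dvd_mul hi h).trans (dvd_of_eq (hmul i))
    exact Nat.pow_succ_factorization_not_dvd hL0 hp h1
  have hex : ∀ p ∈ L.primeFactors, ∃ i, p ^ L.factorization p ∣ x i := by
    intro p hp
    have hpp := Nat.prime_of_mem_primeFactors hp
    have hpL := Nat.dvd_of_mem_primeFactors hp
    by_contra h
    push Not at h
    have h1 : L ∣ L / p := by
      have h2 : Finset.univ.lcm x ∣ L / p := by
        refine Finset.lcm_dvd fun i _ => ?_
        obtain ⟨k, hk⟩ := hbad p hpp i (h i)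
        refine ⟨k, ?_⟩
        apply Nat.div_eq_of_eq_mul_right hpp.pos
        rw [← hmul i, hk]
        rw [← hk, hmul i, ← hmul i, hk]
        ring
      rwa [← hL] at h2
    have h3 : L / p < L := Nat.div_lt_self (Nat.pos_of_ne_zero hL0) hpp.one_lt
    have h4 : 0 < L / p := Nat.div_pos (Nat.le_of_dvd (Nat.pos_of_ne_zero hL0) hpL) hpp.pos
    exact absurd (Nat.le_of_dvd h4 h1) (not_le.2 h3)
  have htwo : ∀ p ∈ L.primeFactors, (p : ℤ) ∣ A → (p ^ L.factorization p) ^ 2 ∣ ∏ i, x i := by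
    intro p hp hpA
    have hpp := Nat.prime_of_mem_primeFactors hp
    obtain ⟨i, hi⟩ := hex p hp
    have h1 : ∃ j, j ≠ i ∧ p ^ L.factorization p ∣ x j := by
      by_contra h
      push Not at h
      have h2 : (p : ℤ) ∣ ∑ j ∈ Finset.univ.erase i, s j * ((L / x j : ℕ) : ℤ) := by
        refine Finset.dvd_sum fun j hj => ?_
        have h3 := hbad p hpp j (h j (Finset.ne_of_mem_erase hj))
        exact Dvd.dvd.mul_left (Int.natCast_dvd_natCast.2 h3) _
      have h4 : (p : ℤ) ∣ s i * ((L / x i : ℕ) : ℤ) := by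
        have h5 := Finset.add_sum_erase Finset.univ (fun j => s j * ((L / x j : ℕ) : ℤ))
          (Finset.mem_univ i)
        rw [← hA] at h5
        have h6 : s i * ((L / x i : ℕ) : ℤ) =
            A - ∑ j ∈ Finset.univ.erase i, s j * ((L / x j : ℕ) : ℤ) := by
          rw [← h5]
          ring
        rw [h6]
        exact dvd_sub hpA h2
      apply hgood p hpp i hi
      rw [← Int.natCast_dvd_natCast]
      rcases hs i with h7 | h7
      · rwa [h7, one_mul] at h4
      · rw [h7, neg_one_mul] at h4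
        exact (dvd_neg).1 h4
    obtain ⟨j, hji, hj⟩ := h1
    have h8 : x i * x j ∣ ∏ k, x k := by
      rw [← Finset.mul_prod_erase Finset.univ x (Finset.mem_univ i)]
      exact mul_dvd_mul_left _ (Finset.dvd_prod_of_mem x (Finset.mem_erase.2 ⟨hji, Finset.mem_univ j⟩))
    rw [sq]
    exact (mul_dvd_mul hi hj).trans h8
  refine ⟨∏ p ∈ L.primeFactors.filter (fun p : ℕ => ¬ (p : ℤ) ∣ A), p ^ L.factorization p,
    ∏ p ∈ L.primeFactors.filter (fun p : ℕ => (p : ℤ) ∣ A), p ^ L.factorization p, ?_, ?_, ?_, ?_, ?_⟩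
  · exact Finset.one_le_prod' fun p hp =>
      Nat.one_le_pow _ _ (Nat.prime_of_mem_primeFactors (Finset.mem_filter.1 hp).1).pos
  · exact Finset.one_le_prod' fun p hp =>
      Nat.one_le_pow _ _ (Nat.prime_of_mem_primeFactors (Finset.mem_filter.1 hp).1).pos
  · rw [mul_comm, Finset.prod_filter_mul_prod_filter_not]
    exact (Nat.prod_factorization_pow_eq_self hL0).symm
  · rw [Nat.cast_prod]
    refine IsCoprime.prod_left fun p hp => ?_
    rw [Finset.mem_filter] at hp
    have hpp := Nat.prime_of_mem_primeFactors hp.1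
    rw [Nat.cast_pow]
    refine IsCoprime.pow_left ?_
    exact (Nat.prime_iff_prime_int.1 hpp).coprime_iff_not_dvd.2 hp.2
  · have h1 : (∏ p ∈ L.primeFactors.filter (fun p : ℕ => ¬ (p : ℤ) ∣ A), p ^ L.factorization p) *
        (∏ p ∈ L.primeFactors.filter (fun p : ℕ => (p : ℤ) ∣ A), p ^ L.factorization p) ^ 2 =
        ∏ p ∈ L.primeFactors, if (p : ℤ) ∣ A then (p ^ L.factorization p) ^ 2
          else p ^ L.factorization p := by
      rw [Finset.prod_ite, Finset.prod_pow, mul_comm]
    rw [h1]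
    rw [← Int.natCast_dvd_natCast, Nat.cast_prod]
    refine Finset.prod_dvd_of_coprime ?_ ?_
    · intro p hp q hq hpq
      have hpp := Nat.prime_of_mem_primeFactors hp
      have hqq := Nat.prime_of_mem_primeFactors hq
      have h2 : Nat.Coprime p q := (Nat.coprime_primes hpp hqq).2 hpq
      show IsCoprime _ _
      rw [Nat.isCoprime_iff_coprime]
      split_ifs
      · exact Nat.Coprime.pow _ _ (Nat.Coprime.pow _ _ h2)
      · exact Nat.Coprime.pow_left _ (Nat.Coprime.pow _ _ h2)
      · exact Nat.Coprime.pow_right _ (Nat.Coprime.pow _ _ h2)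
      · exact Nat.Coprime.pow _ _ h2
    · intro p hp
      rw [Int.natCast_dvd_natCast]
      split_ifs with h
      · exact htwo p hp h
      · obtain ⟨i, hi⟩ := hex p hp
        exact hi.trans (Finset.dvd_prod_of_mem x (Finset.mem_univ i))

end Pool.Agent.SQ42
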