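import Pool.Agent.Pal.Divisor

/-! CntB: the counting sum. k = card iota.

Proof. Group the x by (l1, l2) = (l1 x, l2 x). All x i divide l1 l2 <= N^k, so a pair has at most
tau(l1 l2)^k <= (C1 N^(k eta))^k tuples (divisor bound: Pool.Agent.Pal.Divisor, card_divisors_le_rpow),
eta = eps/(2 k^2 + 1). Sum over the pairs with l1 l2^2 <= N^k: for fixed l1 there are
<= (N^k/l1)^(1/2) values l2, so sum 1/sqrt l1 over the pairs <= N^(k/2) sum_(l1 <= N^k) 1/l1 <=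
N^(k/2) (1 + k log N) <= C2 N^(k/2 + eps/2). -/

namespace Pool.Agent.SQ42

lemma cntB_harm (M : ℕ) : ∑ a ∈ Finset.Icc 1 M, (1 : ℝ) / a ≤ 1 + Real.log M := by
  have h := harmonic_le_one_add_log M
  rw [harmonic_eq_sum_Icc] at h
  push_cast at h
  simpa only [one_div] using h

lemma cntB_card {M a : ℕ} (ha : 1 ≤ a) :
    (((Finset.Icc 1 M).filter (fun b => a * b ^ 2 ≤ M)).card : ℝ) ≤
      Real.sqrt ((M : ℝ) / a) := by
  have ha0 : (0 : ℝ) < a := by exact_mod_cast ha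
  have h1 : (Finset.Icc 1 M).filter (fun b => a * b ^ 2 ≤ M) ⊆
      Finset.Icc 1 ⌊Real.sqrt ((M : ℝ) / a)⌋₊ := by
    intro b hb
    rw [Finset.mem_filter, Finset.mem_Icc] at hb
    rw [Finset.mem_Icc]
    refine ⟨hb.1.1, Nat.le_floor ?_⟩
    apply Real.le_sqrt_of_sq_le
    rw [le_div_iff₀ ha0]
    have h2 : ((a * b ^ 2 : ℕ) : ℝ) ≤ M := by exact_mod_cast hb.2
    push_cast at h2
    linarith
  have h2 := Finset.card_le_card h1
  rw [Nat.card_Icc, Nat.add_sub_cancel] at h2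
  exact (show (((Finset.Icc 1 M).filter (fun b => a * b ^ 2 ≤ M)).card : ℝ) ≤
    ((⌊Real.sqrt ((M : ℝ) / a)⌋₊ : ℕ) : ℝ) by exact_mod_cast h2).trans
      (Nat.floor_le (Real.sqrt_nonneg _))

theorem cnt_sum {ι : Type} [Fintype ι] [DecidableEq ι] (eps : ℝ) (heps : 0 < eps) :
    ∃ C : ℝ, 0 ≤ C ∧ ∀ N : ℕ, 1 ≤ N → ∀ l1 l2 : (ι → ℕ) → ℕ,
      (∀ x ∈ Fintype.piFinset (fun _ : ι => Finset.Icc 1 N), 1 ≤ l1 x ∧ 1 ≤ l2 x ∧
        l1 x * l2 x ^ 2 ≤ N ^ Fintype.card ι ∧ ∀ i, x i ∣ l1 x * l2 x) →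
      ∑ x ∈ Fintype.piFinset (fun _ : ι => Finset.Icc 1 N), 1 / Real.sqrt (l1 x)
        ≤ C * (N : ℝ) ^ ((Fintype.card ι : ℝ) / 2 + eps) := by
  classical
  obtain ⟨k, hk⟩ : ∃ k : ℕ, k = Fintype.card ι := ⟨_, rfl⟩
  obtain ⟨η, hη⟩ : ∃ η : ℝ, η = eps / (2 * (k : ℝ) ^ 2 + 1) := ⟨_, rfl⟩
  have hη0 : 0 < η := by
    rw [hη]
    positivity
  have hηk : (k : ℝ) ^ 2 * η ≤ eps / 2 := by
    rw [hη, mul_div_assoc', div_le_div_iff₀ (by positivity) (by norm_num)]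
    nlinarith [sq_nonneg (k : ℝ)]
  obtain ⟨C1, hC1, hdiv⟩ := Pool.Agent.Pal.card_divisors_le_rpow hη0
  have hC10 : 0 ≤ C1 := by linarith
  refine ⟨C1 ^ k * (1 + 2 * k / eps), by positivity, ?_⟩
  intro N hN l1 l2 hl
  rw [← hk] at hl ⊢
  obtain ⟨M, hM⟩ : ∃ M : ℕ, M = N ^ k := ⟨_, rfl⟩
  rw [← hM] at hl
  have hN1 : (1 : ℝ) ≤ N := by exact_mod_cast hN
  have hN0 : (0 : ℝ) < N := by linarith
  have hM1 : 1 ≤ M := by
    rw [hM]
    exact Nat.one_le_pow _ _ hN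
  have hM0 : (0 : ℝ) < M := by exact_mod_cast hM1
  have hMr : (M : ℝ) = (N : ℝ) ^ (k : ℝ) := by
    rw [hM]
    push_cast
    rw [Real.rpow_natCast]
  obtain ⟨S, hS⟩ : ∃ S : Finset (ι → ℕ), S = Fintype.piFinset (fun _ : ι => Finset.Icc 1 N) :=
    ⟨_, rfl⟩
  rw [← hS] at hl ⊢
  obtain ⟨D, hD⟩ : ∃ D : ℝ, D = C1 ^ k * (N : ℝ) ^ (eps / 2) := ⟨_, rfl⟩
  have hD0 : 0 ≤ D := by
    rw [hD]
    positivity
  have hfib : ∀ a b : ℕ, 1 ≤ a → 1 ≤ b → a * b ^ 2 ≤ M →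
      ((S.filter (fun x => (l1 x, l2 x) = (a, b))).card : ℝ) ≤ D := by
    intro a b ha hb hab
    have h1 : S.filter (fun x => (l1 x, l2 x) = (a, b)) ⊆
        Fintype.piFinset (fun _ : ι => (a * b).divisors) := by
      intro x hx
      rw [Finset.mem_filter] at hx
      obtain ⟨hxS, hxe⟩ := hx
      rw [Prod.mk.injEq] at hxe
      rw [Fintype.mem_piFinset]
      intro i
      rw [Nat.mem_divisors]
      refine ⟨?_, (Nat.mul_pos ha hb).ne'⟩
      have h2 := (hl x hxS).2.2.2 i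
      rwa [hxe.1, hxe.2] at h2
    have h2 := Finset.card_le_card h1
    rw [Fintype.card_piFinset, Finset.prod_const, Finset.card_univ, ← hk] at h2
    have h3 : ((a * b : ℕ) : ℝ) ≤ M := by
      exact_mod_cast (Nat.mul_le_mul_left a (Nat.le_self_pow (by norm_num) b)).trans hab
    have h4 := hdiv (a * b) (Nat.mul_pos ha hb)
    have h5 : ((a * b).divisors.card : ℝ) ≤ C1 * (M : ℝ) ^ η :=
      h4.trans (mul_le_mul_of_nonneg_left (Real.rpow_le_rpow (by positivity) h3 hη0.le) hC10)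
    calc ((S.filter (fun x => (l1 x, l2 x) = (a, b))).card : ℝ)
        ≤ ((a * b).divisors.card : ℝ) ^ k := by exact_mod_cast h2
      _ ≤ (C1 * (M : ℝ) ^ η) ^ k := pow_le_pow_left₀ (by positivity) h5 k
      _ = C1 ^ k * (N : ℝ) ^ ((k : ℝ) ^ 2 * η) := by
          rw [mul_pow, hMr, ← Real.rpow_mul hN0.le, ← Real.rpow_natCast ((N : ℝ) ^ _) k,
            ← Real.rpow_mul hN0.le]
          congr 2
          ring
      _ ≤ D := by
          rw [hD]
          exact mul_le_mul_of_nonneg_left (Real.rpow_le_rpow_of_exponent_le hN1 hηk)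
            (by positivity)
  obtain ⟨T, hT⟩ : ∃ T : Finset (ℕ × ℕ), T = (Finset.Icc 1 M ×ˢ Finset.Icc 1 M).filter
      (fun p => p.1 * p.2 ^ 2 ≤ M) := ⟨_, rfl⟩
  have hmaps : ∀ x ∈ S, (l1 x, l2 x) ∈ T := by
    intro x hx
    obtain ⟨h1, h2, h3, -⟩ := hl x hx
    rw [hT, Finset.mem_filter, Finset.mem_product, Finset.mem_Icc, Finset.mem_Icc]
    refine ⟨⟨⟨h1, ?_⟩, ⟨h2, ?_⟩⟩, h3⟩
    · exact (Nat.le_mul_of_pos_right _ (pow_pos h2 2)).trans h3
    · exact ((Nat.le_self_pow (by norm_num) _).trans (Nat.le_mul_of_pos_left _ h1)).trans h3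
  have hsq : Real.sqrt M = (N : ℝ) ^ ((k : ℝ) / 2) := by
    rw [Real.sqrt_eq_rpow, hMr, ← Real.rpow_mul hN0.le]
    congr 1
    ring
  have hlogM : 1 + Real.log M ≤ (1 + 2 * k / eps) * (N : ℝ) ^ (eps / 2) := by
    rw [hMr, Real.log_rpow hN0]
    have h1 := Real.log_le_rpow_div hN0.le (show 0 < eps / 2 by linarith)
    have h2 : (1 : ℝ) ≤ (N : ℝ) ^ (eps / 2) := Real.one_le_rpow hN1 (by linarith)
    have h3 : (k : ℝ) * Real.log N ≤ 2 * k / eps * (N : ℝ) ^ (eps / 2) := by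
      calc (k : ℝ) * Real.log N ≤ k * ((N : ℝ) ^ (eps / 2) / (eps / 2)) :=
            mul_le_mul_of_nonneg_left h1 (Nat.cast_nonneg _)
        _ = 2 * k / eps * (N : ℝ) ^ (eps / 2) := by
            field_simp
    linarith
  calc ∑ x ∈ S, 1 / Real.sqrt (l1 x)
      = ∑ p ∈ T, ∑ x ∈ S with (l1 x, l2 x) = p, 1 / Real.sqrt (l1 x) :=
        (Finset.sum_fiberwise_of_maps_to hmaps _).symm
    _ ≤ ∑ p ∈ T, D / Real.sqrt (p.1 : ℝ) := by
        apply Finset.sum_le_sum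
        rintro ⟨a, b⟩ hp
        rw [hT, Finset.mem_filter, Finset.mem_product, Finset.mem_Icc, Finset.mem_Icc] at hp
        have h1 : ∀ x ∈ S.filter (fun x => (l1 x, l2 x) = (a, b)), 1 / Real.sqrt (l1 x) =
            1 / Real.sqrt (a : ℝ) := by
          intro x hx
          have h2 := (Finset.mem_filter.1 hx).2
          rw [Prod.mk.injEq] at h2
          rw [h2.1]
        rw [Finset.sum_congr rfl h1, Finset.sum_const, nsmul_eq_mul, mul_one_div]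
        exact div_le_div_of_nonneg_right (hfib a b hp.1.1.1 hp.1.2.1 hp.2) (Real.sqrt_nonneg _)
    _ = ∑ a ∈ Finset.Icc 1 M, ∑ b ∈ (Finset.Icc 1 M).filter (fun b => a * b ^ 2 ≤ M),
          D / Real.sqrt (a : ℝ) := by
        rw [hT, Finset.sum_filter, Finset.sum_product]
        apply Finset.sum_congr rfl
        intro a _
        rw [Finset.sum_filter]
    _ ≤ ∑ a ∈ Finset.Icc 1 M, D * Real.sqrt M * (1 / (a : ℝ)) := by
        apply Finset.sum_le_sum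
        intro a ha
        have ha1 := (Finset.mem_Icc.1 ha).1
        have ha0 : (0 : ℝ) < a := by exact_mod_cast ha1
        rw [Finset.sum_const, nsmul_eq_mul]
        have h1 := cntB_card (M := M) ha1
        have h2 : 0 ≤ D / Real.sqrt (a : ℝ) := div_nonneg hD0 (Real.sqrt_nonneg _)
        refine (mul_le_mul_of_nonneg_right h1 h2).trans (le_of_eq ?_)
        rw [Real.sqrt_div hM0.le]
        have h3 : Real.sqrt (a : ℝ) * Real.sqrt (a : ℝ) = a := Real.mul_self_sqrt ha0.le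
        have h4 : Real.sqrt (a : ℝ) ≠ 0 := (Real.sqrt_pos.2 ha0).ne'
        rw [div_mul_div_comm, h3]
        ring
    _ = D * Real.sqrt M * ∑ a ∈ Finset.Icc 1 M, 1 / (a : ℝ) := by rw [Finset.mul_sum]
    _ ≤ D * Real.sqrt M * ((1 + 2 * k / eps) * (N : ℝ) ^ (eps / 2)) :=
        mul_le_mul_of_nonneg_left ((cntB_harm M).trans hlogM)
          (mul_nonneg hD0 (Real.sqrt_nonneg _))
    _ = C1 ^ k * (1 + 2 * k / eps) * (N : ℝ) ^ ((k : ℝ) / 2 + eps) := by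
        rw [hsq, hD]
        have h1 : (N : ℝ) ^ ((k : ℝ) / 2 + eps) =
            (N : ℝ) ^ (eps / 2) * (N : ℝ) ^ ((k : ℝ) / 2) * (N : ℝ) ^ (eps / 2) := by
          rw [← Real.rpow_add hN0, ← Real.rpow_add hN0]
          congr 1
          ring
        rw [h1]
        ring

end Pool.Agent.SQ42
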