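import Mathlib

/-! MP_7afa8d_nt: moments of exponential sums over square roots, definitions (helper42). -/

namespace Pool.Agent.SQ42

/-- e(x) = exp(2 pi i x). -/
noncomputable def e (x : ℝ) : ℂ := Complex.exp (2 * Real.pi * x * Complex.I)

/-- S(h,n) = sum of e(h sqrt a) over the integers a with n/2 <= a <= n. -/
noncomputable def S (h n : ℕ) : ℂ :=
  ∑ a ∈ (Finset.range (n + 1)).filter (fun a => n ≤ 2 * a), e (h * Real.sqrt a)

/-- The Fresnel type integral of e(h y - m y^2) over [al, be]. -/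
noncomputable def G (h m al be : ℝ) : ℂ := ∫ y in al..be, e (h * y - m * y ^ 2)

/-- The set of the main terms: 1 <= m <= h, 2 m sqrt A < h <= 2 m sqrt n, A = ceil(n/2). -/
noncomputable def I (h n : ℕ) : Finset ℕ :=
  (Finset.Icc 1 h).filter (fun m => 2 * (m : ℝ) * Real.sqrt ((n + 1) / 2 : ℕ) < h ∧
    (h : ℝ) ≤ 2 * m * Real.sqrt n)

theorem norm_e (x : ℝ) : ‖e x‖ = 1 := by
  unfold e
  rw [show (2 * Real.pi * x * Complex.I : ℂ) = ((2 * Real.pi * x : ℝ) : ℂ) * Complex.I by
    push_cast; ring]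
  exact Complex.norm_exp_ofReal_mul_I _

theorem e_add (x y : ℝ) : e (x + y) = e x * e y := by
  unfold e
  rw [← Complex.exp_add]
  congr 1
  push_cast
  ring

theorem e_zero : e 0 = 1 := by
  unfold e
  simp

theorem e_neg (x : ℝ) : e (-x) = (starRingEnd ℂ) (e x) := by
  unfold e
  rw [← Complex.exp_conj]
  congr 1
  simp only [map_mul, Complex.conj_ofReal, Complex.conj_I, map_ofNat]
  push_cast
  ring

theorem e_int (k : ℤ) : e k = 1 := by
  unfold e
  rw [show (2 * Real.pi * (k : ℝ) * Complex.I : ℂ) = k * (2 * Real.pi * Complex.I) by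
    push_cast; ring]
  exact Complex.exp_int_mul_two_pi_mul_I k

theorem cont_e : Continuous e := by
  unfold e
  fun_prop

theorem hasDerivAt_e (x : ℝ) : HasDerivAt e (2 * Real.pi * Complex.I * e x) x := by
  unfold e
  have h1 : HasDerivAt (fun x : ℝ => (2 * Real.pi * (x : ℂ) * Complex.I : ℂ))
      (2 * Real.pi * 1 * Complex.I) x := by
    have h0 : HasDerivAt (fun x : ℝ => (x : ℂ)) 1 x := Complex.ofRealCLM.hasDerivAt
    exact (h0.const_mul (2 * Real.pi : ℂ)).mul_const Complex.I
  have h2 := h1.cexp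
  have h3 : Complex.exp (2 * Real.pi * (x : ℂ) * Complex.I) * (2 * Real.pi * 1 * Complex.I)
      = 2 * Real.pi * Complex.I * Complex.exp (2 * Real.pi * (x : ℂ) * Complex.I) := by ring
  rw [h3] at h2
  exact h2

end Pool.Agent.SQ42
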