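import Mathlib

/-! Dyad: an interval sum is controlled by the dyadic blocks.

Proof. Let `S` be the double sum on the right and `M = S ^ (1/p)`. Every block norm of a level
`j <= L` is at most `M`. For `v <= 2^L` the range of `v` is the disjoint union over the levels
`j <= L` with bit `j` of `v` equal to `1` of one block of that level (induction from the top
level: the sum over `m < v/2^j * 2^j`), so its sum has norm at most `(L+1) M`. An interval sum is
a difference of two such sums, so its norm is at most `2 (L+1) M`. -/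

namespace Pool.Agent.SQ42

private theorem dyad_pre (a : ℕ → ℂ) (L v : ℕ) (M : ℝ) (hM0 : 0 ≤ M)
    (hM : ∀ j, j ≤ L → ∀ k, k < 2 ^ (L - j) →
      ‖∑ m ∈ Finset.Ico (k * 2 ^ j) ((k + 1) * 2 ^ j), a m‖ ≤ M)
    (hv : v ≤ 2 ^ L) (s : ℕ) (hs : s ≤ L) :
    ‖∑ m ∈ Finset.range (v / 2 ^ (L - s) * 2 ^ (L - s)), a m‖ ≤ (s + 1 : ℝ) * M := by
  induction s with
  | zero =>
    rw [Nat.sub_zero]
    have h1 : v / 2 ^ L ≤ 1 := by
      calc v / 2 ^ L ≤ 2 ^ L / 2 ^ L := Nat.div_le_div_right hv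
        _ = 1 := Nat.div_self (by positivity)
    have h2 : v / 2 ^ L = 0 ∨ v / 2 ^ L = 1 := Nat.le_one_iff_eq_zero_or_eq_one.1 h1
    rcases h2 with h2 | h2
    · rw [h2, zero_mul, Finset.range_zero, Finset.sum_empty, norm_zero]
      push_cast
      linarith
    · rw [h2]
      have h3 := hM L le_rfl 0 (by positivity)
      rw [zero_mul, zero_add, Nat.Ico_zero_eq_range] at h3
      push_cast
      linarith
  | succ s ih =>
    have ih := ih (by omega)
    obtain ⟨t, ht⟩ : ∃ t, t = L - (s + 1) := ⟨_, rfl⟩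
    have ht1 : L - s = t + 1 := by omega
    rw [ht1] at ih
    rw [← ht]
    have hdiv : v / 2 ^ (t + 1) = v / 2 ^ t / 2 := by
      rw [pow_succ, Nat.div_div_eq_div_mul]
    have hmod := Nat.div_add_mod (v / 2 ^ t) 2
    have hlt : v / 2 ^ t % 2 < 2 := Nat.mod_lt _ (by norm_num)
    have hpow : (2 : ℕ) ^ (t + 1) = 2 * 2 ^ t := by rw [pow_succ]; ring
    obtain ⟨w, hw⟩ : ∃ w, w = v / 2 ^ t := ⟨_, rfl⟩
    rw [hdiv, ← hw, hpow] at ih
    rw [← hw] at hmod hlt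
    rw [← hw]
    have h01 : w % 2 = 0 ∨ w % 2 = 1 := by omega
    rcases h01 with h0 | h0
    · have h1 : w / 2 * (2 * 2 ^ t) = w * 2 ^ t := by
        have : w = w / 2 * 2 := by omega
        calc w / 2 * (2 * 2 ^ t) = w / 2 * 2 * 2 ^ t := by ring
          _ = w * 2 ^ t := by rw [← this]
      rw [h1] at ih
      push_cast
      linarith
    · have h1 : w = w / 2 * 2 + 1 := by omega
      obtain ⟨k, hk⟩ : ∃ k, k = w / 2 * 2 := ⟨_, rfl⟩
      have h2 : w / 2 * (2 * 2 ^ t) = k * 2 ^ t := by rw [hk]; ring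
      have h3 : w * 2 ^ t = (k + 1) * 2 ^ t := by
        rw [hk]
        exact congrArg (· * 2 ^ t) h1
      have hkw : k + 1 = w := by omega
      have h4 : k < 2 ^ (L - t) := by
        have h5 : w ≤ 2 ^ (L - t) := by
          rw [hw]
          calc v / 2 ^ t ≤ 2 ^ L / 2 ^ t := Nat.div_le_div_right hv
            _ = 2 ^ (L - t) := Nat.pow_div (by omega) (by norm_num)
        omega
      have h6 := hM t (by omega) k h4
      rw [h2] at ih
      rw [h3]
      have h7 : ∑ m ∈ Finset.range ((k + 1) * 2 ^ t), a m =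
          ∑ m ∈ Finset.range (k * 2 ^ t), a m +
            ∑ m ∈ Finset.Ico (k * 2 ^ t) ((k + 1) * 2 ^ t), a m := by
        rw [Finset.sum_range_add_sum_Ico _ (Nat.mul_le_mul_right _ (by omega))]
      rw [h7]
      refine (norm_add_le _ _).trans ?_
      push_cast
      linarith

theorem dyad (a : ℕ → ℂ) (L u v p : ℕ) (hp : 1 ≤ p) (huv : u ≤ v) (hv : v ≤ 2 ^ L) :
    ‖∑ m ∈ Finset.Ico u v, a m‖ ^ p ≤ (2 * (L + 1) : ℝ) ^ p *
      ∑ j ∈ Finset.range (L + 1), ∑ k ∈ Finset.range (2 ^ (L - j)),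
        ‖∑ m ∈ Finset.Ico (k * 2 ^ j) ((k + 1) * 2 ^ j), a m‖ ^ p := by
  obtain ⟨S, hS⟩ : ∃ S : ℝ, S = ∑ j ∈ Finset.range (L + 1), ∑ k ∈ Finset.range (2 ^ (L - j)),
        ‖∑ m ∈ Finset.Ico (k * 2 ^ j) ((k + 1) * 2 ^ j), a m‖ ^ p := ⟨_, rfl⟩
  have hp0 : p ≠ 0 := by omega
  have hS0 : 0 ≤ S := by
    rw [hS]
    exact Finset.sum_nonneg fun j _ => Finset.sum_nonneg fun k _ => by positivity
  obtain ⟨M, hMd⟩ : ∃ M : ℝ, M = S ^ ((p : ℝ)⁻¹) := ⟨_, rfl⟩
  have hM0 : 0 ≤ M := by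
    rw [hMd]
    exact Real.rpow_nonneg hS0 _
  have hMp : M ^ p = S := by
    rw [hMd]
    exact Real.rpow_inv_natCast_pow hS0 hp0
  have hM : ∀ j, j ≤ L → ∀ k, k < 2 ^ (L - j) →
      ‖∑ m ∈ Finset.Ico (k * 2 ^ j) ((k + 1) * 2 ^ j), a m‖ ≤ M := by
    intro j hj k hk
    refine le_of_pow_le_pow_left₀ hp0 hM0 ?_
    rw [hMp, hS]
    calc ‖∑ m ∈ Finset.Ico (k * 2 ^ j) ((k + 1) * 2 ^ j), a m‖ ^ p
        ≤ ∑ k ∈ Finset.range (2 ^ (L - j)),
            ‖∑ m ∈ Finset.Ico (k * 2 ^ j) ((k + 1) * 2 ^ j), a m‖ ^ p :=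
          Finset.single_le_sum
            (f := fun k => ‖∑ m ∈ Finset.Ico (k * 2 ^ j) ((k + 1) * 2 ^ j), a m‖ ^ p)
            (fun _ _ => by positivity) (Finset.mem_range.2 hk)
      _ ≤ _ := Finset.single_le_sum
            (f := fun j => ∑ k ∈ Finset.range (2 ^ (L - j)),
              ‖∑ m ∈ Finset.Ico (k * 2 ^ j) ((k + 1) * 2 ^ j), a m‖ ^ p)
            (fun _ _ => Finset.sum_nonneg fun _ _ => by positivity)
            (Finset.mem_range.2 (by omega))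
  have hpre : ∀ w, w ≤ 2 ^ L → ‖∑ m ∈ Finset.range w, a m‖ ≤ (L + 1 : ℝ) * M := by
    intro w hw
    have h := dyad_pre a L w M hM0 hM hw L le_rfl
    rwa [Nat.sub_self, pow_zero, Nat.div_one, mul_one] at h
  have h1 : ‖∑ m ∈ Finset.Ico u v, a m‖ ≤ (2 * (L + 1) : ℝ) * M := by
    rw [Finset.sum_Ico_eq_sub _ huv]
    refine (norm_sub_le _ _).trans ?_
    have h2 := hpre v hv
    have h3 := hpre u (huv.trans hv)
    linarith
  rw [← hS]
  calc ‖∑ m ∈ Finset.Ico u v, a m‖ ^ p ≤ ((2 * (L + 1) : ℝ) * M) ^ p :=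
        pow_le_pow_left₀ (norm_nonneg _) h1 p
    _ = (2 * (L + 1) : ℝ) ^ p * S := by rw [mul_pow, hMp]

end Pool.Agent.SQ42
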