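import Pool.Agent.SQ42.WeylA

/-! Weyl (weyl2): incomplete quadratic Gauss sums.

Proof of weyl. N = v - u. |sum|^2 = sum_(h,h') e((h^2 - h'^2) a/b); with j = h - h' it is at most
sum_(|j| < N) |sum over an interval of h' of e(2 j h' a/b)| <= sum_(|j|<N) min(N, 1/(2 ||2 j a/b||)),
|| || the distance to the nearest integer (geometric sum; |e(t) - 1| >= 4 ||t||). The j with |j| < N
are covered by <= 2N/b + 1 blocks of b consecutive integers; in a block 2 j a takes every residue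
class mod b at most twice (gcd(a,b) = 1), so a block contributes <= 2 (N + sum_(k=1)^(b-1)
b/(2 min(k, b-k))) <= 2 (N + b (1 + log b)). Hence |sum|^2 <= 2 (2N/b + 1)(N + b (1 + log b)) <=
(1 + log b)(4 N^2/b + 6 N + 2 b) <= 7 (1 + log b)(N/sqrt b + sqrt b)^2.

Proof of weyl2. g = gcd(a, b), a = g a', b = g b', a/b = a'/b', gcd(a', b') = 1; l | b and
gcd(l, a) = 1 give gcd(l, g) = 1, so l | b' ; l <= b' <= b. Apply weyl. -/

namespace Pool.Agent.SQ42

theorem weyl2 (a : ℤ) (b l u v : ℕ) (hb : 1 ≤ b) (hl : 1 ≤ l) (hlb : l ∣ b)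
    (hla : IsCoprime (l : ℤ) a) (huv : u ≤ v) :
    ‖∑ h ∈ Finset.Ico u v, e ((h : ℝ) ^ 2 * ((a : ℝ) / b))‖ ≤
      8 * (1 + Real.log b) * (((v : ℝ) - u) / Real.sqrt l + Real.sqrt b) := by
  obtain ⟨g, hg⟩ : ∃ g : ℕ, g = Int.gcd a b := ⟨_, rfl⟩
  have hg0 : 0 < g := by
    rw [hg]
    exact Int.gcd_pos_of_ne_zero_right _ (by exact_mod_cast (by omega : b ≠ 0))
  have hga : (g : ℤ) ∣ a := by rw [hg]; exact Int.gcd_dvd_left _ _
  have hgb : (g : ℤ) ∣ (b : ℤ) := by rw [hg]; exact Int.gcd_dvd_right _ _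
  have hgb' : g ∣ b := Int.natCast_dvd_natCast.1 hgb
  obtain ⟨a', ha'⟩ := hga
  obtain ⟨b', hb'⟩ := hgb'
  have hb'1 : 1 ≤ b' := by
    rcases Nat.eq_zero_or_pos b' with h | h
    · rw [h, mul_zero] at hb'; omega
    · exact h
  have hcop : IsCoprime a' (b' : ℤ) := by
    rw [Int.isCoprime_iff_gcd_eq_one]
    have h1 : Int.gcd a b = g * Int.gcd a' b' := by
      rw [ha', hb']
      push_cast
      rw [Int.gcd_mul_left]
      simp
    rw [← hg] at h1
    have h2 : g * 1 = g * Int.gcd a' b' := by rw [mul_one]; exact h1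
    exact (Nat.eq_of_mul_eq_mul_left hg0 h2).symm
  have hlb' : l ∣ b' := by
    have h1 : IsCoprime (l : ℤ) (g : ℤ) := by
      rw [ha'] at hla
      exact IsCoprime.of_mul_right_left hla
    have h2 : Nat.Coprime l g := Nat.isCoprime_iff_coprime.1 h1
    rw [hb'] at hlb
    exact h2.dvd_of_dvd_mul_left hlb
  have hle1 : l ≤ b' := Nat.le_of_dvd (by omega) hlb'
  have hle2 : b' ≤ b := by
    rw [hb']
    exact Nat.le_mul_of_pos_left _ hg0
  have hfrac : ((a : ℝ) / b) = (a' : ℝ) / b' := by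
    rw [ha', hb']
    push_cast
    have hg' : (g : ℝ) ≠ 0 := by exact_mod_cast hg0.ne'
    have hb'' : (b' : ℝ) ≠ 0 := by exact_mod_cast (by omega : b' ≠ 0)
    field_simp
  have h := weyl a' b' u v hb'1 hcop huv
  rw [hfrac]
  refine h.trans ?_
  have hl0 : (0 : ℝ) < l := by exact_mod_cast hl
  have hb0 : (0 : ℝ) < b' := by exact_mod_cast hb'1
  have e1 : (l : ℝ) ≤ b' := by exact_mod_cast hle1
  have e2 : (b' : ℝ) ≤ b := by exact_mod_cast hle2
  have hvu : (0 : ℝ) ≤ (v : ℝ) - u := by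
    have : (u : ℝ) ≤ v := by exact_mod_cast huv
    linarith
  have l1 : Real.log b' ≤ Real.log b := Real.log_le_log hb0 e2
  have l0 : 0 ≤ Real.log b' := Real.log_nonneg (by exact_mod_cast hb'1)
  have s1 : Real.sqrt b' ≤ Real.sqrt b := Real.sqrt_le_sqrt e2
  have s2 : ((v : ℝ) - u) / Real.sqrt b' ≤ ((v : ℝ) - u) / Real.sqrt l :=
    div_le_div_of_nonneg_left hvu (Real.sqrt_pos.2 hl0) (Real.sqrt_le_sqrt e1)
  have s0 : 0 ≤ ((v : ℝ) - u) / Real.sqrt b' := div_nonneg hvu (Real.sqrt_nonneg _)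
  have t0 : 0 ≤ Real.sqrt (b' : ℝ) := Real.sqrt_nonneg _
  exact mul_le_mul (by linarith) (by linarith) (by linarith) (by linarith)

end Pool.Agent.SQ42
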