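import Pool.Agent.SQ42.Mom
import Pool.Agent.SQ42.Weyl
import Pool.Agent.SQ42.CntA
import Pool.Agent.SQ42.CntB

/-! Expo: the sum over all tuples.

Proof. th x = A/(4 L), L = lcm of the x i, A = sum sg i (L/x i) (field arithmetic, x i | L). cnt_split
gives l1, l2 with L = l1 l2, gcd(l1, A) = 1, l1 l2^2 | prod x i <= N^(2R); weyl2 with b = 4 L (<= 4 N^(2R)),
l = l1: |sum_h| <= 8 (1 + log(4 N^(2R))) ((v-u)/sqrt l1 + 2 N^R). Sum over x: cnt_sum (card = 2 R,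
eps/2) and the N^(2R) tuples; 1 + log(4 N^(2R)) <= C N^(eps/2). -/

namespace Pool.Agent.SQ42

private theorem expo_th {R : ℕ} (x : Fin R ⊕ Fin R → ℕ) (hx : ∀ i, 1 ≤ x i) :
    th x = ((∑ i, (sg i : ℤ) * ((Finset.univ.lcm x / x i : ℕ) : ℤ) : ℤ) : ℝ) /
      ((4 * Finset.univ.lcm x : ℕ) : ℝ) := by
  have hL : Finset.univ.lcm x ≠ 0 := by
    rw [Ne, Finset.lcm_eq_zero_iff]
    rintro ⟨i, _, hi⟩
    have := hx i
    omega
  have hL' : ((Finset.univ.lcm x : ℕ) : ℝ) ≠ 0 := by exact_mod_cast hL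
  unfold th
  rw [Int.cast_sum, Finset.sum_div]
  refine Finset.sum_congr rfl fun i _ => ?_
  have hd : x i ∣ Finset.univ.lcm x := Finset.dvd_lcm (Finset.mem_univ i)
  obtain ⟨c, hc⟩ := hd
  have hxi : (x i : ℝ) ≠ 0 := by
    have := hx i
    exact_mod_cast (by omega : x i ≠ 0)
  have hc0 : (c : ℝ) ≠ 0 := by
    intro h
    have h1 : c = 0 := by exact_mod_cast h
    rw [h1, mul_zero] at hc
    exact hL hc
  have hdiv : Finset.univ.lcm x / x i = c := by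
    rw [hc]
    exact Nat.mul_div_cancel_left c (hx i)
  rw [hdiv]
  have hLc : ((Finset.univ.lcm x : ℕ) : ℝ) = x i * c := by rw [hc]; push_cast; rfl
  push_cast
  rw [hLc]
  field_simp

private theorem expo_one {R : ℕ} (N u v : ℕ) (hN : 1 ≤ N) (huv : u ≤ v)
    (x : Fin R ⊕ Fin R → ℕ) (hx : ∀ i, 1 ≤ x i ∧ x i ≤ N) (l1 l2 : ℕ) (h1 : 1 ≤ l1) (h2 : 1 ≤ l2)
    (hL : Finset.univ.lcm x = l1 * l2)
    (hc : IsCoprime (l1 : ℤ) (∑ i, sg i * ((Finset.univ.lcm x / x i : ℕ) : ℤ)))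
    (hp : l1 * l2 ^ 2 ≤ N ^ (2 * R)) :
    ‖∑ h ∈ Finset.Ico u v, e ((h : ℝ) ^ 2 * th x)‖ ≤
      8 * (1 + Real.log (4 * (N : ℝ) ^ (2 * R))) *
        (((v : ℝ) - u) / Real.sqrt l1 + 2 * (N : ℝ) ^ R) := by
  have hLpos : 1 ≤ Finset.univ.lcm x := by
    rw [hL]
    exact Nat.mul_pos h1 h2
  have hLle : Finset.univ.lcm x ≤ N ^ (2 * R) := by
    rw [hL]
    refine le_trans ?_ hp
    exact Nat.mul_le_mul_left _ (by nlinarith)
  have hw := weyl2 (∑ i, sg i * ((Finset.univ.lcm x / x i : ℕ) : ℤ)) (4 * Finset.univ.lcm x) l1 u v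
    (by omega) h1 (Dvd.dvd.mul_left (by rw [hL]; exact Dvd.intro _ rfl) _) hc huv
  rw [expo_th x fun i => (hx i).1]
  refine hw.trans ?_
  have hL4 : (((4 * Finset.univ.lcm x : ℕ) : ℝ)) ≤ 4 * (N : ℝ) ^ (2 * R) := by
    push_cast
    have : ((Finset.univ.lcm x : ℕ) : ℝ) ≤ (N : ℝ) ^ (2 * R) := by exact_mod_cast hLle
    linarith
  have hL1 : (1 : ℝ) ≤ ((4 * Finset.univ.lcm x : ℕ) : ℝ) := by
    exact_mod_cast (by omega : 1 ≤ 4 * Finset.univ.lcm x)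
  have hlog : Real.log ((4 * Finset.univ.lcm x : ℕ) : ℝ) ≤ Real.log (4 * (N : ℝ) ^ (2 * R)) :=
    Real.log_le_log (by linarith) hL4
  have hlog0 : 0 ≤ Real.log ((4 * Finset.univ.lcm x : ℕ) : ℝ) := Real.log_nonneg hL1
  have hsq : Real.sqrt ((4 * Finset.univ.lcm x : ℕ) : ℝ) ≤ 2 * (N : ℝ) ^ R := by
    rw [Real.sqrt_le_left (by positivity)]
    refine hL4.trans (le_of_eq ?_)
    ring
  have hvu : (0 : ℝ) ≤ (v : ℝ) - u := by
    have : (u : ℝ) ≤ v := by exact_mod_cast huv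
    linarith
  have hq : 0 ≤ ((v : ℝ) - u) / Real.sqrt l1 := div_nonneg hvu (Real.sqrt_nonneg _)
  have hs0 : 0 ≤ Real.sqrt ((4 * Finset.univ.lcm x : ℕ) : ℝ) := Real.sqrt_nonneg _
  exact mul_le_mul (by linarith) (by linarith) (by linarith) (by linarith)

theorem expo (R : ℕ) (hR : 1 ≤ R) (eps : ℝ) (heps : 0 < eps) :
    ∃ C : ℝ, 0 ≤ C ∧ ∀ N u v : ℕ, 1 ≤ N → u ≤ v →
      ∑ x ∈ Fintype.piFinset (fun _ : Fin R ⊕ Fin R => Finset.Icc 1 N),
          ‖∑ h ∈ Finset.Ico u v, e ((h : ℝ) ^ 2 * th x)‖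
        ≤ C * (N : ℝ) ^ eps * (((v : ℝ) - u) * (N : ℝ) ^ R + (N : ℝ) ^ (3 * R)) := by
  classical
  have _ := hR
  obtain ⟨C1, hC1, hcs⟩ := cnt_sum (ι := Fin R ⊕ Fin R) (eps / 2) (by linarith)
  have hcard : Fintype.card (Fin R ⊕ Fin R) = 2 * R := by
    rw [Fintype.card_sum, Fintype.card_fin]
    ring
  have hlog4 : 0 ≤ Real.log 4 := Real.log_nonneg (by norm_num)
  set C2 : ℝ := 1 + Real.log 4 + 2 * R / (eps / 2) with hC2
  have hC20 : 0 ≤ C2 := by positivity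
  refine ⟨8 * C2 * (C1 + 2), by positivity, fun N u v hN huv => ?_⟩
  have hN1 : (1 : ℝ) ≤ N := by exact_mod_cast hN
  have hN0 : (0 : ℝ) < N := by linarith
  have hNe : (1 : ℝ) ≤ (N : ℝ) ^ (eps / 2) := Real.one_le_rpow hN1 (by linarith)
  have hlog : 1 + Real.log (4 * (N : ℝ) ^ (2 * R)) ≤ C2 * (N : ℝ) ^ (eps / 2) := by
    rw [Real.log_mul (by norm_num) (by positivity), Real.log_pow]
    have h1 : Real.log N ≤ (N : ℝ) ^ (eps / 2) / (eps / 2) :=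
      Real.log_le_rpow_div hN0.le (by linarith)
    have h2 : ((2 * R : ℕ) : ℝ) * Real.log N ≤
        ((2 * R : ℕ) : ℝ) * ((N : ℝ) ^ (eps / 2) / (eps / 2)) :=
      mul_le_mul_of_nonneg_left h1 (Nat.cast_nonneg _)
    have h3 : (1 + Real.log 4) ≤ (1 + Real.log 4) * (N : ℝ) ^ (eps / 2) := by nlinarith
    have h4 : C2 * (N : ℝ) ^ (eps / 2) = (1 + Real.log 4) * (N : ℝ) ^ (eps / 2) +
        ((2 * R : ℕ) : ℝ) * ((N : ℝ) ^ (eps / 2) / (eps / 2)) := by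
      rw [hC2]
      push_cast
      ring
    rw [h4]
    linarith
  have hvu : (0 : ℝ) ≤ (v : ℝ) - u := by
    have : (u : ℝ) ≤ v := by exact_mod_cast huv
    linarith
  have hmem : ∀ x ∈ Fintype.piFinset (fun _ : Fin R ⊕ Fin R => Finset.Icc 1 N),
      ∀ i, 1 ≤ x i ∧ x i ≤ N := by
    intro x hx i
    rw [Fintype.mem_piFinset] at hx
    exact Finset.mem_Icc.1 (hx i)
  have key : ∀ x ∈ Fintype.piFinset (fun _ : Fin R ⊕ Fin R => Finset.Icc 1 N),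
      ∃ l1 l2 : ℕ, 1 ≤ l1 ∧ 1 ≤ l2 ∧ Finset.univ.lcm x = l1 * l2 ∧
        IsCoprime (l1 : ℤ) (∑ i, sg i * ((Finset.univ.lcm x / x i : ℕ) : ℤ)) ∧
        l1 * l2 ^ 2 ≤ N ^ (2 * R) := by
    intro x hx
    have hx1 := hmem x hx
    obtain ⟨l1, l2, a1, a2, a3, a4, a5⟩ := cnt_split x (fun i => (hx1 i).1) sg (by
      rintro (i | i)
      · left; rfl
      · right; rfl)
    refine ⟨l1, l2, a1, a2, a3, a4, ?_⟩
    refine (Nat.le_of_dvd (Finset.prod_pos fun i _ => (hx1 i).1) a5).trans ?_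
    calc ∏ i, x i ≤ ∏ _i : Fin R ⊕ Fin R, N := Finset.prod_le_prod' fun i _ => (hx1 i).2
      _ = N ^ (2 * R) := by rw [Finset.prod_const, Finset.card_univ, hcard]
  choose! l1 l2 b1 b2 b3 b4 b5 using key
  have hsum := hcs N hN l1 l2 (by
    intro x hx
    refine ⟨b1 x hx, b2 x hx, ?_, fun i => ?_⟩
    · rw [hcard]
      exact b5 x hx
    · rw [← b3 x hx]
      exact Finset.dvd_lcm (Finset.mem_univ i))
  rw [hcard] at hsum
  have hexp : (N : ℝ) ^ (((2 * R : ℕ) : ℝ) / 2 + eps / 2) = (N : ℝ) ^ R * (N : ℝ) ^ (eps / 2) := by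
    rw [Real.rpow_add hN0]
    congr 1
    rw [← Real.rpow_natCast]
    congr 1
    push_cast
    ring
  rw [hexp] at hsum
  have hcardP : ((Fintype.piFinset (fun _ : Fin R ⊕ Fin R => Finset.Icc 1 N)).card : ℝ) =
      (N : ℝ) ^ (2 * R) := by
    rw [Fintype.card_piFinset]
    simp [hcard]
  have hee : (N : ℝ) ^ eps = (N : ℝ) ^ (eps / 2) * (N : ℝ) ^ (eps / 2) := by
    rw [← Real.rpow_add hN0]
    congr 1
    ring
  calc ∑ x ∈ Fintype.piFinset (fun _ : Fin R ⊕ Fin R => Finset.Icc 1 N),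
          ‖∑ h ∈ Finset.Ico u v, e ((h : ℝ) ^ 2 * th x)‖
      ≤ ∑ x ∈ Fintype.piFinset (fun _ : Fin R ⊕ Fin R => Finset.Icc 1 N),
          8 * (C2 * (N : ℝ) ^ (eps / 2)) *
            (((v : ℝ) - u) * (1 / Real.sqrt (l1 x)) + 2 * (N : ℝ) ^ R) := by
        refine Finset.sum_le_sum fun x hx => ?_
        refine (expo_one N u v hN huv x (hmem x hx) (l1 x) (l2 x) (b1 x hx) (b2 x hx) (b3 x hx)
          (b4 x hx) (b5 x hx)).trans ?_
        rw [mul_one_div]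
        refine mul_le_mul_of_nonneg_right (by linarith) ?_
        have := div_nonneg hvu (Real.sqrt_nonneg ((l1 x : ℕ) : ℝ))
        positivity
    _ = 8 * (C2 * (N : ℝ) ^ (eps / 2)) * (((v : ℝ) - u) *
          (∑ x ∈ Fintype.piFinset (fun _ : Fin R ⊕ Fin R => Finset.Icc 1 N),
            1 / Real.sqrt (l1 x)) + 2 * (N : ℝ) ^ R * (N : ℝ) ^ (2 * R)) := by
        rw [← Finset.mul_sum, Finset.sum_add_distrib, ← Finset.mul_sum, Finset.sum_const,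
          nsmul_eq_mul, hcardP]
        ring
    _ ≤ 8 * (C2 * (N : ℝ) ^ (eps / 2)) * (((v : ℝ) - u) *
          (C1 * ((N : ℝ) ^ R * (N : ℝ) ^ (eps / 2))) + 2 * (N : ℝ) ^ R * (N : ℝ) ^ (2 * R)) := by
        refine mul_le_mul_of_nonneg_left ?_ (by positivity)
        have := mul_le_mul_of_nonneg_left hsum hvu
        linarith
    _ ≤ 8 * C2 * (C1 + 2) * (N : ℝ) ^ eps *
          (((v : ℝ) - u) * (N : ℝ) ^ R + (N : ℝ) ^ (3 * R)) := by
        set E : ℝ := (N : ℝ) ^ (eps / 2) with hE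
        set A : ℝ := ((v : ℝ) - u) * (N : ℝ) ^ R with hA
        set B : ℝ := (N : ℝ) ^ (3 * R) with hB
        have hA0 : 0 ≤ A := by positivity
        have hB0 : 0 ≤ B := by positivity
        have hB1 : (N : ℝ) ^ R * (N : ℝ) ^ (2 * R) = B := by
          rw [hB, ← pow_add]
          congr 1
          ring
        rw [hee]
        have e1 : 8 * (C2 * E) * (((v : ℝ) - u) * (C1 * ((N : ℝ) ^ R * E)) +
            2 * (N : ℝ) ^ R * (N : ℝ) ^ (2 * R)) = 8 * C2 * E * (C1 * A * E + 2 * B) := by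
          rw [← hB1, hA]
          ring
        rw [e1]
        have e2 : C1 * A * E + 2 * B ≤ (C1 + 2) * E * (A + B) := by
          have f1 : 0 ≤ C1 * E * B := by positivity
          have f2 : 2 * B ≤ 2 * E * B := by nlinarith
          have f3 : 0 ≤ 2 * E * A := by positivity
          nlinarith
        calc 8 * C2 * E * (C1 * A * E + 2 * B) ≤ 8 * C2 * E * ((C1 + 2) * E * (A + B)) :=
              mul_le_mul_of_nonneg_left e2 (by positivity)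
          _ = 8 * C2 * (C1 + 2) * (E * E) * (A + B) := by ring

end Pool.Agent.SQ42
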