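import Pool.Agent.SQ42.FresAS66

/-! FresA: the Fresnel integral Phi(X) = int_0^X e(-u^2) du converges with error C/(1+X).

Proof. For 0 < X <= Y: e(-u^2) = (d/du e(-u^2)) / (-4 pi i u); integrate by parts with
1/(-4 pi i u): |int_X^Y e(-u^2) du| <= (1/(4 pi)) (1/X + 1/Y + int_X^Y u^(-2) du) = 1/(2 pi X)
<= 1/X. Hence Phi is Cauchy at infinity, K0 = limit, |Phi(X) - K0| <= 1/X for X > 0; for X <= 1
use |Phi(X) - K0| <= |Phi(X) - Phi(1)| + |Phi(1) - K0| <= 2. So C = 4 works. -/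

namespace Pool.Agent.SQ42

open MeasureTheory

theorem fres_tail (X Y : ℝ) (hX : 0 < X) (hXY : X ≤ Y) :
    ‖∫ u in X..Y, e (-u ^ 2)‖ ≤ 1 / X :=
  S66.fres_tail X Y hX hXY

theorem fres_lim : ∃ K0 : ℂ, ∃ C : ℝ, 0 ≤ C ∧ ∀ X : ℝ, 0 ≤ X →
    ‖(∫ u in (0:ℝ)..X, e (-u ^ 2)) - K0‖ ≤ C / (1 + X) :=
  S66.fres_lim

end Pool.Agent.SQ42
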