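import Pool.Agent.SQ42.Def

/-! FresA (shadow of helper16): the Fresnel integral. -/

set_option autoImplicit false

namespace Pool.Agent.SQ42.S16

open MeasureTheory

theorem hasDerivAt_FA16 (y : ℝ) (hy : 0 < y) :
    HasDerivAt (fun y : ℝ => e (-y ^ 2) / (-(4 * Real.pi * Complex.I) * (y : ℂ)))
      (e (-y ^ 2) + e (-y ^ 2) / (4 * Real.pi * Complex.I * (y : ℂ) ^ 2)) y := by
  have hph : HasDerivAt (fun y : ℝ => -y ^ 2) (-(2 * y)) y := by
    have h1 := (hasDerivAt_pow 2 y).const_mul (-1)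
    have h2 : (fun y : ℝ => -y ^ 2) = fun y : ℝ => -1 * y ^ 2 := by
      funext y
      ring
    rw [h2]
    exact h1.congr_deriv (by push_cast; ring)
  have he : HasDerivAt (fun y : ℝ => e (-y ^ 2))
      ((-(2 * y)) • (2 * Real.pi * Complex.I * e (-y ^ 2))) y :=
    HasDerivAt.scomp (g₁ := e) y (hasDerivAt_e (-y ^ 2)) hph
  have hd : HasDerivAt (fun y : ℝ => (-(4 * Real.pi * Complex.I) * (y : ℂ)))
      (-(4 * Real.pi * Complex.I) * ((1 : ℝ) : ℂ)) y :=
    (hasDerivAt_id y).ofReal_comp.const_mul _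
  have hyC : (y : ℂ) ≠ 0 := by exact_mod_cast hy.ne'
  have hpi : (Real.pi : ℂ) ≠ 0 := by exact_mod_cast Real.pi_ne_zero
  have hne : (-(4 * Real.pi * Complex.I) * (y : ℂ)) ≠ 0 :=
    mul_ne_zero (neg_ne_zero.2 (mul_ne_zero (mul_ne_zero (by norm_num) hpi) Complex.I_ne_zero)) hyC
  refine (he.div hd hne).congr_deriv ?_
  rw [Complex.real_smul]
  generalize e (-y ^ 2) = E at *
  push_cast
  generalize (y : ℂ) = Q at *
  have hI := Complex.I_ne_zero
  field_simp
  ring_nf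

theorem fres_tail (X Y : ℝ) (hX : 0 < X) (hXY : X ≤ Y) :
    ‖∫ u in X..Y, e (-u ^ 2)‖ ≤ 1 / X := by
  have hq : ∀ y ∈ Set.uIcc X Y, 0 < y := by
    intro y hy
    rw [Set.uIcc_of_le hXY] at hy
    exact hX.trans_le hy.1
  have hpi := Real.pi_pos
  have hpiC : (Real.pi : ℂ) ≠ 0 := by exact_mod_cast Real.pi_ne_zero
  have hce : Continuous fun y : ℝ => e (-y ^ 2) := cont_e.comp (by fun_prop)
  have hc2 : ContinuousOn (fun y : ℝ => e (-y ^ 2) /
      (4 * Real.pi * Complex.I * (y : ℂ) ^ 2)) (Set.uIcc X Y) := by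
    refine ContinuousOn.div hce.continuousOn
      (continuous_const.mul (Complex.continuous_ofReal.pow 2)).continuousOn ?_
    intro y hy
    have hqC : (y : ℂ) ≠ 0 := by exact_mod_cast (hq y hy).ne'
    exact mul_ne_zero (mul_ne_zero (mul_ne_zero (by norm_num) hpiC) Complex.I_ne_zero)
      (pow_ne_zero 2 hqC)
  have hi1 : IntervalIntegrable (fun y : ℝ => e (-y ^ 2)) volume X Y :=
    hce.intervalIntegrable _ _
  have hi2 : IntervalIntegrable (fun y : ℝ => e (-y ^ 2) /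
      (4 * Real.pi * Complex.I * (y : ℂ) ^ 2)) volume X Y :=
    hc2.intervalIntegrable
  have hftc := intervalIntegral.integral_eq_sub_of_hasDerivAt
    (fun y hy => hasDerivAt_FA16 y (hq y hy)) (hi1.add hi2)
  rw [intervalIntegral.integral_add hi1 hi2] at hftc
  have hG : (∫ u in X..Y, e (-u ^ 2)) =
      (e (-Y ^ 2) / (-(4 * Real.pi * Complex.I) * (Y : ℂ)) -
        e (-X ^ 2) / (-(4 * Real.pi * Complex.I) * (X : ℂ))) -
      ∫ y in X..Y, e (-y ^ 2) / (4 * Real.pi * Complex.I * (y : ℂ) ^ 2) := by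
    rw [← hftc]
    ring
  have hY : 0 < Y := hX.trans_le hXY
  have hn1 : ∀ y : ℝ, 0 < y → ‖e (-y ^ 2) / (-(4 * Real.pi * Complex.I) * (y : ℂ))‖ =
      1 / (4 * Real.pi * y) := by
    intro y hy
    rw [norm_div, norm_e, norm_mul, norm_neg, norm_mul, norm_mul, Complex.norm_I,
      Complex.norm_real, Complex.norm_real, Real.norm_of_nonneg hpi.le, Real.norm_of_nonneg hy.le,
      Complex.norm_ofNat]
    ring
  have hn2 : ∀ y : ℝ, 0 < y → ‖e (-y ^ 2) / (4 * Real.pi * Complex.I * (y : ℂ) ^ 2)‖ =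
      1 / (4 * Real.pi * y ^ 2) := by
    intro y hy
    rw [norm_div, norm_e, norm_mul, norm_mul, norm_mul, norm_pow, Complex.norm_I,
      Complex.norm_real, Complex.norm_real, Real.norm_of_nonneg hpi.le,
      Real.norm_of_nonneg hy.le, Complex.norm_ofNat]
    ring
  have hR : ∀ y ∈ Set.uIcc X Y, HasDerivAt (fun y : ℝ => -(1 / (4 * Real.pi * y)))
      (1 / (4 * Real.pi * y ^ 2)) y := by
    intro y hy
    have hqy := hq y hy
    have h3 : HasDerivAt (fun y : ℝ => 4 * Real.pi * y) (4 * Real.pi * 1) y :=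
      (hasDerivAt_id y).const_mul (4 * Real.pi)
    have h5 := (h3.inv (by positivity)).neg
    have h6 : (fun y : ℝ => -(1 / (4 * Real.pi * y))) =
        fun y : ℝ => -(4 * Real.pi * y)⁻¹ := by
      funext y
      rw [one_div]
    rw [h6]
    refine h5.congr_deriv ?_
    field_simp
  have hcR : ContinuousOn (fun y : ℝ => 1 / (4 * Real.pi * y ^ 2)) (Set.uIcc X Y) := by
    refine ContinuousOn.div continuousOn_const (by fun_prop) ?_
    intro y hy
    have hqy := hq y hy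
    positivity
  have hRi := intervalIntegral.integral_eq_sub_of_hasDerivAt hR hcR.intervalIntegrable
  have hb : ‖∫ y in X..Y, e (-y ^ 2) / (4 * Real.pi * Complex.I * (y : ℂ) ^ 2)‖ ≤
      1 / (4 * Real.pi * X) - 1 / (4 * Real.pi * Y) := by
    have h7 := intervalIntegral.norm_integral_le_of_norm_le (μ := volume) hXY
      (f := fun y : ℝ => e (-y ^ 2) / (4 * Real.pi * Complex.I * (y : ℂ) ^ 2))
      (g := fun y : ℝ => 1 / (4 * Real.pi * y ^ 2))
      (Filter.Eventually.of_forall fun y hy =>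
        (hn2 y (hq y (by rw [Set.uIcc_of_le hXY]; exact Set.Ioc_subset_Icc_self hy))).le)
      hcR.intervalIntegrable
    rw [hRi] at h7
    linarith
  rw [hG]
  have h8 := norm_sub_le (e (-Y ^ 2) / (-(4 * Real.pi * Complex.I) * (Y : ℂ)) -
        e (-X ^ 2) / (-(4 * Real.pi * Complex.I) * (X : ℂ)))
      (∫ y in X..Y, e (-y ^ 2) / (4 * Real.pi * Complex.I * (y : ℂ) ^ 2))
  have h9 := norm_sub_le (e (-Y ^ 2) / (-(4 * Real.pi * Complex.I) * (Y : ℂ)))
        (e (-X ^ 2) / (-(4 * Real.pi * Complex.I) * (X : ℂ)))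
  rw [hn1 Y hY, hn1 X hX] at h9
  have h10 : 2 * (1 / (4 * Real.pi * X)) ≤ 1 / X := by
    have h11 : 2 * (1 / (4 * Real.pi * X)) = 1 / (2 * Real.pi * X) := by
      field_simp
      norm_num
    rw [h11]
    apply one_div_le_one_div_of_le hX
    nlinarith [Real.pi_gt_three]
  linarith

theorem fres_lim : ∃ K0 : ℂ, ∃ C : ℝ, 0 ≤ C ∧ ∀ X : ℝ, 0 ≤ X →
    ‖(∫ u in (0:ℝ)..X, e (-u ^ 2)) - K0‖ ≤ C / (1 + X) := by
  have hce : Continuous fun y : ℝ => e (-y ^ 2) := cont_e.comp (by fun_prop)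
  obtain ⟨Φ, hΦ⟩ : ∃ Φ : ℝ → ℂ, Φ = fun X => ∫ u in (0:ℝ)..X, e (-u ^ 2) := ⟨_, rfl⟩
  have hdiff : ∀ X Y : ℝ, Φ Y - Φ X = ∫ u in X..Y, e (-u ^ 2) := by
    intro X Y
    rw [hΦ]
    exact intervalIntegral.integral_interval_sub_left (hce.intervalIntegrable _ _)
      (hce.intervalIntegrable _ _)
  have htail : ∀ X Y : ℝ, 0 < X → X ≤ Y → ‖Φ Y - Φ X‖ ≤ 1 / X := by
    intro X Y hX hXY
    rw [hdiff]
    exact fres_tail X Y hX hXY
  have hcau : CauchySeq fun n : ℕ => Φ (n + 1) := by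
    refine cauchySeq_of_le_tendsto_0 (fun n : ℕ => 2 / ((n : ℝ) + 1)) ?_ ?_
    · intro n m N hn hm
      have h1 : ∀ k : ℕ, N ≤ k → ‖Φ ((k : ℝ) + 1) - Φ ((N : ℝ) + 1)‖ ≤ 1 / ((N : ℝ) + 1) := by
        intro k hk
        refine htail _ _ (by positivity) ?_
        have : (N : ℝ) ≤ k := by exact_mod_cast hk
        linarith
      rw [dist_eq_norm]
      have h2 := h1 n hn
      have h3 := h1 m hm
      have h4 : Φ ((n : ℝ) + 1) - Φ ((m : ℝ) + 1) = (Φ ((n : ℝ) + 1) - Φ ((N : ℝ) + 1)) -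
          (Φ ((m : ℝ) + 1) - Φ ((N : ℝ) + 1)) := by ring
      rw [h4]
      have h5 := norm_sub_le (Φ ((n : ℝ) + 1) - Φ ((N : ℝ) + 1))
          (Φ ((m : ℝ) + 1) - Φ ((N : ℝ) + 1))
      have h6 : 2 / ((N : ℝ) + 1) = 1 / ((N : ℝ) + 1) + 1 / ((N : ℝ) + 1) := by ring
      rw [h6]
      linarith
    · have h1 := (tendsto_one_div_add_atTop_nhds_zero_nat (𝕜 := ℝ)).const_mul 2
      rw [mul_zero] at h1
      refine h1.congr fun n => ?_
      ring
  obtain ⟨K0, hK0⟩ := cauchySeq_tendsto_of_complete hcau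
  have hlim : ∀ X : ℝ, 0 < X → ‖Φ X - K0‖ ≤ 1 / X := by
    intro X hX
    have h1 : Filter.Tendsto (fun n : ℕ => ‖Φ X - Φ ((n : ℝ) + 1)‖) Filter.atTop
        (nhds ‖Φ X - K0‖) := (tendsto_const_nhds.sub hK0).norm
    refine le_of_tendsto h1 ?_
    filter_upwards [Filter.eventually_ge_atTop ⌈X⌉₊] with n hn
    rw [norm_sub_rev]
    refine htail _ _ hX ?_
    have h2 : X ≤ n := (Nat.le_ceil X).trans (by exact_mod_cast hn)
    linarith
  refine ⟨K0, 4, by norm_num, fun X hX => ?_⟩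
  have hgoal : ‖Φ X - K0‖ ≤ 4 / (1 + X) := by
    rcases le_total X 1 with h | h
    · have h1 : ‖Φ 1 - Φ X‖ ≤ 1 := by
        rw [hdiff]
        have h2 := intervalIntegral.norm_integral_le_of_norm_le_const (a := X) (b := 1)
          (C := 1) (f := fun u : ℝ => e (-u ^ 2)) (fun u _ => (norm_e _).le)
        rw [abs_of_nonneg (by linarith)] at h2
        linarith
      have h3 := hlim 1 one_pos
      have h4 : Φ X - K0 = (Φ 1 - K0) - (Φ 1 - Φ X) := by ring
      rw [h4]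
      have h5 := norm_sub_le (Φ 1 - K0) (Φ 1 - Φ X)
      have h6 : (2 : ℝ) ≤ 4 / (1 + X) := by
        rw [le_div_iff₀ (by linarith)]
        linarith
      linarith
    · refine (hlim X (by linarith)).trans ?_
      rw [div_le_div_iff₀ (by linarith) (by linarith)]
      linarith
  rw [hΦ] at hgoal
  exact hgoal

end Pool.Agent.SQ42.S16
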