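import Pool.Agent.SQ42.Def

/-! FresAS66 (helper66): `fres_tail` and `fres_lim` of FresA. -/

set_option autoImplicit false

namespace Pool.Agent.SQ42.S66

open MeasureTheory Filter Topology

theorem hasDeriv_v (x : ℝ) : HasDerivAt (fun u : ℝ => e (-u ^ 2))
    (2 * Real.pi * Complex.I * e (-x ^ 2) * (-2 * x : ℝ)) x := by
  have h1 : HasDerivAt (fun u : ℝ => -u ^ 2) (-2 * x) x := by
    have := (hasDerivAt_pow 2 x).neg
    refine this.congr_deriv ?_
    norm_num
  have h2 := (hasDerivAt_e (-x ^ 2)).scomp x h1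
  refine h2.congr_deriv ?_
  rw [Complex.real_smul, mul_comm]

theorem cont_v : Continuous fun u : ℝ => e (-u ^ 2) := cont_e.comp (by fun_prop)

theorem fres_tail (X Y : ℝ) (hX : 0 < X) (hXY : X ≤ Y) :
    ‖∫ u in X..Y, e (-u ^ 2)‖ ≤ 1 / X := by
  have hY : 0 < Y := hX.trans_le hXY
  have hpi := Real.pi_pos
  set c : ℂ := Complex.I / (4 * Real.pi) with hc
  have hcn : ‖c‖ = 1 / (4 * Real.pi) := by
    rw [hc, norm_div, Complex.norm_I, norm_mul, Complex.norm_real, Real.norm_eq_abs,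
      abs_of_pos hpi]
    norm_num
  have hpos : ∀ x ∈ Set.uIcc X Y, 0 < x := by
    intro x hx
    rw [Set.uIcc_of_le hXY] at hx
    exact hX.trans_le hx.1
  have hu : ∀ x ∈ Set.uIcc X Y, HasDerivAt (fun x : ℝ => c * ((x⁻¹ : ℝ) : ℂ))
      (c * ((-(x ^ 2)⁻¹ : ℝ) : ℂ)) x := by
    intro x hx
    exact ((hasDerivAt_inv (hpos x hx).ne').ofReal_comp).const_mul c
  have hcu : ContinuousOn (fun x : ℝ => c * ((-(x ^ 2)⁻¹ : ℝ) : ℂ)) (Set.uIcc X Y) := by
    refine continuousOn_const.mul (Complex.continuous_ofReal.comp_continuousOn ?_)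
    refine ContinuousOn.neg (ContinuousOn.inv₀ (by fun_prop) ?_)
    intro x hx
    have := hpos x hx
    positivity
  have hcv : Continuous fun x : ℝ => 2 * Real.pi * Complex.I * e (-x ^ 2) * ((-2 * x : ℝ) : ℂ) := by
    have := cont_v
    fun_prop
  have key := intervalIntegral.integral_mul_deriv_eq_deriv_mul hu (fun x _ => hasDeriv_v x)
    hcu.intervalIntegrable (hcv.intervalIntegrable X Y)
  have h1 : ∫ x in X..Y, c * ((x⁻¹ : ℝ) : ℂ) *
      (2 * Real.pi * Complex.I * e (-x ^ 2) * ((-2 * x : ℝ) : ℂ)) = ∫ u in X..Y, e (-u ^ 2) := by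
    refine intervalIntegral.integral_congr fun x hx => ?_
    have hx0 : (x : ℂ) ≠ 0 := by exact_mod_cast (hpos x hx).ne'
    have hp0 : (Real.pi : ℂ) ≠ 0 := by exact_mod_cast hpi.ne'
    show c * ((x⁻¹ : ℝ) : ℂ) *
      (2 * Real.pi * Complex.I * e (-x ^ 2) * ((-2 * x : ℝ) : ℂ)) = e (-x ^ 2)
    rw [hc]
    push_cast
    field_simp
    rw [Complex.I_sq]
    ring
  rw [h1] at key
  rw [key]
  have h2 : ‖∫ x in X..Y, c * ((-(x ^ 2)⁻¹ : ℝ) : ℂ) * e (-x ^ 2)‖ ≤
      1 / (4 * Real.pi) * (X⁻¹ - Y⁻¹) := by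
    have h3 : ∫ x in X..Y, 1 / (4 * Real.pi) * (x ^ 2)⁻¹ = 1 / (4 * Real.pi) * (X⁻¹ - Y⁻¹) := by
      rw [intervalIntegral.integral_const_mul]
      congr 1
      have h4 : ∀ x ∈ Set.uIcc X Y, HasDerivAt (fun x : ℝ => -x⁻¹) ((x ^ 2)⁻¹) x := by
        intro x hx
        have := (hasDerivAt_inv (hpos x hx).ne').neg
        rwa [neg_neg] at this
      have h5 := intervalIntegral.integral_eq_sub_of_hasDerivAt h4 (by
        refine ContinuousOn.intervalIntegrable (ContinuousOn.inv₀ (by fun_prop) ?_)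
        intro x hx
        have := hpos x hx
        positivity)
      rw [h5]
      ring
    rw [← h3]
    refine intervalIntegral.norm_integral_le_of_norm_le hXY ?_ ?_
    · refine Eventually.of_forall fun x hx => ?_
      have hx0 : 0 < x := hX.trans hx.1
      rw [norm_mul, norm_mul, norm_e, hcn, mul_one, Complex.norm_real, Real.norm_eq_abs, abs_neg,
        abs_of_pos (by positivity)]
    · refine ContinuousOn.intervalIntegrable (continuousOn_const.mul
        (ContinuousOn.inv₀ (by fun_prop) ?_))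
      intro x hx
      have := hpos x hx
      positivity
  have h3 : ∀ Z : ℝ, 0 < Z → ‖c * ((Z⁻¹ : ℝ) : ℂ) * e (-Z ^ 2)‖ = 1 / (4 * Real.pi) * Z⁻¹ := by
    intro Z hZ
    rw [norm_mul, norm_mul, norm_e, hcn, mul_one, Complex.norm_real, Real.norm_eq_abs,
      abs_of_pos (by positivity)]
  refine (norm_sub_le _ _).trans ?_
  refine (add_le_add ((norm_sub_le _ _).trans (add_le_add (h3 Y hY).le (h3 X hX).le)) h2).trans ?_
  have h4 : 1 / (4 * Real.pi) * Y⁻¹ + 1 / (4 * Real.pi) * X⁻¹ + 1 / (4 * Real.pi) * (X⁻¹ - Y⁻¹) =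
      1 / (2 * Real.pi) * (1 / X) := by
    field_simp
    ring
  rw [h4]
  have h5 : 1 / (2 * Real.pi) ≤ 1 := by
    rw [div_le_one (by positivity)]
    linarith [Real.pi_gt_three]
  exact mul_le_of_le_one_left (by positivity) h5

theorem fres_lim : ∃ K0 : ℂ, ∃ C : ℝ, 0 ≤ C ∧ ∀ X : ℝ, 0 ≤ X →
    ‖(∫ u in (0:ℝ)..X, e (-u ^ 2)) - K0‖ ≤ C / (1 + X) := by
  set Φ : ℝ → ℂ := fun X => ∫ u in (0:ℝ)..X, e (-u ^ 2) with hΦ
  have hint : ∀ a b : ℝ, IntervalIntegrable (fun u : ℝ => e (-u ^ 2)) volume a b :=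
    fun a b => cont_v.intervalIntegrable a b
  have hd : ∀ X Y : ℝ, Φ Y - Φ X = ∫ u in X..Y, e (-u ^ 2) := fun X Y =>
    intervalIntegral.integral_interval_sub_left (hint 0 Y) (hint 0 X)
  have hb : ∀ X Y : ℝ, 0 < X → X ≤ Y → ‖Φ Y - Φ X‖ ≤ 1 / X := fun X Y h1 h2 => by
    rw [hd]
    exact fres_tail X Y h1 h2
  have hcau : CauchySeq Φ := by
    rw [Metric.cauchySeq_iff']
    intro ε hε
    refine ⟨2 / ε, fun n hn => ?_⟩
    rw [dist_eq_norm]
    refine (hb _ _ (by positivity) hn).trans_lt ?_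
    rw [one_div_div]
    linarith
  obtain ⟨K0, hK⟩ := cauchySeq_tendsto_of_complete hcau
  have hlim : ∀ X : ℝ, 0 < X → ‖Φ X - K0‖ ≤ 1 / X := by
    intro X hX
    have h1 : Tendsto (fun Y => ‖Φ X - Φ Y‖) atTop (𝓝 ‖Φ X - K0‖) :=
      (tendsto_const_nhds.sub hK).norm
    refine le_of_tendsto h1 ?_
    filter_upwards [eventually_ge_atTop X] with Y hY
    rw [norm_sub_rev]
    exact hb X Y hX hY
  refine ⟨K0, 4, by norm_num, fun X hX => ?_⟩
  by_cases h1 : 1 ≤ X
  · refine (hlim X (by linarith)).trans ?_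
    rw [div_le_div_iff₀ (by linarith) (by linarith)]
    linarith
  · push Not at h1
    have h2 : ‖Φ X - Φ 1‖ ≤ 1 := by
      rw [norm_sub_rev, hd]
      have := intervalIntegral.norm_integral_le_of_norm_le_const (a := X) (b := 1) (C := 1)
        (f := fun u : ℝ => e (-u ^ 2)) (fun x _ => (norm_e _).le)
      refine this.trans ?_
      rw [one_mul, abs_of_nonneg (by linarith)]
      linarith
    have h3 := hlim 1 one_pos
    have h4 : ‖Φ X - K0‖ ≤ ‖Φ X - Φ 1‖ + ‖Φ 1 - K0‖ := norm_sub_le_norm_sub_add_norm_sub _ _ _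
    rw [le_div_iff₀ (by linarith)]
    have h5 : ‖Φ X - K0‖ ≤ 2 := by
      rw [div_one] at h3
      linarith
    have h6 : 0 ≤ ‖Φ X - K0‖ := norm_nonneg _
    show ‖Φ X - K0‖ * (1 + X) ≤ 4
    nlinarith

end Pool.Agent.SQ42.S66
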