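import Pool.Agent.SQ42.FresBS15

/-! FresB: the integral G(h,m,al,be) for m >= 1.

Proof. Phi(X) = int_0^X e(-u^2) du is odd, |Phi(X) - K0| <= C/(1+X) (X >= 0), |Phi(X) + K0| <=
C/(1+|X|) (X <= 0). h y - m y^2 = h^2/(4m) - m (y - h/(2m))^2, so with u = sqrt m (y - h/(2m)):
G = e(h^2/(4m)) m^(-1/2) (Phi(b) - Phi(a)), a = sqrt m (al - h/(2m)), b = sqrt m (be - h/(2m)).
If a < 0 <= b: Phi(b) - Phi(a) = 2 K0 + error <= C/(1+|a|) + C/(1+|b|). If 0 <= a <= b or a <= b < 0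
the difference is <= C/(1+|a|) + C/(1+|b|). And sqrt m (1 + |a|) = sqrt m + |m al - h/2| >=
1 + |m al - h/2|, same for b. K = 2 K0. (The condition 2 m al < h is a < 0, h <= 2 m be is
0 <= b.) -/

namespace Pool.Agent.SQ42

open MeasureTheory

theorem fres_main : ∃ K : ℂ, ∃ C : ℝ, 0 ≤ C ∧ ∀ h m al be : ℝ, 1 ≤ m → al ≤ be →
    ‖G h m al be - (if 2 * m * al < h ∧ h ≤ 2 * m * be then
        K * (1 / Real.sqrt m : ℝ) * e (h ^ 2 / (4 * m)) else 0)‖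
      ≤ C * (1 / (1 + |m * al - h / 2|) + 1 / (1 + |m * be - h / 2|)) :=
  S15.fres_main

end Pool.Agent.SQ42
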