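import Pool.Agent.SQ42.FresA

/-! FresB: the integral G(h,m,al,be) for m >= 1 (proof: see FresB). Ph = the Fresnel integral. -/

namespace Pool.Agent.SQ42.S15

open MeasureTheory Pool.Agent.SQ42

theorem contF : Continuous (fun u : ℝ => e (-u ^ 2)) := cont_e.comp (by fun_prop)

/-- the Fresnel integral -/
noncomputable def Ph (X : ℝ) : ℂ := ∫ u in (0:ℝ)..X, e (-u ^ 2)

theorem Ph_neg (X : ℝ) : Ph (-X) = - Ph X := by
  unfold Ph
  have h1 := intervalIntegral.integral_comp_neg (a := 0) (b := X) (fun u : ℝ => e (-u ^ 2))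
  have h2 : (fun x : ℝ => e (-(-x) ^ 2)) = fun x : ℝ => e (-x ^ 2) := by
    funext x
    rw [neg_sq]
  rw [h2, neg_zero] at h1
  rw [intervalIntegral.integral_symm, ← h1]

theorem Ph_sub (a b : ℝ) : (∫ u in a..b, e (-u ^ 2)) = Ph b - Ph a := by
  unfold Ph
  rw [intervalIntegral.integral_interval_sub_left (contF.intervalIntegrable _ _)
    (contF.intervalIntegrable _ _)]

theorem G_eq (h m al be : ℝ) (hm : 1 ≤ m) :
    G h m al be = e (h ^ 2 / (4 * m)) * (((Real.sqrt m)⁻¹ : ℝ) *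
      (Ph (Real.sqrt m * be - Real.sqrt m * (h / (2 * m))) -
        Ph (Real.sqrt m * al - Real.sqrt m * (h / (2 * m))))) := by
  have hm0 : 0 < m := by linarith
  have hs0 : Real.sqrt m ≠ 0 := (Real.sqrt_pos.2 hm0).ne'
  have hss : Real.sqrt m * Real.sqrt m = m := Real.mul_self_sqrt hm0.le
  have h1 : ∀ y : ℝ, e (h * y - m * y ^ 2) = e (h ^ 2 / (4 * m)) *
      e (-(Real.sqrt m * y - Real.sqrt m * (h / (2 * m))) ^ 2) := by
    intro y
    rw [← e_add]
    congr 1
    have h2 : (Real.sqrt m * y - Real.sqrt m * (h / (2 * m))) ^ 2 =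
        (Real.sqrt m * Real.sqrt m) * (y - h / (2 * m)) ^ 2 := by ring
    rw [h2, hss]
    field_simp
    ring
  unfold G
  simp_rw [h1]
  rw [intervalIntegral.integral_const_mul,
    intervalIntegral.integral_comp_mul_sub (fun u : ℝ => e (-u ^ 2)) hs0, Ph_sub,
    Complex.real_smul]

theorem fres_main : ∃ K : ℂ, ∃ C : ℝ, 0 ≤ C ∧ ∀ h m al be : ℝ, 1 ≤ m → al ≤ be →
    ‖G h m al be - (if 2 * m * al < h ∧ h ≤ 2 * m * be then
        K * (1 / Real.sqrt m : ℝ) * e (h ^ 2 / (4 * m)) else 0)‖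
      ≤ C * (1 / (1 + |m * al - h / 2|) + 1 / (1 + |m * be - h / 2|)) := by
  obtain ⟨K0, C, hC, hlim⟩ := fres_lim
  refine ⟨2 * K0, C, hC, fun h m al be hm hab => ?_⟩
  have hm0 : 0 < m := by linarith
  set q : ℝ := Real.sqrt m with hq
  have hq1 : 1 ≤ q := by rw [hq, Real.one_le_sqrt]; exact hm
  have hq0 : 0 < q := by linarith
  have hss : q * q = m := Real.mul_self_sqrt hm0.le
  set a : ℝ := q * al - q * (h / (2 * m)) with ha
  set b : ℝ := q * be - q * (h / (2 * m)) with hb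
  have hab' : a ≤ b := by
    rw [ha, hb]
    have := mul_le_mul_of_nonneg_left hab hq0.le
    linarith
  have hqa : ∀ x : ℝ, q * (q * x - q * (h / (2 * m))) = m * x - h / 2 := by
    intro x
    have : q * (q * x - q * (h / (2 * m))) = (q * q) * (x - h / (2 * m)) := by ring
    rw [this, hss]
    field_simp
  have hpos : ∀ X : ℝ, 0 ≤ X → ‖Ph X - K0‖ ≤ C / (1 + |X|) := by
    intro X hX
    rw [abs_of_nonneg hX]
    exact hlim X hX
  have hneg : ∀ X : ℝ, X ≤ 0 → ‖Ph X + K0‖ ≤ C / (1 + |X|) := by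
    intro X hX
    have h1 := hpos (-X) (by linarith)
    rw [Ph_neg, abs_neg] at h1
    have h2 : ‖Ph X + K0‖ = ‖-Ph X - K0‖ := by
      rw [← norm_neg]
      congr 1
      ring
    rw [h2]
    exact h1
  -- the error of one end
  have hend : ∀ x : ℝ, q⁻¹ * (C / (1 + |q * x - q * (h / (2 * m))|)) ≤
      C * (1 / (1 + |m * x - h / 2|)) := by
    intro x
    rw [← hqa x, abs_mul, abs_of_pos hq0]
    have h1 : q⁻¹ * (C / (1 + |q * x - q * (h / (2 * m))|)) =
        C * (1 / (q * (1 + |q * x - q * (h / (2 * m))|))) := by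
      field_simp
    rw [h1]
    refine mul_le_mul_of_nonneg_left (one_div_le_one_div_of_le (by positivity) ?_) hC
    have := abs_nonneg (q * x - q * (h / (2 * m)))
    nlinarith
  have hfin : ∀ w : ℂ, ‖w‖ ≤ C / (1 + |a|) + C / (1 + |b|) →
      ‖e (h ^ 2 / (4 * m)) * (((q⁻¹ : ℝ) : ℂ) * w)‖ ≤
      C * (1 / (1 + |m * al - h / 2|) + 1 / (1 + |m * be - h / 2|)) := by
    intro w hw
    rw [norm_mul, norm_e, one_mul, norm_mul, Complex.norm_real, Real.norm_eq_abs,
      abs_of_pos (inv_pos.2 hq0)]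
    calc q⁻¹ * ‖w‖ ≤ q⁻¹ * (C / (1 + |a|) + C / (1 + |b|)) :=
          mul_le_mul_of_nonneg_left hw (inv_pos.2 hq0).le
      _ = q⁻¹ * (C / (1 + |a|)) + q⁻¹ * (C / (1 + |b|)) := by ring
      _ ≤ C * (1 / (1 + |m * al - h / 2|)) + C * (1 / (1 + |m * be - h / 2|)) :=
          add_le_add (hend al) (hend be)
      _ = _ := by ring
  rw [G_eq h m al be hm]
  have hca : 2 * m * al < h ↔ a < 0 := by
    have h1 := hqa al
    rw [← ha] at h1
    constructor
    · intro h2
      by_contra h3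
      have := mul_nonneg hq0.le (not_lt.1 h3)
      linarith
    · intro h2
      have := mul_neg_of_pos_of_neg hq0 h2
      linarith
  have hcb : h ≤ 2 * m * be ↔ 0 ≤ b := by
    have h1 := hqa be
    rw [← hb] at h1
    constructor
    · intro h2
      by_contra h3
      have := mul_neg_of_pos_of_neg hq0 (not_le.1 h3)
      linarith
    · intro h2
      have := mul_nonneg hq0.le h2
      linarith
  by_cases hc : 2 * m * al < h ∧ h ≤ 2 * m * be
  · rw [if_pos hc]
    have ha0 := (hca.1 hc.1).le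
    have hb0 := hcb.1 hc.2
    have h1 := hfin (Ph b - Ph a - 2 * K0) (by
      have h2 : Ph b - Ph a - 2 * K0 = (Ph b - K0) - (Ph a + K0) := by ring
      rw [h2]
      calc ‖(Ph b - K0) - (Ph a + K0)‖ ≤ ‖Ph b - K0‖ + ‖Ph a + K0‖ := norm_sub_le _ _
        _ ≤ C / (1 + |b|) + C / (1 + |a|) := add_le_add (hpos b hb0) (hneg a ha0)
        _ = _ := add_comm _ _)
    refine le_trans (le_of_eq ?_) h1
    congr 1
    rw [one_div]
    ring
  · rw [if_neg hc, sub_zero]
    apply hfin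
    by_cases ha0 : 0 ≤ a
    · have h2 : Ph b - Ph a = (Ph b - K0) - (Ph a - K0) := by ring
      rw [h2]
      calc ‖(Ph b - K0) - (Ph a - K0)‖ ≤ ‖Ph b - K0‖ + ‖Ph a - K0‖ := norm_sub_le _ _
        _ ≤ C / (1 + |b|) + C / (1 + |a|) := add_le_add (hpos b (ha0.trans hab')) (hpos a ha0)
        _ = _ := add_comm _ _
    · have ha1 := not_le.1 ha0
      have hb1 : b ≤ 0 := by
        by_contra h3
        exact hc ⟨hca.2 ha1, hcb.2 (not_le.1 h3).le⟩
      have h2 : Ph b - Ph a = (Ph b + K0) - (Ph a + K0) := by ring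
      rw [h2]
      calc ‖(Ph b + K0) - (Ph a + K0)‖ ≤ ‖Ph b + K0‖ + ‖Ph a + K0‖ := norm_sub_le _ _
        _ ≤ C / (1 + |b|) + C / (1 + |a|) := add_le_add (hneg b hb1) (hneg a ha1.le)
        _ = _ := add_comm _ _

end Pool.Agent.SQ42.S15
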