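import Pool.Agent.SQ42.PoisS13

/-!
# Poisson summation for `∑ e(h √a)`
-/

set_option autoImplicit false

namespace Pool.Agent.SQ42

open MeasureTheory Finset Real

/-- `e(x) = exp (2 π i x)`. -/
noncomputable def ee (x : ℝ) : ℂ := Complex.exp (2 * π * Complex.I * x)

lemma ee_hasDerivAt (x : ℝ) : HasDerivAt ee (2 * π * Complex.I * ee x) x := by
  have h1 : HasDerivAt (fun x : ℝ => 2 * π * Complex.I * (x : ℂ)) (2 * π * Complex.I * 1) x :=
    (Complex.ofRealCLM.hasDerivAt (x := x)).const_mul _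
  have h2 := h1.cexp
  unfold ee
  convert! h2 using 1
  ring

lemma continuous_ee : Continuous ee := by
  unfold ee
  fun_prop

lemma norm_ee (x : ℝ) : ‖ee x‖ = 1 := by
  unfold ee
  have : 2 * (π : ℂ) * Complex.I * x = ((2 * π * x : ℝ) : ℂ) * Complex.I := by
    push_cast
    ring
  rw [this, Complex.norm_exp_ofReal_mul_I]

lemma ee_add (x y : ℝ) : ee (x + y) = ee x * ee y := by
  unfold ee
  rw [← Complex.exp_add]
  push_cast
  ring_nf

/-- The integral `∫ e(h y - t y²)` from `√A` to `√B`. -/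
noncomputable def GG (A B : ℕ) (h t : ℝ) : ℂ :=
  ∫ y in (√(A : ℝ))..√(B : ℝ), ee (h * y - t * y ^ 2)

lemma sin_eq (t : ℝ) : ((Real.sin (2 * π * t) : ℝ) : ℂ) =
    (ee t - ee (-t)) / (2 * Complex.I) := by
  unfold ee
  rw [Complex.ofReal_sin, Complex.sin]
  have h1 : -((2 * π * t : ℝ) : ℂ) * Complex.I = 2 * π * Complex.I * ((-t : ℝ) : ℂ) := by
    push_cast
    ring
  have h2 : ((2 * π * t : ℝ) : ℂ) * Complex.I = 2 * π * Complex.I * ((t : ℝ) : ℂ) := by
    push_cast
    ring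
  rw [h1, h2]
  have hI : Complex.I ≠ 0 := Complex.I_ne_zero
  field_simp
  rw [Complex.I_sq]
  ring

lemma hasDerivAt_f (h : ℝ) {x : ℝ} (hx : 0 < x) :
    HasDerivAt (fun x : ℝ => ee (h * √x))
      (((h * (1 / (2 * √x)) : ℝ) : ℂ) * (2 * π * Complex.I * ee (h * √x))) x := by
  have h1 : HasDerivAt (fun x : ℝ => h * √x) (h * (1 / (2 * √x))) x :=
    (Real.hasDerivAt_sqrt hx.ne').const_mul h
  have h2 := (ee_hasDerivAt (h * √x)).scomp x h1
  simpa [Function.comp_def] using h2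

/-- the second derivative -/
lemma exists_second (h : ℝ) (A B : ℕ) (hA : 1 ≤ A) : ∃ f'' : ℝ → ℂ,
    (∀ x ∈ Set.Icc (A : ℝ) B, HasDerivAt (fun x : ℝ =>
      ((h * (1 / (2 * √x)) : ℝ) : ℂ) * (2 * π * Complex.I * ee (h * √x))) (f'' x) x) ∧
    ContinuousOn f'' (Set.Icc (A : ℝ) B) := by
  have hA' : (1 : ℝ) ≤ A := by exact_mod_cast hA
  refine ⟨deriv (fun x : ℝ =>
      ((h * (1 / (2 * √x)) : ℝ) : ℂ) * (2 * π * Complex.I * ee (h * √x))), ?_, ?_⟩
  all_goals
    have hcd : ContDiffOn ℝ 2 (fun x : ℝ =>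
        ((h * (1 / (2 * √x)) : ℝ) : ℂ) * (2 * π * Complex.I * ee (h * √x))) (Set.Ioi 0) := by
      unfold ee
      have hs : ContDiffOn ℝ 2 (fun x : ℝ => √x) (Set.Ioi 0) := fun x hx =>
        (Real.contDiffAt_sqrt (ne_of_gt hx)).contDiffWithinAt
      have hr : ContDiffOn ℝ 2 (fun x : ℝ => h * (1 / (2 * √x))) (Set.Ioi 0) := by
        refine contDiffOn_const.mul (contDiffOn_const.div (contDiffOn_const.mul hs) ?_)
        intro x hx
        have := Real.sqrt_pos.2 hx
        positivity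
      have hr' : ContDiffOn ℝ 2 (fun x : ℝ => ((h * (1 / (2 * √x)) : ℝ) : ℂ)) (Set.Ioi 0) :=
        Complex.ofRealCLM.contDiff.comp_contDiffOn hr
      have he : ContDiffOn ℝ 2 (fun x : ℝ => ((h * √x : ℝ) : ℂ)) (Set.Ioi 0) :=
        Complex.ofRealCLM.contDiff.comp_contDiffOn (contDiffOn_const.mul hs)
      exact hr'.mul (contDiffOn_const.mul ((contDiffOn_const.mul he).cexp))
  · intro x hx
    have hx0 : (0 : ℝ) < x := by linarith [hx.1]
    exact ((hcd.contDiffAt (Ioi_mem_nhds hx0)).differentiableAt (by norm_num)).hasDerivAt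
  · have h2 := hcd.continuousOn_deriv_of_isOpen isOpen_Ioi (by norm_num)
    exact h2.mono fun x hx => by
      have : (0 : ℝ) < x := by linarith [hx.1]
      exact this

/-- The substitution `x = y²`. -/
lemma subst_sq {g : ℝ → ℂ} {A B : ℕ} (hAB : A ≤ B) (hg : ContinuousOn g (Set.Icc (A : ℝ) B)) :
    ∫ x in (A : ℝ)..B, g x = ∫ y in (√(A : ℝ))..√(B : ℝ), ((2 * y : ℝ) : ℂ) * g (y ^ 2) := by
  have hAB' : (A : ℝ) ≤ B := by exact_mod_cast hAB
  have hs : √(A : ℝ) ≤ √(B : ℝ) := Real.sqrt_le_sqrt hAB'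
  have h := intervalIntegral.integral_deriv_smul_comp'' (a := √(A : ℝ)) (b := √(B : ℝ))
    (f := fun y : ℝ => y ^ 2) (f' := fun y : ℝ => 2 * y) (g := g) (by fun_prop)
    (fun y _ => by
      have := (hasDerivAt_pow 2 y).hasDerivWithinAt (s := Set.Ioi y)
      simpa using this) (by fun_prop) ?_
  · rw [Real.sq_sqrt (Nat.cast_nonneg A), Real.sq_sqrt (Nat.cast_nonneg B)] at h
    rw [← h]
    refine intervalIntegral.integral_congr fun y _ => ?_
    simp
  · refine hg.mono ?_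
    rintro _ ⟨y, hy, rfl⟩
    rw [Set.uIcc_of_le hs] at hy
    have hy0 : 0 ≤ y := le_trans (Real.sqrt_nonneg _) hy.1
    constructor
    · have := Real.sqrt_le_left hy0 |>.1 hy.1
      simpa using this
    · exact (Real.le_sqrt hy0 (Nat.cast_nonneg B)).1 hy.2

/-- Poisson summation for `∑ e(h √a)`. -/
theorem gsum (h : ℝ) {A B : ℕ} (hA : 1 ≤ A) (hAB : A ≤ B) :
    HasSum (fun m : ℕ => ((h / ((m : ℝ) + 1) : ℝ) : ℂ) *
        (GG A B h ((m : ℝ) + 1) - GG A B h (-((m : ℝ) + 1))))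
      (∑ a ∈ Finset.Icc A B, ee (h * √(a : ℝ)) -
        (∫ y in (√(A : ℝ))..√(B : ℝ), ((2 * y : ℝ) : ℂ) * ee (h * y)) -
        (ee (h * √(A : ℝ)) + ee (h * √(B : ℝ))) / 2) := by
  have hA' : (1 : ℝ) ≤ A := by exact_mod_cast hA
  obtain ⟨f'', h2, h3⟩ := exists_second h A B hA
  have hf : ContinuousOn (fun x : ℝ => ee (h * √x)) (Set.Icc (A : ℝ) B) :=
    (continuous_ee.comp (by fun_prop)).continuousOn
  have hp := (poisson_sin hAB (fun x hx => hasDerivAt_f h (by linarith [hx.1])) h2 h3).neg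
  convert! hp using 1
  · funext m
    have hc : ContinuousOn (fun x : ℝ => ((Real.sin (2 * π * ((m : ℝ) + 1) * x) : ℝ) : ℂ) *
        (((h * (1 / (2 * √x)) : ℝ) : ℂ) * (2 * π * Complex.I * ee (h * √x))))
        (Set.Icc (A : ℝ) B) := by
      refine ContinuousOn.mul (Continuous.continuousOn (by fun_prop)) ?_
      intro x hx
      exact (h2 x hx).continuousAt.continuousWithinAt
    rw [subst_sq hAB hc]
    unfold GG
    rw [← intervalIntegral.integral_sub, ← intervalIntegral.integral_const_mul,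
      ← intervalIntegral.integral_const_mul, ← intervalIntegral.integral_neg]
    · refine intervalIntegral.integral_congr fun y hy => ?_
      have hy0 : 0 < y := by
        have hs : √(A : ℝ) ≤ √(B : ℝ) := Real.sqrt_le_sqrt (by exact_mod_cast hAB)
        rw [Set.uIcc_of_le hs] at hy
        exact lt_of_lt_of_le (Real.sqrt_pos.2 (by linarith)) hy.1
      have e1 : √(y ^ 2) = y := Real.sqrt_sq hy0.le
      have e2 : 2 * π * ((m : ℝ) + 1) * y ^ 2 = 2 * π * (((m : ℝ) + 1) * y ^ 2) := by ring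
      have e3 : h * y - ((m : ℝ) + 1) * y ^ 2 = h * y + (-(((m : ℝ) + 1) * y ^ 2)) := by ring
      have e4 : h * y - -((m : ℝ) + 1) * y ^ 2 = h * y + (((m : ℝ) + 1) * y ^ 2) := by ring
      rw [e1, e2, sin_eq, e3, e4, ee_add, ee_add]
      have hI : Complex.I ≠ 0 := Complex.I_ne_zero
      have hy1 : (y : ℂ) ≠ 0 := by exact_mod_cast hy0.ne'
      have hpi : (π : ℂ) ≠ 0 := by exact_mod_cast Real.pi_ne_zero
      have hm : ((m : ℂ) + 1) ≠ 0 := by exact_mod_cast (Nat.succ_ne_zero m)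
      push_cast
      field_simp
      ring
    · exact (continuous_ee.comp (by fun_prop)).intervalIntegrable _ _
    · exact (continuous_ee.comp (by fun_prop)).intervalIntegrable _ _
  · have e : ∫ x in (A : ℝ)..B, ee (h * √x) =
        ∫ y in (√(A : ℝ))..√(B : ℝ), ((2 * y : ℝ) : ℂ) * ee (h * y) := by
      rw [subst_sq hAB hf]
      refine intervalIntegral.integral_congr fun y hy => ?_
      have hy0 : 0 ≤ y := by
        have hs : √(A : ℝ) ≤ √(B : ℝ) := Real.sqrt_le_sqrt (by exact_mod_cast hAB)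
        rw [Set.uIcc_of_le hs] at hy
        exact le_trans (Real.sqrt_nonneg _) hy.1
      rw [Real.sqrt_sq hy0]
    rw [e]
    ring

end Pool.Agent.SQ42
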