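import Pool.Agent.SQ42.Def

/-! Ival: shape of the index sets.

Proof. m in I h n iff 1 <= m <= h, 2 m sqrt A < h, h <= 2 m sqrt n, A = (n+1)/2 in Nat, A >= 1,
2 A >= n. h <= 2 m sqrt n iff ceil(h/(2 sqrt n)) <= m (>= 1); 2 m sqrt A < h iff m < h/(2 sqrt A) iff
m < ceil(h/(2 sqrt A)), and then m < h automatically. u h = ceil(h/(2 sqrt n)), v h = max (u h)
(ceil(h/(2 sqrt A))). h/(2 sqrt A) <= H/(2 sqrt(n/2)) <= H/sqrt n, ceil <= floor(H/sqrt n) + 1. -/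

namespace Pool.Agent.SQ42

theorem ival (n : ℕ) (hn : 1 ≤ n) (H : ℝ) (hH : Real.sqrt n ≤ H) :
    ∃ u v : ℕ → ℕ, ∀ h : ℕ, 1 ≤ h → (h : ℝ) ≤ H → 1 ≤ u h ∧ u h ≤ v h ∧
      v h ≤ ⌊H / Real.sqrt n⌋₊ + 1 ∧ I h n = Finset.Ico (u h) (v h) := by
  have hA1 : 1 ≤ (n + 1) / 2 := by omega
  have hA2 : n ≤ 2 * ((n + 1) / 2) := by omega
  set A : ℕ := (n + 1) / 2 with hA
  have hnR : (1 : ℝ) ≤ n := by exact_mod_cast hn
  have hA1R : (1 : ℝ) ≤ (A : ℝ) := by exact_mod_cast hA1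
  have hA2R : (n : ℝ) ≤ 2 * (A : ℝ) := by exact_mod_cast hA2
  have hsn : 0 < Real.sqrt n := Real.sqrt_pos.mpr (by linarith)
  have hsA : 1 ≤ Real.sqrt (A : ℝ) := Real.one_le_sqrt.mpr hA1R
  have hsA0 : 0 < Real.sqrt (A : ℝ) := by linarith
  have hcmp : Real.sqrt n ≤ 2 * Real.sqrt (A : ℝ) := by
    rw [Real.sqrt_le_left (by positivity)]
    have h1 : Real.sqrt (A : ℝ) ^ 2 = A := Real.sq_sqrt (by linarith)
    nlinarith
  refine ⟨fun h => ⌈(h : ℝ) / (2 * Real.sqrt n)⌉₊,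
    fun h => max ⌈(h : ℝ) / (2 * Real.sqrt n)⌉₊ ⌈(h : ℝ) / (2 * Real.sqrt (A : ℝ))⌉₊, ?_⟩
  intro h hh hhH
  have hhR : (1 : ℝ) ≤ h := by exact_mod_cast hh
  have hu1 : 1 ≤ ⌈(h : ℝ) / (2 * Real.sqrt n)⌉₊ :=
    Nat.ceil_pos.mpr (div_pos (by linarith) (by positivity))
  refine ⟨hu1, le_max_left _ _, ?_, ?_⟩
  · refine max_le ?_ ?_
    · refine le_trans (Nat.ceil_le_ceil ?_) (Nat.ceil_le_floor_add_one _)
      rw [div_le_div_iff₀ (by positivity) hsn]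
      have h2 : (h : ℝ) * Real.sqrt n ≤ H * Real.sqrt n :=
        mul_le_mul_of_nonneg_right hhH hsn.le
      have h3 : 0 ≤ H * Real.sqrt n := by
        apply mul_nonneg _ hsn.le
        linarith
      nlinarith
    · refine le_trans (Nat.ceil_le_ceil ?_) (Nat.ceil_le_floor_add_one _)
      rw [div_le_div_iff₀ (by positivity) hsn]
      have h2 : (h : ℝ) * Real.sqrt n ≤ H * Real.sqrt n :=
        mul_le_mul_of_nonneg_right hhH hsn.le
      have h3 : H * Real.sqrt n ≤ H * (2 * Real.sqrt (A : ℝ)) :=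
        mul_le_mul_of_nonneg_left hcmp (by linarith)
      linarith
  · ext m
    simp only [I, Finset.mem_filter, Finset.mem_Icc, Finset.mem_Ico]
    rw [← hA]
    constructor
    · rintro ⟨⟨hm1, hm2⟩, hm3, hm4⟩
      constructor
      · rw [Nat.ceil_le, div_le_iff₀ (by positivity)]
        linarith
      · apply lt_max_of_lt_right
        rw [Nat.lt_ceil, lt_div_iff₀ (by positivity)]
        linarith
    · rintro ⟨hm1, hm2⟩
      have hm3 : (m : ℕ) < ⌈(h : ℝ) / (2 * Real.sqrt (A : ℝ))⌉₊ := by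
        rcases lt_max_iff.mp hm2 with h1 | h1
        · omega
        · exact h1
      rw [Nat.lt_ceil, lt_div_iff₀ (by positivity)] at hm3
      have hm1' := hm1
      rw [Nat.ceil_le, div_le_iff₀ (by positivity)] at hm1'
      have hm0 : (0 : ℝ) ≤ m := Nat.cast_nonneg m
      refine ⟨⟨le_trans hu1 hm1, ?_⟩, by linarith, by linarith⟩
      have h5 : (m : ℝ) ≤ h := by nlinarith
      exact_mod_cast h5

/-- every m in I h n satisfies m >= V/4, V = H/sqrt n, if h >= H/2. -/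
theorem ival_low (n h m : ℕ) (hn : 1 ≤ n) (H : ℝ) (hh : H ≤ 2 * h) (hm : m ∈ I h n) :
    H / Real.sqrt n / 4 ≤ m := by
  have hnR : (1 : ℝ) ≤ n := by exact_mod_cast hn
  have hsn : 0 < Real.sqrt n := Real.sqrt_pos.mpr (by linarith)
  simp only [I, Finset.mem_filter, Finset.mem_Icc] at hm
  obtain ⟨-, -, h4⟩ := hm
  rw [div_le_iff₀ (by norm_num), div_le_iff₀ hsn]
  linarith

end Pool.Agent.SQ42
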