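import Pool.Agent.SQ42.Main1a
import Pool.Agent.SQ42.Ival

/-! Main1: the moment of the dual sums. V = H/sqrt n >= 1, N = floor V.

Proof. For h in HS H, T_h = sum over I h n = Ico (u h) (v h) (ival; v h <= N + 1) and every m there has
m >= V/4 (ival_low), so h/(m sqrt m) = 8 h V^(-3/2) c m, c m = (V/4)^(3/2)/(m sqrt m) if m >= V/4, else 0;
|c m| <= 1, h <= H. block_moment (with eps): sum_h |T_h|^(2R) <= (8 H V^(-3/2))^(2R) C N^eps (H V^R + V^(3R)),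
V^(2R) <= H (from H^(2R-1) <= n^R), (H V^(-3/2))^(2R) H V^R = H n^R; N <= V <= H <= n. -/

namespace Pool.Agent.SQ42

theorem dual_moment (R : ℕ) (hR : 1 ≤ R) (eps : ℝ) (heps : 0 < eps) :
    ∃ C : ℝ, 0 ≤ C ∧ ∀ n : ℕ, 1 ≤ n → ∀ H : ℝ, Real.sqrt n ≤ H →
      H ^ (2 * R - 1) ≤ (n : ℝ) ^ R →
      ∑ h ∈ HS H, ‖∑ m ∈ I h n, ((h / (m * Real.sqrt m) : ℝ) : ℂ) *
          e ((h : ℝ) ^ 2 / (4 * m))‖ ^ (2 * R) ≤ C * H * (n : ℝ) ^ (R + eps) := by
  obtain ⟨C, hC0, hC⟩ := block_moment R hR eps heps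
  refine ⟨C * (2 * 64 ^ R), by positivity, fun n hn H hH hHR => ?_⟩
  have hn1 : (1 : ℝ) ≤ n := by exact_mod_cast hn
  have hn0 : (0 : ℝ) < n := by linarith
  have hs1 : (1 : ℝ) ≤ Real.sqrt n := by rw [Real.one_le_sqrt]; exact hn1
  have hs0 : (0 : ℝ) < Real.sqrt n := by linarith
  have hss : Real.sqrt n * Real.sqrt n = n := Real.mul_self_sqrt hn0.le
  have hH1 : 1 ≤ H := hs1.trans hH
  have hH0 : 0 < H := by linarith
  set V : ℝ := H / Real.sqrt n with hV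
  have hV1 : 1 ≤ V := by rw [hV, le_div_iff₀ hs0]; linarith
  have hV0 : 0 < V := by linarith
  have hVH : V ≤ H := by
    rw [hV, div_le_iff₀ hs0]
    nlinarith
  have hHn : H ≤ n := by
    by_contra hcon
    push Not at hcon
    have h1 : (n : ℝ) ^ (2 * R - 1) < H ^ (2 * R - 1) :=
      pow_lt_pow_left₀ hcon hn0.le (by omega)
    have h2 : (n : ℝ) ^ R ≤ (n : ℝ) ^ (2 * R - 1) := pow_le_pow_right₀ hn1 (by omega)
    linarith
  have hVn : V ≤ n := hVH.trans hHn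
  have hV2 : V ^ 2 * n = H ^ 2 := by
    rw [hV, div_pow, Real.sq_sqrt hn0.le]
    field_simp
  set N : ℕ := ⌊V⌋₊ with hN
  have hN1 : 1 ≤ N := by rw [hN]; exact Nat.le_floor (by exact_mod_cast hV1)
  have hNV : (N : ℝ) ≤ V := Nat.floor_le hV0.le
  obtain ⟨u, v, huv⟩ := ival n hn H hH
  -- the coefficients
  set w : ℝ := V / 4 * Real.sqrt (V / 4) with hw
  have hV4 : 0 < V / 4 := by positivity
  have hw0 : 0 < w := by rw [hw]; exact mul_pos hV4 (Real.sqrt_pos.2 hV4)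
  have hw2 : w ^ 2 = V ^ 3 / 64 := by
    rw [hw, mul_pow, Real.sq_sqrt hV4.le]
    ring
  set c : ℕ → ℂ := fun m => if V / 4 ≤ (m : ℝ) then ((w / (m * Real.sqrt m) : ℝ) : ℂ) else 0
    with hc
  have hc1 : ∀ m, ‖c m‖ ≤ 1 := by
    intro m
    rw [hc]
    simp only
    split_ifs with h
    · have hm0 : (0 : ℝ) < m := lt_of_lt_of_le hV4 h
      have hsm : 0 < Real.sqrt (m : ℝ) := Real.sqrt_pos.2 hm0
      rw [Complex.norm_real, Real.norm_eq_abs, abs_of_nonneg (by positivity),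
        div_le_one (by positivity), hw]
      exact mul_le_mul h (Real.sqrt_le_sqrt h) (Real.sqrt_nonneg _) hm0.le
    · rw [norm_zero]; exact zero_le_one
  have hmem : ∀ h ∈ HS H, 1 ≤ h ∧ (h : ℝ) ≤ H ∧ H ≤ 2 * h := by
    intro h hh
    unfold HS at hh
    rw [Finset.mem_filter, Finset.mem_Icc] at hh
    refine ⟨hh.1.1, ?_, hh.2⟩
    exact le_trans (by exact_mod_cast hh.1.2) (Nat.floor_le hH0.le)
  have hB := hC N hN1 H hH1 c hc1 u v (fun h hh => by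
    obtain ⟨h1, h2, h3⟩ := hmem h hh
    obtain ⟨a1, a2, a3, _⟩ := huv h h1 h2
    exact ⟨a1, a2, a3⟩)
  -- the single terms
  have hterm : ∀ h ∈ HS H, ‖∑ m ∈ I h n, ((h / (m * Real.sqrt m) : ℝ) : ℂ) *
      e ((h : ℝ) ^ 2 / (4 * m))‖ ^ (2 * R) ≤ (H / w) ^ (2 * R) *
        ‖∑ m ∈ Finset.Ico (u h) (v h), c m * e ((h : ℝ) ^ 2 / (4 * m))‖ ^ (2 * R) := by
    intro h hh
    obtain ⟨h1, h2, h3⟩ := hmem h hh
    obtain ⟨_, _, _, a4⟩ := huv h h1 h2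
    have e1 : ∑ m ∈ I h n, ((h / (m * Real.sqrt m) : ℝ) : ℂ) * e ((h : ℝ) ^ 2 / (4 * m)) =
        ((h / w : ℝ) : ℂ) * ∑ m ∈ Finset.Ico (u h) (v h), c m * e ((h : ℝ) ^ 2 / (4 * m)) := by
      rw [← a4, Finset.mul_sum]
      refine Finset.sum_congr rfl fun m hm => ?_
      have hlow := ival_low n h m hn H h3 hm
      have hcm : c m = ((w / (m * Real.sqrt m) : ℝ) : ℂ) := by
        rw [hc]
        simp only
        rw [if_pos hlow]
      rw [hcm, ← mul_assoc, ← Complex.ofReal_mul]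
      congr 2
      have hm0 : (0 : ℝ) < m := lt_of_lt_of_le hV4 hlow
      have hsm : 0 < Real.sqrt (m : ℝ) := Real.sqrt_pos.2 hm0
      field_simp
    rw [e1, norm_mul, mul_pow]
    refine mul_le_mul_of_nonneg_right ?_ (by positivity)
    refine pow_le_pow_left₀ (norm_nonneg _) ?_ _
    rw [Complex.norm_real, Real.norm_eq_abs, abs_of_nonneg (by positivity)]
    gcongr
  -- the final count
  have hNeps : (N : ℝ) ^ eps ≤ (n : ℝ) ^ eps :=
    Real.rpow_le_rpow (Nat.cast_nonneg _) (hNV.trans hVn) heps.le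
  have hV2R : V ^ (2 * R) ≤ H := by
    have h1 : V ^ (2 * R) * (n : ℝ) ^ R = H ^ (2 * R) := by
      rw [pow_mul, ← mul_pow, hV2, pow_mul]
    have h2 : H ^ (2 * R) = H * H ^ (2 * R - 1) := by
      rw [← pow_succ']
      congr 1
      omega
    have h3 : V ^ (2 * R) * (n : ℝ) ^ R ≤ H * (n : ℝ) ^ R := by
      rw [h1, h2]
      exact mul_le_mul_of_nonneg_left hHR hH0.le
    exact le_of_mul_le_mul_right h3 (by positivity)
  have hmain : H * (N : ℝ) ^ R + (N : ℝ) ^ (3 * R) ≤ 2 * H * V ^ R := by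
    have h1 : (N : ℝ) ^ R ≤ V ^ R := pow_le_pow_left₀ (Nat.cast_nonneg _) hNV R
    have h2 : (N : ℝ) ^ (3 * R) ≤ V ^ (3 * R) := pow_le_pow_left₀ (Nat.cast_nonneg _) hNV _
    have h3 : V ^ (3 * R) = V ^ (2 * R) * V ^ R := by rw [← pow_add]; congr 1; ring
    have h4 : V ^ (2 * R) * V ^ R ≤ H * V ^ R := mul_le_mul_of_nonneg_right hV2R (by positivity)
    have h5 : H * (N : ℝ) ^ R ≤ H * V ^ R := mul_le_mul_of_nonneg_left h1 hH0.le
    linarith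
  have hK : (H / w) ^ (2 * R) * V ^ R = 64 ^ R * (n : ℝ) ^ R := by
    have h1 : (H / w) ^ 2 * V = 64 * n := by
      rw [div_pow, hw2, ← hV2]
      field_simp
    rw [pow_mul, ← mul_pow, h1, mul_pow]
  calc ∑ h ∈ HS H, ‖∑ m ∈ I h n, ((h / (m * Real.sqrt m) : ℝ) : ℂ) *
          e ((h : ℝ) ^ 2 / (4 * m))‖ ^ (2 * R)
      ≤ ∑ h ∈ HS H, (H / w) ^ (2 * R) *
        ‖∑ m ∈ Finset.Ico (u h) (v h), c m * e ((h : ℝ) ^ 2 / (4 * m))‖ ^ (2 * R) :=
        Finset.sum_le_sum hterm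
    _ = (H / w) ^ (2 * R) * ∑ h ∈ HS H,
        ‖∑ m ∈ Finset.Ico (u h) (v h), c m * e ((h : ℝ) ^ 2 / (4 * m))‖ ^ (2 * R) := by
        rw [Finset.mul_sum]
    _ ≤ (H / w) ^ (2 * R) * (C * (N : ℝ) ^ eps * (H * (N : ℝ) ^ R + (N : ℝ) ^ (3 * R))) :=
        mul_le_mul_of_nonneg_left hB (by positivity)
    _ ≤ (H / w) ^ (2 * R) * (C * (n : ℝ) ^ eps * (2 * H * V ^ R)) := by
        refine mul_le_mul_of_nonneg_left ?_ (by positivity)
        exact mul_le_mul (mul_le_mul_of_nonneg_left hNeps hC0) hmain (by positivity)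
          (by positivity)
    _ = C * 2 * H * (n : ℝ) ^ eps * ((H / w) ^ (2 * R) * V ^ R) := by ring
    _ = C * 2 * H * (n : ℝ) ^ eps * (64 ^ R * (n : ℝ) ^ R) := by rw [hK]
    _ = C * (2 * 64 ^ R) * H * ((n : ℝ) ^ R * (n : ℝ) ^ eps) := by ring
    _ = C * (2 * 64 ^ R) * H * (n : ℝ) ^ (R + eps) := by
        rw [Real.rpow_add hn0, Real.rpow_natCast]

end Pool.Agent.SQ42
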