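import Pool.Agent.SQ42.Main1a
import Pool.Agent.SQ42.Ival

/-! Main1S96: proof of dual_moment (shadow). -/

set_option autoImplicit false

namespace Pool.Agent.SQ42.S96

open Pool.Agent.SQ42

theorem dual_moment (R : ℕ) (hR : 1 ≤ R) (eps : ℝ) (heps : 0 < eps) :
    ∃ C : ℝ, 0 ≤ C ∧ ∀ n : ℕ, 1 ≤ n → ∀ H : ℝ, Real.sqrt n ≤ H →
      H ^ (2 * R - 1) ≤ (n : ℝ) ^ R →
      ∑ h ∈ HS H, ‖∑ m ∈ I h n, ((h / (m * Real.sqrt m) : ℝ) : ℂ) *
          e ((h : ℝ) ^ 2 / (4 * m))‖ ^ (2 * R) ≤ C * H * (n : ℝ) ^ (R + eps) := by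
  obtain ⟨C0, hC0, hblock⟩ := block_moment R hR eps heps
  refine ⟨C0 * 2 * 64 ^ R, by positivity, ?_⟩
  intro n hn H hH hHn
  have hn1 : (1 : ℝ) ≤ n := by exact_mod_cast hn
  have hn0 : (0 : ℝ) < n := by linarith
  set q : ℝ := Real.sqrt n with hq
  have hq1 : 1 ≤ q := by
    rw [hq]
    exact Real.one_le_sqrt.2 hn1
  have hq0 : 0 < q := by linarith
  have hqq : q ^ 2 = n := Real.sq_sqrt hn0.le
  have hH1 : 1 ≤ H := hq1.trans hH
  have hH0 : 0 < H := by linarith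
  set V : ℝ := H / q with hV
  have hV1 : 1 ≤ V := by
    rw [hV, le_div_iff₀ hq0]
    linarith
  have hV0 : 0 < V := by linarith
  set N : ℕ := ⌊V⌋₊ with hN
  have hN1 : 1 ≤ N := by
    rw [hN]
    exact Nat.le_floor (by exact_mod_cast hV1)
  have hNV : (N : ℝ) ≤ V := Nat.floor_le hV0.le
  have hN1' : (1 : ℝ) ≤ N := by exact_mod_cast hN1
  -- H ≤ n
  have hHle : H ≤ n := by
    by_contra hlt
    push Not at hlt
    have h1 : (n : ℝ) ^ R ≤ (n : ℝ) ^ (2 * R - 1) := pow_le_pow_right₀ hn1 (by omega)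
    have h2 : (n : ℝ) ^ (2 * R - 1) < H ^ (2 * R - 1) :=
      pow_lt_pow_left₀ hlt hn0.le (by omega)
    linarith
  have hVH : V ≤ H := by
    rw [hV, div_le_iff₀ hq0]
    nlinarith
  -- W
  set W : ℝ := V / 4 * Real.sqrt (V / 4) with hW
  have hV4 : 0 < V / 4 := by positivity
  have hW0 : 0 < W := mul_pos hV4 (Real.sqrt_pos.2 hV4)
  have hW2 : W ^ 2 = V ^ 3 / 64 := by
    rw [hW, mul_pow, Real.sq_sqrt hV4.le]
    ring
  -- coefficients
  set c : ℕ → ℂ := fun m => if V / 4 ≤ m then ((W / (m * Real.sqrt m) : ℝ) : ℂ) else 0 with hc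
  have hc1 : ∀ m, ‖c m‖ ≤ 1 := by
    intro m
    simp only [hc]
    split_ifs with h
    · rw [Complex.norm_real, Real.norm_eq_abs]
      have hm0 : (0 : ℝ) < m := lt_of_lt_of_le hV4 h
      have hden : 0 < (m : ℝ) * Real.sqrt m := mul_pos hm0 (Real.sqrt_pos.2 hm0)
      rw [abs_of_nonneg (div_nonneg hW0.le hden.le), div_le_one hden, hW]
      exact mul_le_mul h (Real.sqrt_le_sqrt h) (Real.sqrt_nonneg _) hm0.le
    · simp
  obtain ⟨u, v, huv⟩ := ival n hn H hH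
  have hmem : ∀ h ∈ HS H, 1 ≤ h ∧ (h : ℝ) ≤ H ∧ H ≤ 2 * (h : ℝ) := by
    intro h hh
    unfold HS at hh
    rw [Finset.mem_filter, Finset.mem_Icc] at hh
    exact ⟨hh.1.1, (Nat.cast_le.2 hh.1.2).trans (Nat.floor_le hH0.le), hh.2⟩
  have hb := hblock N hN1 H hH1 c hc1 u v (fun h hh => by
    obtain ⟨h1, h2, _⟩ := hmem h hh
    obtain ⟨a1, a2, a3, _⟩ := huv h h1 h2
    exact ⟨a1, a2, a3⟩)
  have hterm : ∀ h ∈ HS H,
      ‖∑ m ∈ I h n, ((h / (m * Real.sqrt m) : ℝ) : ℂ) * e ((h : ℝ) ^ 2 / (4 * m))‖ ^ (2 * R) ≤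
      (H / W) ^ (2 * R) * ‖∑ m ∈ Finset.Ico (u h) (v h), c m * e ((h : ℝ) ^ 2 / (4 * m))‖ ^ (2 * R)
      := by
    intro h hh
    obtain ⟨h1, h2, h3⟩ := hmem h hh
    obtain ⟨_, _, _, a4⟩ := huv h h1 h2
    have e1 : ∑ m ∈ I h n, ((h / (m * Real.sqrt m) : ℝ) : ℂ) * e ((h : ℝ) ^ 2 / (4 * m)) =
        ((h / W : ℝ) : ℂ) * ∑ m ∈ Finset.Ico (u h) (v h), c m * e ((h : ℝ) ^ 2 / (4 * m)) := by
      rw [← a4, Finset.mul_sum]
      apply Finset.sum_congr rfl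
      intro m hm
      have hlow : V / 4 ≤ m := ival_low n h m hn H h3 hm
      have hm0 : (0 : ℝ) < m := lt_of_lt_of_le hV4 hlow
      have hden : (m : ℝ) * Real.sqrt m ≠ 0 := (mul_pos hm0 (Real.sqrt_pos.2 hm0)).ne'
      have e2 : c m = ((W / (m * Real.sqrt m) : ℝ) : ℂ) := by
        simp only [hc]
        rw [if_pos hlow]
      rw [e2, ← mul_assoc, ← Complex.ofReal_mul]
      congr 2
      field_simp
    rw [e1, norm_mul, mul_pow, Complex.norm_real, Real.norm_eq_abs,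
      abs_of_nonneg (div_nonneg (Nat.cast_nonneg h) hW0.le)]
    apply mul_le_mul_of_nonneg_right _ (by positivity)
    exact pow_le_pow_left₀ (div_nonneg (Nat.cast_nonneg h) hW0.le)
      (div_le_div_of_nonneg_right h2 hW0.le) _
  have hpowR : V ^ (2 * R) ≤ H := by
    have e1 : V ^ (2 * R) * (n : ℝ) ^ R = H ^ (2 * R - 1) * H := by
      rw [← pow_succ, show 2 * R - 1 + 1 = 2 * R by omega, ← hqq, ← pow_mul, hV, div_pow,
        div_mul_cancel₀]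
      positivity
    have hnR : 0 < (n : ℝ) ^ R := by positivity
    have e2 : V ^ (2 * R) * (n : ℝ) ^ R ≤ H * (n : ℝ) ^ R := by
      rw [e1, mul_comm]
      exact mul_le_mul_of_nonneg_left hHn hH0.le
    exact le_of_mul_le_mul_right e2 hnR
  have hmain : (H / W) ^ (2 * R) * (H * V ^ R + V ^ (3 * R)) ≤ 2 * 64 ^ R * (H * (n : ℝ) ^ R) := by
    have h1 : V ^ (3 * R) ≤ H * V ^ R := by
      have : V ^ (3 * R) = V ^ (2 * R) * V ^ R := by
        rw [← pow_add]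
        congr 1
        ring
      rw [this]
      exact mul_le_mul_of_nonneg_right hpowR (by positivity)
    have h2 : (H / W) ^ (2 * R) * V ^ R = 64 ^ R * (n : ℝ) ^ R := by
      rw [pow_mul, div_pow, hW2, ← mul_pow, ← mul_pow]
      congr 1
      rw [← hqq, hV]
      field_simp
    calc (H / W) ^ (2 * R) * (H * V ^ R + V ^ (3 * R))
        ≤ (H / W) ^ (2 * R) * (H * V ^ R + H * V ^ R) := by
          apply mul_le_mul_of_nonneg_left _ (by positivity)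
          linarith
      _ = 2 * H * ((H / W) ^ (2 * R) * V ^ R) := by ring
      _ = 2 * 64 ^ R * (H * (n : ℝ) ^ R) := by rw [h2]; ring
  calc ∑ h ∈ HS H, ‖∑ m ∈ I h n, ((h / (m * Real.sqrt m) : ℝ) : ℂ) *
          e ((h : ℝ) ^ 2 / (4 * m))‖ ^ (2 * R)
      ≤ ∑ h ∈ HS H, (H / W) ^ (2 * R) *
          ‖∑ m ∈ Finset.Ico (u h) (v h), c m * e ((h : ℝ) ^ 2 / (4 * m))‖ ^ (2 * R) :=
        Finset.sum_le_sum hterm
    _ = (H / W) ^ (2 * R) * ∑ h ∈ HS H,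
          ‖∑ m ∈ Finset.Ico (u h) (v h), c m * e ((h : ℝ) ^ 2 / (4 * m))‖ ^ (2 * R) := by
        rw [Finset.mul_sum]
    _ ≤ (H / W) ^ (2 * R) * (C0 * (N : ℝ) ^ eps * (H * (N : ℝ) ^ R + (N : ℝ) ^ (3 * R))) :=
        mul_le_mul_of_nonneg_left hb (by positivity)
    _ ≤ (H / W) ^ (2 * R) * (C0 * (n : ℝ) ^ eps * (H * V ^ R + V ^ (3 * R))) := by
        apply mul_le_mul_of_nonneg_left _ (by positivity)
        have k1 : (N : ℝ) ^ eps ≤ (n : ℝ) ^ eps :=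
          Real.rpow_le_rpow (by linarith) (hNV.trans (hVH.trans hHle)) heps.le
        have k2 : H * (N : ℝ) ^ R + (N : ℝ) ^ (3 * R) ≤ H * V ^ R + V ^ (3 * R) := by
          have k3 : (N : ℝ) ^ R ≤ V ^ R := pow_le_pow_left₀ (by linarith) hNV R
          have k4 : (N : ℝ) ^ (3 * R) ≤ V ^ (3 * R) := pow_le_pow_left₀ (by linarith) hNV _
          nlinarith
        apply mul_le_mul (mul_le_mul_of_nonneg_left k1 hC0) k2 (by positivity) (by positivity)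
    _ = C0 * (n : ℝ) ^ eps * ((H / W) ^ (2 * R) * (H * V ^ R + V ^ (3 * R))) := by ring
    _ ≤ C0 * (n : ℝ) ^ eps * (2 * 64 ^ R * (H * (n : ℝ) ^ R)) :=
        mul_le_mul_of_nonneg_left hmain (by positivity)
    _ = C0 * 2 * 64 ^ R * H * (n : ℝ) ^ (R + eps) := by
        rw [Real.rpow_add hn0, Real.rpow_natCast]
        ring

end Pool.Agent.SQ42.S96
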