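import Pool.Agent.SQ42.Expo

/-! Main1a: mom and expo together for the interval of h.

Proof. HS H = Ico (ceil(H/2)) (floor H + 1), length <= H/2 + 1 <= 2 H. L = Nat.log 2 N + 1: N + 1 <= 2^L;
mom and expo (eps/2); (2(L+1))^(2R) (L+1) <= C N^(eps/2) since L <= 1 + log N/log 2. -/

namespace Pool.Agent.SQ42

/-- the integers h with H/2 <= h <= H (h >= 1). -/
noncomputable def HS (H : ℝ) : Finset ℕ := (Finset.Icc 1 ⌊H⌋₊).filter (fun h => H ≤ 2 * (h : ℝ))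

theorem HS_eq (H : ℝ) (hH : 1 ≤ H) : ∃ u v : ℕ, u ≤ v ∧ (v : ℝ) - u ≤ 2 * H ∧
    HS H = Finset.Ico u v := by
  have hH0 : 0 ≤ H := by linarith
  have hu : ⌈H / 2⌉₊ ≤ ⌊H⌋₊ + 1 := by
    rw [Nat.ceil_le]
    push_cast
    have := Nat.lt_floor_add_one H
    linarith
  refine ⟨⌈H / 2⌉₊, ⌊H⌋₊ + 1, hu, ?_, ?_⟩
  · push_cast
    have h1 := Nat.floor_le hH0
    have h2 : (0 : ℝ) ≤ (⌈H / 2⌉₊ : ℝ) := Nat.cast_nonneg _
    linarith
  · ext h
    unfold HS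
    rw [Finset.mem_filter, Finset.mem_Icc, Finset.mem_Ico, Nat.ceil_le]
    constructor
    · rintro ⟨⟨h1, h2⟩, h3⟩
      exact ⟨by linarith, by omega⟩
    · rintro ⟨h1, h2⟩
      have h3 : (0 : ℝ) < h := by linarith
      have h4 : 0 < h := by exact_mod_cast h3
      exact ⟨⟨h4, by omega⟩, by linarith⟩

/-- a power of the logarithm is at most a small power -/
theorem log_pow_le2 (k : ℕ) (eps : ℝ) (heps : 0 < eps) :
    ∃ C : ℝ, 0 ≤ C ∧ ∀ n : ℕ, 1 ≤ n → (1 + Real.log n) ^ k ≤ C * (n : ℝ) ^ eps := by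
  rcases Nat.eq_zero_or_pos k with rfl | hk
  · refine ⟨1, zero_le_one, fun n hn => ?_⟩
    rw [pow_zero, one_mul]
    exact Real.one_le_rpow (by exact_mod_cast hn) heps.le
  have hk0 : (0 : ℝ) < k := by exact_mod_cast hk
  have hd : 0 < eps / k := div_pos heps hk0
  refine ⟨(1 + 1 / (eps / k)) ^ k, by positivity, fun n hn => ?_⟩
  have hn1 : (1 : ℝ) ≤ n := by exact_mod_cast hn
  have hn0 : (0 : ℝ) ≤ n := by linarith
  have h1 : Real.log n ≤ (n : ℝ) ^ (eps / k) / (eps / k) := Real.log_le_rpow_div hn0 hd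
  have h2 : (1 : ℝ) ≤ (n : ℝ) ^ (eps / k) := Real.one_le_rpow hn1 hd.le
  have h3 : 0 ≤ Real.log n := Real.log_nonneg hn1
  have h4 : 1 + Real.log n ≤ (1 + 1 / (eps / k)) * (n : ℝ) ^ (eps / k) := by
    have : (1 + 1 / (eps / k)) * (n : ℝ) ^ (eps / k) =
        (n : ℝ) ^ (eps / k) + (n : ℝ) ^ (eps / k) / (eps / k) := by ring
    rw [this]
    linarith
  calc (1 + Real.log n) ^ k ≤ ((1 + 1 / (eps / k)) * (n : ℝ) ^ (eps / k)) ^ k :=
        pow_le_pow_left₀ (by linarith) h4 k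
    _ = (1 + 1 / (eps / k)) ^ k * (n : ℝ) ^ eps := by
        rw [mul_pow]
        congr 1
        rw [← Real.rpow_natCast ((n : ℝ) ^ (eps / k)) k, ← Real.rpow_mul hn0]
        congr 1
        field_simp

theorem block_moment (R : ℕ) (hR : 1 ≤ R) (eps : ℝ) (heps : 0 < eps) :
    ∃ C : ℝ, 0 ≤ C ∧ ∀ N : ℕ, 1 ≤ N → ∀ H : ℝ, 1 ≤ H → ∀ c : ℕ → ℂ, (∀ m, ‖c m‖ ≤ 1) →
      ∀ u v : ℕ → ℕ, (∀ h ∈ HS H, 1 ≤ u h ∧ u h ≤ v h ∧ v h ≤ N + 1) →
      ∑ h ∈ HS H, ‖∑ m ∈ Finset.Ico (u h) (v h), c m * e ((h : ℝ) ^ 2 / (4 * m))‖ ^ (2 * R) ≤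
        C * (N : ℝ) ^ eps * (H * (N : ℝ) ^ R + (N : ℝ) ^ (3 * R)) := by
  obtain ⟨C1, hC1, hex⟩ := expo R hR (eps / 2) (by linarith)
  obtain ⟨C2, hC2, hlg⟩ := log_pow_le2 (2 * R + 1) (eps / 2) (by linarith)
  refine ⟨8 ^ (2 * R + 1) * C2 * (2 * C1), by positivity, fun N hN H hH c hc u v huv => ?_⟩
  have hN1 : (1 : ℝ) ≤ N := by exact_mod_cast hN
  have hN0 : (0 : ℝ) < N := by linarith
  obtain ⟨U, V, hUV, hlen, hHS⟩ := HS_eq H hH
  set L : ℕ := Nat.log 2 N + 1 with hL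
  have hL2 : N + 1 ≤ 2 ^ L := Nat.lt_pow_succ_log_self (by norm_num) N
  have hm := mom R hR c hc N L hN hL2 (HS H) u v (fun h hh => (huv h hh).1)
    (fun h hh => (huv h hh).2.1) (fun h hh => (huv h hh).2.2)
  rw [hHS] at hm ⊢
  have hx := hex N U V hN hUV
  -- the logarithm
  have hLle : (L : ℝ) + 1 ≤ 4 * (1 + Real.log N) := by
    have h1 : (Nat.log 2 N : ℝ) ≤ Real.log N / Real.log 2 := by
      rw [le_div_iff₀ (Real.log_pos (by norm_num))]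
      have h2 : (2 : ℝ) ^ (Nat.log 2 N) ≤ N := by
        exact_mod_cast Nat.pow_log_le_self 2 (by omega)
      have h3 := Real.log_le_log (by positivity) h2
      rwa [Real.log_pow] at h3
    have h2 : Real.log N / Real.log 2 ≤ 2 * Real.log N := by
      rw [div_le_iff₀ (Real.log_pos (by norm_num))]
      have h3 := Real.log_two_gt_d9
      have h4 := Real.log_nonneg hN1
      nlinarith
    have h3 := Real.log_nonneg hN1
    rw [hL]
    push_cast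
    linarith
  have hlog0 : 0 ≤ Real.log N := Real.log_nonneg hN1
  have hpre : (2 * (L + 1) : ℝ) ^ (2 * R) * (L + 1) ≤ 8 ^ (2 * R + 1) * (C2 * (N : ℝ) ^ (eps / 2)) := by
    have h1 : (0 : ℝ) ≤ 2 * (L + 1) := by positivity
    have h2 : (2 * ((L : ℝ) + 1)) ≤ 8 * (1 + Real.log N) := by linarith
    calc (2 * (L + 1) : ℝ) ^ (2 * R) * (L + 1) ≤ (2 * (L + 1) : ℝ) ^ (2 * R) * (2 * (L + 1)) := by
          refine mul_le_mul_of_nonneg_left ?_ (by positivity)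
          have : (0 : ℝ) ≤ (L : ℝ) + 1 := by positivity
          linarith
      _ = (2 * (L + 1) : ℝ) ^ (2 * R + 1) := by rw [pow_succ]
      _ ≤ (8 * (1 + Real.log N)) ^ (2 * R + 1) := pow_le_pow_left₀ h1 h2 _
      _ = 8 ^ (2 * R + 1) * (1 + Real.log N) ^ (2 * R + 1) := by rw [mul_pow]
      _ ≤ 8 ^ (2 * R + 1) * (C2 * (N : ℝ) ^ (eps / 2)) :=
          mul_le_mul_of_nonneg_left (hlg N hN) (by positivity)
  have hsum : (((V : ℝ) - U) * (N : ℝ) ^ R + (N : ℝ) ^ (3 * R)) ≤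
      2 * (H * (N : ℝ) ^ R + (N : ℝ) ^ (3 * R)) := by
    have h1 : ((V : ℝ) - U) * (N : ℝ) ^ R ≤ 2 * H * (N : ℝ) ^ R :=
      mul_le_mul_of_nonneg_right hlen (by positivity)
    have h2 : (0 : ℝ) ≤ (N : ℝ) ^ (3 * R) := by positivity
    linarith
  have hB0 : (0 : ℝ) ≤ H * (N : ℝ) ^ R + (N : ℝ) ^ (3 * R) := by positivity
  have he : (N : ℝ) ^ (eps / 2) * (N : ℝ) ^ (eps / 2) = (N : ℝ) ^ eps := by
    rw [← Real.rpow_add hN0]
    congr 1
    ring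
  refine hm.trans ?_
  calc _ ≤ (8 ^ (2 * R + 1) * (C2 * (N : ℝ) ^ (eps / 2))) *
        (C1 * (N : ℝ) ^ (eps / 2) * (2 * (H * (N : ℝ) ^ R + (N : ℝ) ^ (3 * R)))) := by
        refine mul_le_mul hpre (hx.trans ?_) (Finset.sum_nonneg fun _ _ => norm_nonneg _) (by positivity)
        exact mul_le_mul_of_nonneg_left hsum (by positivity)
    _ = 8 ^ (2 * R + 1) * C2 * (2 * C1) * ((N : ℝ) ^ (eps / 2) * (N : ℝ) ^ (eps / 2)) *
        (H * (N : ℝ) ^ R + (N : ℝ) ^ (3 * R)) := by ring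
    _ = 8 ^ (2 * R + 1) * C2 * (2 * C1) * (N : ℝ) ^ eps * (H * (N : ℝ) ^ R + (N : ℝ) ^ (3 * R)) := by
        rw [he]

end Pool.Agent.SQ42
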