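import Pool.Agent.SQ42.Main1
import Pool.Agent.SQ42.BProc

/-! Main2: integer moments, then real exponents.

Proof of int_moment. H <= n (from H^(2R-1) <= n^R <= n^(2R-1)), so bproc applies to every h in HS H
(sqrt n <= H <= 2h): |S h n| <= |K| |T_h| + C sqrt n (1 + log n); (x+y)^(2R) <= 2^(2R) (x^(2R) + y^(2R));
dual_moment; the second part is <= #HS (C sqrt n (1 + log n))^(2R) <= 2 H C' n^(R+eps).
Proof of real_moment. R = ceil r. Jensen: sum_h |S|^(2r) <= (sum_h |S|^(2R))^(r/R) (#HS)^(1 - r/R),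
#HS <= 2 H; int_moment with eps: exponent (R + eps) r/R <= r + eps. H <= n^(1/2 + 1/(4R-2)) means
H^(2R-1) <= n^R. -/

namespace Pool.Agent.SQ42

/-- a power of the logarithm is at most a small power -/
theorem log_pow_le (k : ℕ) (hk : 1 ≤ k) (eps : ℝ) (heps : 0 < eps) :
    ∃ C : ℝ, 0 ≤ C ∧ ∀ n : ℕ, 1 ≤ n → (1 + Real.log n) ^ k ≤ C * (n : ℝ) ^ eps := by
  have hk0 : (0 : ℝ) < k := by exact_mod_cast hk
  have hd : 0 < eps / k := div_pos heps hk0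
  refine ⟨(1 + 1 / (eps / k)) ^ k, by positivity, fun n hn => ?_⟩
  have hn1 : (1 : ℝ) ≤ n := by exact_mod_cast hn
  have hn0 : (0 : ℝ) ≤ n := by linarith
  have h1 : Real.log n ≤ (n : ℝ) ^ (eps / k) / (eps / k) := Real.log_le_rpow_div hn0 hd
  have h2 : (1 : ℝ) ≤ (n : ℝ) ^ (eps / k) := Real.one_le_rpow hn1 hd.le
  have h3 : 0 ≤ Real.log n := Real.log_nonneg hn1
  have h4 : 1 + Real.log n ≤ (1 + 1 / (eps / k)) * (n : ℝ) ^ (eps / k) := by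
    have : (1 + 1 / (eps / k)) * (n : ℝ) ^ (eps / k) =
        (n : ℝ) ^ (eps / k) + (n : ℝ) ^ (eps / k) / (eps / k) := by ring
    rw [this]
    linarith
  calc (1 + Real.log n) ^ k ≤ ((1 + 1 / (eps / k)) * (n : ℝ) ^ (eps / k)) ^ k :=
        pow_le_pow_left₀ (by linarith) h4 k
    _ = (1 + 1 / (eps / k)) ^ k * (n : ℝ) ^ eps := by
        rw [mul_pow]
        congr 1
        rw [← Real.rpow_natCast ((n : ℝ) ^ (eps / k)) k, ← Real.rpow_mul hn0]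
        congr 1
        field_simp

theorem int_moment (R : ℕ) (hR : 1 ≤ R) (eps : ℝ) (heps : 0 < eps) :
    ∃ C : ℝ, 0 ≤ C ∧ ∀ n : ℕ, 1 ≤ n → ∀ H : ℝ, Real.sqrt n ≤ H →
      H ^ (2 * R - 1) ≤ (n : ℝ) ^ R →
      ∑ h ∈ HS H, ‖S h n‖ ^ (2 * R) ≤ C * H * (n : ℝ) ^ (R + eps) := by
  obtain ⟨K, C1, hC1, hb⟩ := bproc
  obtain ⟨C2, hC2, hd⟩ := dual_moment R hR eps heps
  obtain ⟨C3, hC3, hl⟩ := log_pow_le (2 * R) (by omega) eps heps
  refine ⟨2 ^ (2 * R - 1) * (‖K‖ ^ (2 * R) * C2 + C1 ^ (2 * R) * C3), by positivity,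
    fun n hn H hH hHn => ?_⟩
  have hn1 : (1 : ℝ) ≤ n := by exact_mod_cast hn
  have hn0 : (0 : ℝ) < n := by linarith
  have hs1 : 1 ≤ Real.sqrt n := Real.one_le_sqrt.2 hn1
  have hH1 : 1 ≤ H := hs1.trans hH
  have hHle : H ≤ n := by
    by_contra hc
    push Not at hc
    have h1 : (n : ℝ) ^ (2 * R - 1) < H ^ (2 * R - 1) := pow_lt_pow_left₀ hc hn0.le (by omega)
    have h2 : (n : ℝ) ^ R ≤ (n : ℝ) ^ (2 * R - 1) := pow_le_pow_right₀ hn1 (by omega)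
    linarith
  have hlog : 0 ≤ Real.log n := Real.log_nonneg hn1
  set T : ℕ → ℂ := fun h => ∑ m ∈ I h n, ((h / (m * Real.sqrt m) : ℝ) : ℂ) * e ((h : ℝ) ^ 2 / (4 * m))
    with hT
  set E : ℝ := C1 * Real.sqrt n * (1 + Real.log n) with hE
  have hE0 : 0 ≤ E := by positivity
  have hterm : ∀ h ∈ HS H, ‖S h n‖ ^ (2 * R) ≤
      2 ^ (2 * R - 1) * (‖K‖ ^ (2 * R) * ‖T h‖ ^ (2 * R) + E ^ (2 * R)) := by
    intro h hh
    unfold HS at hh
    rw [Finset.mem_filter, Finset.mem_Icc] at hh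
    obtain ⟨⟨h1, h2⟩, h3⟩ := hh
    have h4 : (h : ℝ) ≤ H := (Nat.cast_le.2 h2).trans (Nat.floor_le (by linarith))
    have h5 : h ≤ n := by
      have : (h : ℝ) ≤ n := h4.trans hHle
      exact_mod_cast this
    have h6 := hb n h hn h1 h5 (hH.trans h3)
    have h7 : ‖S h n‖ ≤ ‖K‖ * ‖T h‖ + E := by
      have e1 : S h n = (S h n - K * T h) + K * T h := by ring
      calc ‖S h n‖ = ‖(S h n - K * T h) + K * T h‖ := by rw [← e1]
        _ ≤ ‖S h n - K * T h‖ + ‖K * T h‖ := norm_add_le _ _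
        _ ≤ E + ‖K‖ * ‖T h‖ := by
            rw [norm_mul]
            exact add_le_add h6 le_rfl
        _ = ‖K‖ * ‖T h‖ + E := by ring
    calc ‖S h n‖ ^ (2 * R) ≤ (‖K‖ * ‖T h‖ + E) ^ (2 * R) := pow_le_pow_left₀ (norm_nonneg _) h7 _
      _ ≤ 2 ^ (2 * R - 1) * ((‖K‖ * ‖T h‖) ^ (2 * R) + E ^ (2 * R)) :=
          add_pow_le (by positivity) hE0 _
      _ = 2 ^ (2 * R - 1) * (‖K‖ ^ (2 * R) * ‖T h‖ ^ (2 * R) + E ^ (2 * R)) := by rw [mul_pow]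
  have hcard : ((HS H).card : ℝ) ≤ H := by
    have h1 : (HS H).card ≤ ⌊H⌋₊ := by
      unfold HS
      refine (Finset.card_filter_le _ _).trans ?_
      rw [Nat.card_Icc]
      omega
    exact (Nat.cast_le.2 h1).trans (Nat.floor_le (by linarith))
  have hEp : E ^ (2 * R) ≤ C1 ^ (2 * R) * C3 * (n : ℝ) ^ (R + eps) := by
    have e1 : E ^ (2 * R) = C1 ^ (2 * R) * (n : ℝ) ^ R * (1 + Real.log n) ^ (2 * R) := by
      rw [hE, mul_pow, mul_pow]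
      congr 2
      rw [pow_mul, Real.sq_sqrt hn0.le]
    rw [e1, Real.rpow_add hn0, Real.rpow_natCast]
    have h1 := hl n hn
    have h2 : 0 ≤ C1 ^ (2 * R) * (n : ℝ) ^ R := by positivity
    calc C1 ^ (2 * R) * (n : ℝ) ^ R * (1 + Real.log n) ^ (2 * R) ≤
          C1 ^ (2 * R) * (n : ℝ) ^ R * (C3 * (n : ℝ) ^ eps) := mul_le_mul_of_nonneg_left h1 h2
      _ = C1 ^ (2 * R) * C3 * ((n : ℝ) ^ R * (n : ℝ) ^ eps) := by ring
  have hd' := hd n hn H hH hHn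
  calc ∑ h ∈ HS H, ‖S h n‖ ^ (2 * R) ≤
        ∑ h ∈ HS H, 2 ^ (2 * R - 1) * (‖K‖ ^ (2 * R) * ‖T h‖ ^ (2 * R) + E ^ (2 * R)) :=
        Finset.sum_le_sum hterm
    _ = 2 ^ (2 * R - 1) * (‖K‖ ^ (2 * R) * (∑ h ∈ HS H, ‖T h‖ ^ (2 * R)) +
        (HS H).card * E ^ (2 * R)) := by
        rw [← Finset.mul_sum, Finset.sum_add_distrib, ← Finset.mul_sum, Finset.sum_const, nsmul_eq_mul]
    _ ≤ 2 ^ (2 * R - 1) * (‖K‖ ^ (2 * R) * (C2 * H * (n : ℝ) ^ (R + eps)) +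
        H * (C1 ^ (2 * R) * C3 * (n : ℝ) ^ (R + eps))) := by
        refine mul_le_mul_of_nonneg_left (add_le_add ?_ ?_) (by positivity)
        · exact mul_le_mul_of_nonneg_left hd' (by positivity)
        · exact mul_le_mul hcard hEp (by positivity) (by linarith)
    _ = 2 ^ (2 * R - 1) * (‖K‖ ^ (2 * R) * C2 + C1 ^ (2 * R) * C3) * H * (n : ℝ) ^ (R + eps) := by
        ring

end Pool.Agent.SQ42
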