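import Pool.Agent.SQ42.Main2

/-! Main3 (real_moment): integer moments, then real exponents.

Proof of int_moment. H <= n (from H^(2R-1) <= n^R <= n^(2R-1)), so bproc applies to every h in HS H
(sqrt n <= H <= 2h): |S h n| <= |K| |T_h| + C sqrt n (1 + log n); (x+y)^(2R) <= 2^(2R) (x^(2R) + y^(2R));
dual_moment; the second part is <= #HS (C sqrt n (1 + log n))^(2R) <= 2 H C' n^(R+eps).
Proof of real_moment. R = ceil r. Jensen: sum_h |S|^(2r) <= (sum_h |S|^(2R))^(r/R) (#HS)^(1 - r/R),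
#HS <= 2 H; int_moment with eps: exponent (R + eps) r/R <= r + eps. H <= n^(1/2 + 1/(4R-2)) means
H^(2R-1) <= n^R. -/

namespace Pool.Agent.SQ42

theorem real_moment (r : ℝ) (hr : 1 ≤ r) (eps : ℝ) (heps : 0 < eps) :
    ∃ C : ℝ, 0 ≤ C ∧ ∀ n : ℕ, 1 ≤ n → ∀ H : ℝ, (n : ℝ) ^ (1 / 2 : ℝ) ≤ H →
      H ≤ (n : ℝ) ^ (1 / 2 + 1 / (4 * (⌈r⌉₊ : ℝ) - 2)) →
      ∑ h ∈ HS H, ‖S h n‖ ^ (2 * r) ≤ C * H * (n : ℝ) ^ (r + eps) := by
  set R : ℕ := ⌈r⌉₊ with hRdef
  have hrR : r ≤ R := Nat.le_ceil r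
  have hR1 : 1 ≤ R := by
    have : (1 : ℝ) ≤ R := hr.trans hrR
    exact_mod_cast this
  have hR1' : (1 : ℝ) ≤ R := by exact_mod_cast hR1
  have hr0 : 0 < r := by linarith
  obtain ⟨C, hC, hint⟩ := int_moment R hR1 eps heps
  set p : ℝ := R / r with hp
  have hp1 : 1 ≤ p := (one_le_div hr0).2 hrR
  have hp0 : 0 < p := by linarith
  refine ⟨C ^ (1 / p), Real.rpow_nonneg hC _, fun n hn H hH1 hH2 => ?_⟩
  have hn1 : (1 : ℝ) ≤ n := by exact_mod_cast hn
  have hn0 : (0 : ℝ) < n := by linarith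
  have hH0 : 1 ≤ H := (Real.one_le_rpow hn1 (by norm_num)).trans hH1
  have hHpos : 0 < H := by linarith
  have hden : (0 : ℝ) < 4 * R - 2 := by linarith
  have hHR : H ^ (2 * R - 1) ≤ (n : ℝ) ^ R := by
    have h1 : H ^ (2 * R - 1) ≤ ((n : ℝ) ^ (1 / 2 + 1 / (4 * (R : ℝ) - 2))) ^ (2 * R - 1) :=
      pow_le_pow_left₀ hHpos.le hH2 _
    refine h1.trans (le_of_eq ?_)
    rw [← Real.rpow_natCast ((n : ℝ) ^ (1 / 2 + 1 / (4 * (R : ℝ) - 2))) (2 * R - 1),
      ← Real.rpow_mul hn0.le, ← Real.rpow_natCast (n : ℝ) R]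
    congr 1
    rw [Nat.cast_sub (by omega)]
    push_cast
    field_simp
    ring
  have hmom := hint n hn H (by rw [Real.sqrt_eq_rpow]; exact hH1) hHR
  have hcard : ((HS H).card : ℝ) ≤ H := by
    have h1 : (HS H).card ≤ ⌊H⌋₊ := by
      unfold HS
      refine (Finset.card_filter_le _ _).trans ?_
      rw [Nat.card_Icc]
      omega
    exact (Nat.cast_le.2 h1).trans (Nat.floor_le (by linarith))
  set s : ℝ := ∑ h ∈ HS H, ‖S h n‖ ^ (2 * r) with hs
  have hs0 : 0 ≤ s := Finset.sum_nonneg fun _ _ => Real.rpow_nonneg (norm_nonneg _) _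
  have hjen : s ^ p ≤ ((HS H).card : ℝ) ^ (p - 1) * ∑ h ∈ HS H, ‖S h n‖ ^ (2 * R) := by
    have h1 := Real.rpow_sum_le_const_mul_sum_rpow_of_nonneg (s := HS H)
      (f := fun h => ‖S h n‖ ^ (2 * r)) hp1 (fun h _ => Real.rpow_nonneg (norm_nonneg _) _)
    refine h1.trans (le_of_eq ?_)
    congr 1
    refine Finset.sum_congr rfl fun h _ => ?_
    rw [← Real.rpow_mul (norm_nonneg _), ← Real.rpow_natCast]
    congr 1
    rw [hp]
    push_cast
    field_simp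
  have hcp : ((HS H).card : ℝ) ^ (p - 1) ≤ H ^ (p - 1) :=
    Real.rpow_le_rpow (Nat.cast_nonneg _) hcard (by linarith)
  have hsp : s ^ p ≤ C * H ^ p * (n : ℝ) ^ ((R : ℝ) + eps) := by
    refine hjen.trans ?_
    calc ((HS H).card : ℝ) ^ (p - 1) * ∑ h ∈ HS H, ‖S h n‖ ^ (2 * R) ≤
          H ^ (p - 1) * (C * H * (n : ℝ) ^ ((R : ℝ) + eps)) :=
          mul_le_mul hcp hmom (Finset.sum_nonneg fun _ _ => by positivity)
            (Real.rpow_nonneg hHpos.le _)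
      _ = C * (H ^ (p - 1) * H) * (n : ℝ) ^ ((R : ℝ) + eps) := by ring
      _ = C * H ^ p * (n : ℝ) ^ ((R : ℝ) + eps) := by
          congr 2
          conv_lhs => rw [← Real.rpow_one H, ← Real.rpow_mul hHpos.le, ← Real.rpow_add hHpos]
          congr 1
          ring
  have hfin : s ≤ (C * H ^ p * (n : ℝ) ^ ((R : ℝ) + eps)) ^ (1 / p) := by
    have h1 := Real.rpow_le_rpow (Real.rpow_nonneg hs0 _) hsp (z := 1 / p) (by positivity)
    rwa [← Real.rpow_mul hs0, mul_one_div_cancel hp0.ne', Real.rpow_one] at h1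
  refine hfin.trans ?_
  rw [Real.mul_rpow (by positivity) (by positivity), Real.mul_rpow hC (by positivity),
    ← Real.rpow_mul hHpos.le, mul_one_div_cancel hp0.ne', Real.rpow_one, ← Real.rpow_mul hn0.le]
  refine mul_le_mul_of_nonneg_left ?_ (by positivity)
  refine Real.rpow_le_rpow_of_exponent_le hn1 ?_
  rw [hp]
  have hRpos : (0 : ℝ) < R := by linarith
  have e1 : ((R : ℝ) + eps) * (1 / (R / r)) = r + eps * (r / R) := by
    field_simp
  rw [e1]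
  have h2 : r / R ≤ 1 := (div_le_one hRpos).2 hrR
  nlinarith

end Pool.Agent.SQ42
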