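import Pool.Agent.SQ42.MomA
import Pool.Agent.SQ42.Dyad

/-! Mom (mom): moments over h of the sums over m.

Proof of mom_block. f_h(m) = c m e(h^2/(4m)). |z|^(2R) = z^R conj(z)^R; expand both powers
(Finset.prod_univ_sum / sum_prod_piFinset): |sum_D f_h|^(2R) = sum_(x in D^(Fin R + Fin R)) W(x)
e(h^2 th x), |W x| <= 1, W independent of h. Sum over h in X and take norms.
Proof of mom. dyad with p = 2 R and a m = f_h(m) for 1 <= m <= N, 0 otherwise, for every h in X;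
for every (j,k) mom_block with D = Ico (k 2^j) ((k+1) 2^j) intersected with Icc 1 N; for fixed j the
sets of tuples D^(..) are disjoint subsets of (Icc 1 N)^(..) for different k (R >= 1), so the sum over
k is <= the sum over all tuples; the L + 1 values of j give the factor L + 1. -/

namespace Pool.Agent.SQ42

def dblock94 (N j k : ℕ) : Finset ℕ :=
  (Finset.Ico (k * 2 ^ j) ((k + 1) * 2 ^ j)).filter (fun m => 1 ≤ m ∧ m ≤ N)

theorem mem_dblock94 {N j k m : ℕ} :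
    m ∈ dblock94 N j k ↔ k * 2 ^ j ≤ m ∧ m < (k + 1) * 2 ^ j ∧ 1 ≤ m ∧ m ≤ N := by
  unfold dblock94
  rw [Finset.mem_filter, Finset.mem_Ico, and_assoc]

theorem dblock94_disj {R : ℕ} (hR : 1 ≤ R) (N j : ℕ) (K : Finset ℕ) :
    (K : Set ℕ).PairwiseDisjoint
      (fun k => Fintype.piFinset (fun _ : Fin R ⊕ Fin R => dblock94 N j k)) := by
  intro k _ k' _ hkk
  rw [Function.onFun, Finset.disjoint_left]
  intro x hx hx'
  rw [Fintype.mem_piFinset] at hx hx'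
  have h1 := mem_dblock94.1 (hx (Sum.inl ⟨0, hR⟩))
  have h2 := mem_dblock94.1 (hx' (Sum.inl ⟨0, hR⟩))
  exact hkk ((Nat.div_eq_of_lt_le h1.1 h1.2.1).symm.trans (Nat.div_eq_of_lt_le h2.1 h2.2.1))

theorem mom (R : ℕ) (hR : 1 ≤ R) (c : ℕ → ℂ) (hc : ∀ m, ‖c m‖ ≤ 1) (N L : ℕ) (hN : 1 ≤ N)
    (hL : N + 1 ≤ 2 ^ L) (X : Finset ℕ) (u v : ℕ → ℕ) (hu : ∀ h ∈ X, 1 ≤ u h)
    (huv : ∀ h ∈ X, u h ≤ v h) (hv : ∀ h ∈ X, v h ≤ N + 1) :
    ∑ h ∈ X, ‖∑ m ∈ Finset.Ico (u h) (v h), c m * e ((h : ℝ) ^ 2 / (4 * m))‖ ^ (2 * R) ≤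
      (2 * (L + 1) : ℝ) ^ (2 * R) * (L + 1) *
        ∑ x ∈ Fintype.piFinset (fun _ : Fin R ⊕ Fin R => Finset.Icc 1 N),
          ‖∑ h ∈ X, e ((h : ℝ) ^ 2 * th x)‖ := by
  classical
  have h1 : ∀ h ∈ X, ‖∑ m ∈ Finset.Ico (u h) (v h), c m * e ((h : ℝ) ^ 2 / (4 * m))‖ ^ (2 * R) ≤
      (2 * (L + 1) : ℝ) ^ (2 * R) * ∑ j ∈ Finset.range (L + 1), ∑ k ∈ Finset.range (2 ^ (L - j)),
        ‖∑ m ∈ dblock94 N j k, c m * e ((h : ℝ) ^ 2 / (4 * m))‖ ^ (2 * R) := by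
    intro h hh
    have h2 := dyad (fun m => if 1 ≤ m ∧ m ≤ N then c m * e ((h : ℝ) ^ 2 / (4 * m)) else 0)
      L (u h) (v h) (2 * R) (by omega) (huv h hh) ((hv h hh).trans hL)
    have h3 : ∑ m ∈ Finset.Ico (u h) (v h), c m * e ((h : ℝ) ^ 2 / (4 * m)) =
        ∑ m ∈ Finset.Ico (u h) (v h),
          (if 1 ≤ m ∧ m ≤ N then c m * e ((h : ℝ) ^ 2 / (4 * m)) else 0) := by
      apply Finset.sum_congr rfl
      intro m hm
      rw [Finset.mem_Ico] at hm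
      have h4 := hu h hh
      have h5 := hv h hh
      rw [if_pos ⟨by omega, by omega⟩]
    rw [h3]
    refine h2.trans_eq ?_
    refine congrArg _ (Finset.sum_congr rfl fun j _ => Finset.sum_congr rfl fun k _ => ?_)
    unfold dblock94
    rw [Finset.sum_filter]
  calc ∑ h ∈ X, ‖∑ m ∈ Finset.Ico (u h) (v h), c m * e ((h : ℝ) ^ 2 / (4 * m))‖ ^ (2 * R)
      ≤ ∑ h ∈ X, (2 * (L + 1) : ℝ) ^ (2 * R) *
          ∑ j ∈ Finset.range (L + 1), ∑ k ∈ Finset.range (2 ^ (L - j)),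
            ‖∑ m ∈ dblock94 N j k, c m * e ((h : ℝ) ^ 2 / (4 * m))‖ ^ (2 * R) :=
        Finset.sum_le_sum h1
    _ = (2 * (L + 1) : ℝ) ^ (2 * R) * ∑ j ∈ Finset.range (L + 1),
          ∑ k ∈ Finset.range (2 ^ (L - j)), ∑ h ∈ X,
            ‖∑ m ∈ dblock94 N j k, c m * e ((h : ℝ) ^ 2 / (4 * m))‖ ^ (2 * R) := by
        rw [← Finset.mul_sum, Finset.sum_comm]
        refine congrArg _ (Finset.sum_congr rfl fun j _ => ?_)
        rw [Finset.sum_comm]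
    _ ≤ (2 * (L + 1) : ℝ) ^ (2 * R) * ∑ j ∈ Finset.range (L + 1),
          ∑ x ∈ Fintype.piFinset (fun _ : Fin R ⊕ Fin R => Finset.Icc 1 N),
            ‖∑ h ∈ X, e ((h : ℝ) ^ 2 * th x)‖ := by
        refine mul_le_mul_of_nonneg_left (Finset.sum_le_sum fun j _ => ?_) (by positivity)
        refine (Finset.sum_le_sum fun k _ => mom_block R hR c hc (dblock94 N j k) X
          fun m hm => (mem_dblock94.1 hm).2.2.1).trans ?_
        rw [← Finset.sum_biUnion (f := fun x : Fin R ⊕ Fin R → ℕ =>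
          ‖∑ h ∈ X, e ((h : ℝ) ^ 2 * th x)‖) (dblock94_disj hR N j _)]
        refine Finset.sum_le_sum_of_subset_of_nonneg ?_ fun _ _ _ => norm_nonneg _
        intro x hx
        rw [Finset.mem_biUnion] at hx
        obtain ⟨k, _, hx⟩ := hx
        rw [Fintype.mem_piFinset] at hx ⊢
        intro i
        rw [Finset.mem_Icc]
        exact (mem_dblock94.1 (hx i)).2.2
    _ = _ := by
        rw [Finset.sum_const, Finset.card_range, nsmul_eq_mul]
        push_cast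
        ring

end Pool.Agent.SQ42
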