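import Pool.Agent.SQ42.MomDef

/-! MomA (mom_block): moments over h of the sums over m.

Proof of mom_block. f_h(m) = c m e(h^2/(4m)). |z|^(2R) = z^R conj(z)^R; expand both powers
(Finset.prod_univ_sum / sum_prod_piFinset): |sum_D f_h|^(2R) = sum_(x in D^(Fin R + Fin R)) W(x)
e(h^2 th x), |W x| <= 1, W independent of h. Sum over h in X and take norms.
Proof of mom. dyad with p = 2 R and a m = f_h(m) for 1 <= m <= N, 0 otherwise, for every h in X;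
for every (j,k) mom_block with D = Ico (k 2^j) ((k+1) 2^j) intersected with Icc 1 N; for fixed j the
sets of tuples D^(..) are disjoint subsets of (Icc 1 N)^(..) for different k (R >= 1), so the sum over
k is <= the sum over all tuples; the L + 1 values of j give the factor L + 1. -/

namespace Pool.Agent.SQ42

open ComplexConjugate in
/-- the coefficient at one place -/
noncomputable def mw {R : ℕ} (c : ℕ → ℂ) (i : Fin R ⊕ Fin R) (m : ℕ) : ℂ :=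
  Sum.elim (fun _ => c m) (fun _ => conj (c m)) i

theorem norm_mw {R : ℕ} {c : ℕ → ℂ} (hc : ∀ m, ‖c m‖ ≤ 1) (i : Fin R ⊕ Fin R) (m : ℕ) :
    ‖mw c i m‖ ≤ 1 := by
  rcases i with i | i
  · exact hc m
  · show ‖(starRingEnd ℂ) (c m)‖ ≤ 1
    rw [Complex.norm_conj]
    exact hc m

theorem e_fsum {ι : Type*} (s : Finset ι) (g : ι → ℝ) : e (∑ i ∈ s, g i) = ∏ i ∈ s, e (g i) := by
  classical
  induction s using Finset.induction_on with
  | empty => simp [e_zero]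
  | insert a s ha ih => rw [Finset.sum_insert ha, Finset.prod_insert ha, e_add, ih]

open ComplexConjugate in
theorem mom_key (R : ℕ) (c : ℕ → ℂ) (D : Finset ℕ) (h : ℕ) :
    ((‖∑ m ∈ D, c m * e ((h : ℝ) ^ 2 / (4 * m))‖ ^ (2 * R) : ℝ) : ℂ) =
      ∑ x ∈ Fintype.piFinset (fun _ : Fin R ⊕ Fin R => D),
        (∏ i, mw c i (x i)) * e ((h : ℝ) ^ 2 * th x) := by
  set z : ℂ := ∑ m ∈ D, c m * e ((h : ℝ) ^ 2 / (4 * m)) with hz
  have h1 : ((‖z‖ ^ (2 * R) : ℝ) : ℂ) = z ^ R * (conj z) ^ R := by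
    rw [← mul_pow, Complex.mul_conj, Complex.normSq_eq_norm_sq, pow_mul]
    push_cast
    rfl
  have h2 : z ^ R * (conj z) ^ R = ∏ i : Fin R ⊕ Fin R, ∑ m ∈ D,
      (mw c i m * e ((sg i : ℝ) * ((h : ℝ) ^ 2 / (4 * m)))) := by
    rw [Fintype.prod_sum_type]
    congr 1
    · rw [Finset.prod_congr rfl (g := fun _ => z)]
      · simp
      · intro i _
        rw [hz]
        refine Finset.sum_congr rfl fun m _ => ?_
        show c m * e (((1 : ℤ) : ℝ) * _) = _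
        rw [Int.cast_one, one_mul]
    · rw [Finset.prod_congr rfl (g := fun _ => conj z)]
      · simp
      · intro i _
        rw [hz, map_sum]
        refine Finset.sum_congr rfl fun m _ => ?_
        show conj (c m) * e (((-1 : ℤ) : ℝ) * _) = _
        rw [map_mul, ← e_neg]
        push_cast
        rw [neg_one_mul]
  rw [h1, h2, Finset.prod_univ_sum]
  refine Finset.sum_congr rfl fun x _ => ?_
  rw [Finset.prod_mul_distrib, ← e_fsum]
  congr 2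
  unfold th
  rw [Finset.mul_sum]
  refine Finset.sum_congr rfl fun i _ => ?_
  ring

theorem mom_block (R : ℕ) (hR : 1 ≤ R) (c : ℕ → ℂ) (hc : ∀ m, ‖c m‖ ≤ 1) (D X : Finset ℕ)
    (hD : ∀ m ∈ D, 1 ≤ m) :
    ∑ h ∈ X, ‖∑ m ∈ D, c m * e ((h : ℝ) ^ 2 / (4 * m))‖ ^ (2 * R) ≤
      ∑ x ∈ Fintype.piFinset (fun _ : Fin R ⊕ Fin R => D),
        ‖∑ h ∈ X, e ((h : ℝ) ^ 2 * th x)‖ := by
  have h0 : (0 : ℝ) ≤ ∑ h ∈ X, ‖∑ m ∈ D, c m * e ((h : ℝ) ^ 2 / (4 * m))‖ ^ (2 * R) :=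
    Finset.sum_nonneg fun h _ => pow_nonneg (norm_nonneg _) _
  have h1 : ((∑ h ∈ X, ‖∑ m ∈ D, c m * e ((h : ℝ) ^ 2 / (4 * m))‖ ^ (2 * R) : ℝ) : ℂ) =
      ∑ x ∈ Fintype.piFinset (fun _ : Fin R ⊕ Fin R => D),
        (∏ i, mw c i (x i)) * ∑ h ∈ X, e ((h : ℝ) ^ 2 * th x) := by
    rw [Complex.ofReal_sum, Finset.sum_congr rfl fun h _ => mom_key R c D h, Finset.sum_comm]
    exact Finset.sum_congr rfl fun x _ => by rw [Finset.mul_sum]
  calc ∑ h ∈ X, ‖∑ m ∈ D, c m * e ((h : ℝ) ^ 2 / (4 * m))‖ ^ (2 * R)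
      = ‖((∑ h ∈ X, ‖∑ m ∈ D, c m * e ((h : ℝ) ^ 2 / (4 * m))‖ ^ (2 * R) : ℝ) : ℂ)‖ := by
        rw [Complex.norm_real, Real.norm_of_nonneg h0]
    _ = ‖∑ x ∈ Fintype.piFinset (fun _ : Fin R ⊕ Fin R => D),
        (∏ i, mw c i (x i)) * ∑ h ∈ X, e ((h : ℝ) ^ 2 * th x)‖ := by rw [h1]
    _ ≤ ∑ x ∈ Fintype.piFinset (fun _ : Fin R ⊕ Fin R => D),
        ‖(∏ i, mw c i (x i)) * ∑ h ∈ X, e ((h : ℝ) ^ 2 * th x)‖ := norm_sum_le _ _
    _ ≤ ∑ x ∈ Fintype.piFinset (fun _ : Fin R ⊕ Fin R => D),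
        ‖∑ h ∈ X, e ((h : ℝ) ^ 2 * th x)‖ := by
        refine Finset.sum_le_sum fun x _ => ?_
        rw [norm_mul]
        have h2 : ‖∏ i, mw c i (x i)‖ ≤ 1 := by
          rw [norm_prod]
          exact Finset.prod_le_one (fun i _ => norm_nonneg _) fun i _ => norm_mw hc i _
        calc ‖∏ i, mw c i (x i)‖ * ‖∑ h ∈ X, e ((h : ℝ) ^ 2 * th x)‖
            ≤ 1 * ‖∑ h ∈ X, e ((h : ℝ) ^ 2 * th x)‖ :=
              mul_le_mul_of_nonneg_right h2 (norm_nonneg _)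
          _ = _ := one_mul _

end Pool.Agent.SQ42
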