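import Pool.Agent.SQ42.Def

/-! definitions for the moments. -/

namespace Pool.Agent.SQ42

/-- +1 on the left, -1 on the right. -/
def sg {R : ℕ} : Fin R ⊕ Fin R → ℤ := Sum.elim (fun _ => 1) (fun _ => -1)

/-- the signed sum of 1/(4 x i). -/
noncomputable def th {R : ℕ} (x : Fin R ⊕ Fin R → ℕ) : ℝ := ∑ i, (sg i : ℝ) / (4 * x i)

end Pool.Agent.SQ42
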