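import Mathlib

/-!
# Poisson summation for a finite sum, in the form with sines
-/

set_option autoImplicit false

namespace Pool.Agent.SQ42

open MeasureTheory Finset Real

/-- The Fourier series of `x ^ 2 - x + 1 / 6`. -/
lemma hasSum_b2 {x : ℝ} (hx : x ∈ Set.Icc (0 : ℝ) 1) :
    HasSum (fun m : ℕ => 1 / (2 * π ^ 2 * ((m : ℝ) + 1) ^ 2) *
      Real.cos (2 * π * ((m : ℝ) + 1) * x)) ((x ^ 2 - x + 1 / 6) / 2) := by
  have h := hasSum_one_div_nat_pow_mul_cos one_ne_zero hx
  rw [← hasSum_nat_add_iff' 1] at h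
  have h2 := h.mul_left (1 / (2 * π ^ 2))
  have hpi : (π : ℝ) ≠ 0 := Real.pi_ne_zero
  have e1 : (Polynomial.map (algebraMap ℚ ℝ) (Polynomial.bernoulli (2 * 1))).eval x =
      x ^ 2 - x + 6⁻¹ := bernoulliFun_two x
  rw [e1] at h2
  convert! h2 using 1
  · funext m
    push_cast
    have h3 : (m : ℝ) + 1 ≠ 0 := by positivity
    field_simp
  · simp
    field_simp

lemma unit_sin {f f' f'' : ℝ → ℂ} {k : ℕ}
    (h1 : ∀ x ∈ Set.Icc (k : ℝ) (k + 1), HasDerivAt f (f' x) x)
    (h2 : ∀ x ∈ Set.Icc (k : ℝ) (k + 1), HasDerivAt f' (f'' x) x)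
    (h3 : ContinuousOn f'' (Set.Icc (k : ℝ) (k + 1))) :
    HasSum (fun m : ℕ => ((1 / (π * ((m : ℝ) + 1)) : ℝ) : ℂ) *
      ∫ x in (k : ℝ)..(k + 1), ((Real.sin (2 * π * ((m : ℝ) + 1) * x) : ℝ) : ℂ) * f' x)
      ((∫ x in (k : ℝ)..(k + 1), f x) - (f k + f (k + 1)) / 2) := by
  have hk : (k : ℝ) ≤ k + 1 := by linarith
  have hu : Set.uIcc (k : ℝ) (k + 1) = Set.Icc (k : ℝ) (k + 1) := Set.uIcc_of_le hk
  have hpi : (π : ℝ) ≠ 0 := Real.pi_ne_zero
  have c0 : ContinuousOn f (Set.Icc (k : ℝ) (k + 1)) := fun x hx =>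
    (h1 x hx).continuousAt.continuousWithinAt
  have c1 : ContinuousOn f' (Set.Icc (k : ℝ) (k + 1)) := fun x hx =>
    (h2 x hx).continuousAt.continuousWithinAt
  have i0 : IntervalIntegrable f volume k (k + 1) := (hu ▸ c0).intervalIntegrable
  have i1 : IntervalIntegrable f' volume k (k + 1) := (hu ▸ c1).intervalIntegrable
  have i2 : IntervalIntegrable f'' volume k (k + 1) := (hu ▸ h3).intervalIntegrable
  -- the cosine coefficients
  let c : ℕ → ℝ := fun m => 1 / (2 * π ^ 2 * ((m : ℝ) + 1) ^ 2)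
  have hc : ∀ m, 0 ≤ c m := fun m => by positivity
  have hs0 : HasSum c (1 / 12) := by
    have h := hasSum_b2 (x := 0) (by simp)
    simp only [mul_zero, Real.cos_zero, mul_one] at h
    convert! h using 1
    norm_num
  let g : ℕ → ℝ → ℂ := fun m x => ((c m * Real.cos (2 * π * ((m : ℝ) + 1) * x) : ℝ) : ℂ)
  let P : ℝ → ℂ := fun x => ((((x - k) ^ 2 - (x - k) + 1 / 6) / 2 : ℝ) : ℂ)
  have hper : ∀ (m : ℕ) (x : ℝ), Real.cos (2 * π * ((m : ℝ) + 1) * (x - k)) =
      Real.cos (2 * π * ((m : ℝ) + 1) * x) := by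
    intro m x
    have e : 2 * π * ((m : ℝ) + 1) * (x - k) =
        2 * π * ((m : ℝ) + 1) * x - (((m + 1) * k : ℕ) : ℝ) * (2 * π) := by
      push_cast
      ring
    rw [e, Real.cos_sub_nat_mul_two_pi]
  have hgP : ∀ x ∈ Set.Icc (k : ℝ) (k + 1), HasSum (fun m => g m x) (P x) := by
    intro x hx
    have h := hasSum_b2 (x := x - k) ⟨by linarith [hx.1], by linarith [hx.2]⟩
    simp only [hper] at h
    exact Complex.hasSum_ofReal.2 h
  have hsum : HasSum (fun m => ∫ x in (k : ℝ)..(k + 1), g m x * f'' x)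
      (∫ x in (k : ℝ)..(k + 1), P x * f'' x) := by
    refine intervalIntegral.hasSum_integral_of_dominated_convergence
      (fun m x => c m * ‖f'' x‖) ?_ ?_ ?_ ?_ ?_
    · intro m
      have hg : Continuous (g m) := by
        simp only [g]
        fun_prop
      exact hg.aestronglyMeasurable.mul (by rw [Set.uIoc_of_le hk]; exact i2.1.aestronglyMeasurable)
    · intro m
      refine Filter.Eventually.of_forall fun x _ => ?_
      rw [norm_mul]
      refine mul_le_mul_of_nonneg_right ?_ (norm_nonneg _)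
      simp only [g]
      rw [Complex.norm_real, Real.norm_eq_abs, abs_mul, abs_of_nonneg (hc m)]
      exact mul_le_of_le_one_right (hc m) (Real.abs_cos_le_one _)
    · exact Filter.Eventually.of_forall fun x _ => hs0.summable.mul_right _
    · have : (fun x => ∑' m, c m * ‖f'' x‖) = fun x => (1 / 12) * ‖f'' x‖ := by
        funext x
        rw [tsum_mul_right, hs0.tsum_eq]
      rw [this]
      exact i2.norm.const_mul _
    · refine Filter.Eventually.of_forall fun x hx => ?_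
      have hx' : x ∈ Set.Icc (k : ℝ) (k + 1) := by
        rw [Set.uIoc_of_le hk] at hx
        exact ⟨hx.1.le, hx.2⟩
      exact (hgP x hx').mul_right _
  have hg' : ∀ (m : ℕ) (x : ℝ), HasDerivAt (g m)
      (((-(1 / (π * ((m : ℝ) + 1)) * Real.sin (2 * π * ((m : ℝ) + 1) * x)) : ℝ)) : ℂ) x := by
    intro m x
    have e : HasDerivAt (fun x : ℝ => c m * Real.cos (2 * π * ((m : ℝ) + 1) * x))
        (-(1 / (π * ((m : ℝ) + 1)) * Real.sin (2 * π * ((m : ℝ) + 1) * x))) x := by
      have e1 : HasDerivAt (fun x : ℝ => 2 * π * ((m : ℝ) + 1) * x) (2 * π * ((m : ℝ) + 1)) x := by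
        simpa using (hasDerivAt_id x).const_mul (2 * π * ((m : ℝ) + 1))
      have e2 := (e1.cos).const_mul (c m)
      convert! e2 using 1
      have h3 : (m : ℝ) + 1 ≠ 0 := by positivity
      simp only [c]
      field_simp
    exact e.ofReal_comp
  have hparts : ∀ m : ℕ, ∫ x in (k : ℝ)..(k + 1), g m x * f'' x =
      (c m : ℂ) * (f' (k + 1) - f' k) + ((1 / (π * ((m : ℝ) + 1)) : ℝ) : ℂ) *
        ∫ x in (k : ℝ)..(k + 1), ((Real.sin (2 * π * ((m : ℝ) + 1) * x) : ℝ) : ℂ) * f' x := by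
    intro m
    have hcont : Continuous fun x : ℝ =>
        (((-(1 / (π * ((m : ℝ) + 1)) * Real.sin (2 * π * ((m : ℝ) + 1) * x)) : ℝ)) : ℂ) := by
      fun_prop
    have h := intervalIntegral.integral_mul_deriv_eq_deriv_mul (a := (k : ℝ)) (b := k + 1)
      (fun x _ => hg' m x) (fun x hx => h2 x (hu ▸ hx)) (hcont.intervalIntegrable _ _) i2
    rw [h]
    have e1 : g m (k + 1) = (c m : ℂ) := by
      simp only [g]
      have : 2 * π * ((m : ℝ) + 1) * ((k : ℝ) + 1) = (((m + 1) * (k + 1) : ℕ) : ℝ) * (2 * π) := by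
        push_cast
        ring
      rw [this, Real.cos_nat_mul_two_pi, mul_one]
    have e2 : g m k = (c m : ℂ) := by
      simp only [g]
      have : 2 * π * ((m : ℝ) + 1) * (k : ℝ) = (((m + 1) * k : ℕ) : ℝ) * (2 * π) := by
        push_cast
        ring
      rw [this, Real.cos_nat_mul_two_pi, mul_one]
    rw [e1, e2]
    have e3 : ∫ x in (k : ℝ)..(k + 1),
        (((-(1 / (π * ((m : ℝ) + 1)) * Real.sin (2 * π * ((m : ℝ) + 1) * x)) : ℝ)) : ℂ) * f' x =
        -(((1 / (π * ((m : ℝ) + 1)) : ℝ) : ℂ) *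
        ∫ x in (k : ℝ)..(k + 1), ((Real.sin (2 * π * ((m : ℝ) + 1) * x) : ℝ) : ℂ) * f' x) := by
      rw [← intervalIntegral.integral_const_mul, ← intervalIntegral.integral_neg]
      refine intervalIntegral.integral_congr fun x _ => ?_
      push_cast
      ring
    rw [e3]
    ring
  have hP' : ∀ x : ℝ, HasDerivAt P (((x - k - 1 / 2 : ℝ)) : ℂ) x := by
    intro x
    have e : HasDerivAt (fun x : ℝ => ((x - k) ^ 2 - (x - k) + 1 / 6) / 2) (x - k - 1 / 2) x := by
      have e1 : HasDerivAt (fun x : ℝ => x - (k : ℝ)) 1 x := (hasDerivAt_id x).sub_const _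
      have e2 := (((e1.pow 2).sub e1).add_const (1 / 6 : ℝ)).div_const 2
      convert! e2 using 1
      simp
      ring
    exact e.ofReal_comp
  have hQ' : ∀ x : ℝ, HasDerivAt (fun x : ℝ => (((x - k - 1 / 2 : ℝ)) : ℂ)) (1 : ℂ) x := by
    intro x
    have e : HasDerivAt (fun x : ℝ => x - k - 1 / 2) 1 x :=
      ((hasDerivAt_id x).sub_const _).sub_const _
    simpa using e.ofReal_comp
  have hcP : Continuous fun x : ℝ => (((x - k - 1 / 2 : ℝ)) : ℂ) := by fun_prop
  have hP := intervalIntegral.integral_mul_deriv_eq_deriv_mul (a := (k : ℝ)) (b := k + 1)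
      (fun x _ => hP' x) (fun x hx => h2 x (hu ▸ hx)) (hcP.intervalIntegrable _ _) i2
  have hQ := intervalIntegral.integral_mul_deriv_eq_deriv_mul (a := (k : ℝ)) (b := k + 1)
      (fun x _ => hQ' x) (fun x hx => h1 x (hu ▸ hx)) (intervalIntegrable_const) i1
  have hfin := hsum.sub ((Complex.hasSum_ofReal.2 hs0).mul_right (f' (k + 1) - f' k))
  convert! hfin using 1
  · funext m
    rw [hparts m]
    simp
  · rw [hP, hQ]
    simp only [P, one_mul]
    push_cast
    ring

/-- Poisson summation for a finite sum. -/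
theorem poisson_sin {f f' f'' : ℝ → ℂ} {A B : ℕ} (hAB : A ≤ B)
    (h1 : ∀ x ∈ Set.Icc (A : ℝ) B, HasDerivAt f (f' x) x)
    (h2 : ∀ x ∈ Set.Icc (A : ℝ) B, HasDerivAt f' (f'' x) x)
    (h3 : ContinuousOn f'' (Set.Icc (A : ℝ) B)) :
    HasSum (fun m : ℕ => ((1 / (π * ((m : ℝ) + 1)) : ℝ) : ℂ) *
      ∫ x in (A : ℝ)..B, ((Real.sin (2 * π * ((m : ℝ) + 1) * x) : ℝ) : ℂ) * f' x)
      ((∫ x in (A : ℝ)..B, f x) + (f A + f B) / 2 - ∑ a ∈ Finset.Icc A B, f a) := by
  induction B, hAB using Nat.le_induction with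
  | base => simp [hasSum_zero]
  | succ B hAB ih =>
    have hAB' : (A : ℝ) ≤ B := by exact_mod_cast hAB
    have hB : (B : ℝ) ≤ ((B + 1 : ℕ) : ℝ) := by push_cast; linarith
    have s1 : Set.Icc (A : ℝ) B ⊆ Set.Icc (A : ℝ) ((B + 1 : ℕ) : ℝ) :=
      Set.Icc_subset_Icc_right hB
    have s2 : Set.Icc (B : ℝ) (B + 1) ⊆ Set.Icc (A : ℝ) ((B + 1 : ℕ) : ℝ) := by
      push_cast
      exact Set.Icc_subset_Icc_left hAB'
    have j1 := ih (fun x hx => h1 x (s1 hx)) (fun x hx => h2 x (s1 hx)) (h3.mono s1)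
    have j2 := unit_sin (fun x hx => h1 x (s2 hx)) (fun x hx => h2 x (s2 hx)) (h3.mono s2)
    have c0 : ContinuousOn f (Set.Icc (A : ℝ) ((B + 1 : ℕ) : ℝ)) := fun x hx =>
      (h1 x hx).continuousAt.continuousWithinAt
    have c1 : ContinuousOn f' (Set.Icc (A : ℝ) ((B + 1 : ℕ) : ℝ)) := fun x hx =>
      (h2 x hx).continuousAt.continuousWithinAt
    have ii : ∀ {g : ℝ → ℂ}, ContinuousOn g (Set.Icc (A : ℝ) ((B + 1 : ℕ) : ℝ)) →
        IntervalIntegrable g volume A B ∧ IntervalIntegrable g volume B (B + 1) := by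
      intro g hg
      refine ⟨ContinuousOn.intervalIntegrable ?_, ContinuousOn.intervalIntegrable ?_⟩
      · rw [Set.uIcc_of_le hAB']
        exact hg.mono s1
      · rw [Set.uIcc_of_le (by linarith)]
        exact hg.mono s2
    have j3 := j1.add j2
    convert! j3 using 1
    · funext m
      rw [← mul_add]
      congr 1
      have hc : ContinuousOn (fun x : ℝ =>
          ((Real.sin (2 * π * ((m : ℝ) + 1) * x) : ℝ) : ℂ) * f' x)
          (Set.Icc (A : ℝ) ((B + 1 : ℕ) : ℝ)) := by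
        refine ContinuousOn.mul (Continuous.continuousOn ?_) c1
        fun_prop
      have h := intervalIntegral.integral_add_adjacent_intervals (ii hc).1 (ii hc).2
      push_cast at h ⊢
      rw [h]
    · rw [← Finset.insert_Icc_right_eq_Icc_add_one (by omega), Finset.sum_insert (by simp)]
      have h := intervalIntegral.integral_add_adjacent_intervals (ii c0).1 (ii c0).2
      push_cast at h ⊢
      rw [← h]
      ring

end Pool.Agent.SQ42
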