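import Pool.Agent.SQ42.Def
import Pool.Agent.SQ42.PoisS13

/-! PoisA (unit_step); the whole proof: exact summation formula.

Proof. f(x) = e(h sqrt x) is smooth on [A, B], A >= 1. For an integer a, integration by parts gives
(f(a) + f(a+1))/2 - int_a^(a+1) f = int_a^(a+1) (x - a - 1/2) f'(x) dx
= (1/12) (f'(a+1) - f'(a)) - (1/2) int_a^(a+1) B2(x - a) f''(x) dx, B2(t) = t^2 - t + 1/6
= sum_(m>=1) cos(2 pi m t)/(pi^2 m^2) (Mathlib: hasSum_one_div_nat_pow_mul_cos, k = 1), absolutely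
convergent, so the integral may be taken term by term; integrate each term by parts back:
int_a^(a+1) cos(2 pi m x) f''(x) dx = f'(a+1) - f'(a) + 2 pi m int sin(2 pi m x) f'(x) dx, and
sum 1/(pi^2 m^2) = 1/6 cancels the boundary terms. So
int_a^(a+1) (x-a-1/2) f' = - sum_m (1/(pi m)) int_a^(a+1) sin(2 pi m x) f'(x) dx (unit_step).
Sum over a = A, ..., B-1. With x = y^2: f'(x) dx = 2 pi i h e(h y) dy and
sin(2 pi m y^2) = (e(m y^2) - e(-m y^2))/(2 i):
-(1/(pi m)) int_A^B sin(2 pi m x) f'(x) dx = (h/m) (G(h, m) - G(h, -m)) (subst_step);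
int_A^B f = int_al^be 2 y e(h y) dy. -/

namespace Pool.Agent.SQ42

open MeasureTheory

/-- unit step for a C^2 function. -/
theorem unit_step (f f1 f2 : ℝ → ℂ) (a : ℕ)
    (h1 : ∀ x ∈ Set.Icc (a : ℝ) (a + 1), HasDerivAt f (f1 x) x)
    (h2 : ∀ x ∈ Set.Icc (a : ℝ) (a + 1), HasDerivAt f1 (f2 x) x)
    (h3 : ContinuousOn f2 (Set.Icc (a : ℝ) (a + 1))) :
    HasSum (fun m : ℕ => -((1 / (Real.pi * (m + 1)) : ℝ) : ℂ) *
        ∫ x in (a : ℝ)..(a + 1), ((Real.sin (2 * Real.pi * (m + 1) * x) : ℝ) : ℂ) * f1 x)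
      ((f a + f (a + 1)) / 2 - ∫ x in (a : ℝ)..(a + 1), f x) := by
  have h := (unit_sin h1 h2 h3).neg
  have e1 : -((∫ x in (a : ℝ)..(a + 1), f x) - (f a + f (a + 1)) / 2) =
      (f a + f (a + 1)) / 2 - ∫ x in (a : ℝ)..(a + 1), f x := by ring
  rw [e1] at h
  refine h.congr_fun ?_
  intro m
  simp only [neg_mul]

end Pool.Agent.SQ42
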