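import Pool.Agent.SQ42.Def
import Pool.Agent.SQ42.GsumS13

/-! The statement `pois` from `gsum`. -/

namespace Pool.Agent.SQ42

open MeasureTheory

lemma ee_eq (x : ℝ) : ee x = e x := by
  unfold ee e
  congr 1
  ring

theorem pois_S13 (h : ℝ) (A B : ℕ) (hA : 1 ≤ A) (hAB : A ≤ B) :
    HasSum (fun m : ℕ => ((h / (m + 1) : ℝ) : ℂ) *
        (G h (m + 1) (Real.sqrt A) (Real.sqrt B) - G h (-(m + 1)) (Real.sqrt A) (Real.sqrt B)))
      ((∑ a ∈ Finset.Icc A B, e (h * Real.sqrt a)) -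
        (e (h * Real.sqrt A) + e (h * Real.sqrt B)) / 2 -
        ∫ y in (Real.sqrt A)..(Real.sqrt B), (2 * y : ℂ) * e (h * y)) := by
  have h1 := gsum h hA hAB
  have hG : ∀ t : ℝ, GG A B h t = G h t (Real.sqrt A) (Real.sqrt B) := by
    intro t
    unfold GG G
    exact intervalIntegral.integral_congr fun y _ => ee_eq _
  simp only [hG, ee_eq, Complex.ofReal_mul, Complex.ofReal_ofNat] at h1
  rw [sub_right_comm] at h1
  exact h1

end Pool.Agent.SQ42
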