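import Pool.Agent.SQ42.Def

/-! WeylA (weyl): incomplete quadratic Gauss sums.

The proof below is by completion (helper91): complete sums `WA_T` have norm at most sqrt(2b), Fourier inversion
on ZMod b, geometric sums, harmonic sum. The header proof by differencing is the original one.

Proof of weyl. N = v - u. |sum|^2 = sum_(h,h') e((h^2 - h'^2) a/b); with j = h - h' it is at most
sum_(|j| < N) |sum over an interval of h' of e(2 j h' a/b)| <= sum_(|j|<N) min(N, 1/(2 ||2 j a/b||)),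
|| || the distance to the nearest integer (geometric sum; |e(t) - 1| >= 4 ||t||). The j with |j| < N
are covered by <= 2N/b + 1 blocks of b consecutive integers; in a block 2 j a takes every residue
class mod b at most twice (gcd(a,b) = 1), so a block contributes <= 2 (N + sum_(k=1)^(b-1)
b/(2 min(k, b-k))) <= 2 (N + b (1 + log b)). Hence |sum|^2 <= 2 (2N/b + 1)(N + b (1 + log b)) <=
(1 + log b)(4 N^2/b + 6 N + 2 b) <= 7 (1 + log b)(N/sqrt b + sqrt b)^2.

Proof of weyl2. g = gcd(a, b), a = g a', b = g b', a/b = a'/b', gcd(a', b') = 1; l | b and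
gcd(l, a) = 1 give gcd(l, g) = 1, so l | b' ; l <= b' <= b. Apply weyl. -/

namespace Pool.Agent.SQ42

open Finset in
/-- complete quadratic sum with a linear term -/
noncomputable def WA_T {b : ℕ} [NeZero b] (a c : ZMod b) : ℂ :=
  ∑ x : ZMod b, ZMod.stdAddChar (a * x ^ 2 + c * x)

theorem WA_tors (b : ℕ) [NeZero b] :
    ((Finset.univ : Finset (ZMod b)).filter (fun j => 2 * j = 0)).card ≤ 2 := by
  have h1 : ((Finset.univ : Finset (ZMod b)).filter (fun j => 2 * j = 0)) ⊆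
      {0, ((b / 2 : ℕ) : ZMod b)} := by
    intro j hj
    rw [Finset.mem_filter] at hj
    have h2 : (((2 * j.val : ℕ)) : ZMod b) = 0 := by
      push_cast
      rw [ZMod.natCast_zmod_val]
      exact hj.2
    rw [ZMod.natCast_eq_zero_iff] at h2
    obtain ⟨m, hm⟩ := h2
    have h3 : j.val < b := ZMod.val_lt j
    have h4 : m < 2 := by
      by_contra h
      have h5 : b * 2 ≤ b * m := Nat.mul_le_mul_left b (not_lt.1 h)
      omega
    rw [Finset.mem_insert, Finset.mem_singleton]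
    have h6 : j = ((j.val : ℕ) : ZMod b) := (ZMod.natCast_zmod_val j).symm
    interval_cases m
    · left
      have h7 : j.val = 0 := by omega
      rw [h6, h7, Nat.cast_zero]
    · right
      have h7 : j.val = b / 2 := by omega
      rw [h6, h7]
  exact (Finset.card_le_card h1).trans Finset.card_le_two

theorem WA_sq {b : ℕ} [NeZero b] {a : ZMod b} (ha : IsUnit a) (c : ZMod b) :
    ‖WA_T a c‖ ^ 2 ≤ 2 * b := by
  have h1 : WA_T a c * (starRingEnd ℂ) (WA_T a c) =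
      ∑ j : ZMod b, ZMod.stdAddChar (a * j ^ 2 + c * j) *
        (if 2 * a * j = 0 then (b : ℂ) else 0) := by
    unfold WA_T
    rw [map_sum, Finset.mul_sum]
    have h2 : ∀ y : ZMod b, (∑ x : ZMod b, (ZMod.stdAddChar (a * x ^ 2 + c * x) : ℂ)) *
        (starRingEnd ℂ) (ZMod.stdAddChar (a * y ^ 2 + c * y)) =
        ∑ j : ZMod b, ZMod.stdAddChar (a * j ^ 2 + c * j) *
          ZMod.stdAddChar (y * (2 * a * j)) := by
      intro y
      rw [← AddChar.map_neg_eq_conj, Finset.sum_mul,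
        ← Equiv.sum_comp (Equiv.addRight y)]
      refine Finset.sum_congr rfl fun j _ => ?_
      rw [← AddChar.map_add_eq_mul, ← AddChar.map_add_eq_mul]
      congr 1
      simp only [Equiv.coe_addRight]
      ring
    rw [Finset.sum_congr rfl (fun y _ => h2 y), Finset.sum_comm]
    refine Finset.sum_congr rfl fun j _ => ?_
    rw [← Finset.mul_sum, AddChar.sum_mulShift _ (ZMod.isPrimitive_stdAddChar b), ZMod.card]
    split_ifs <;> simp
  have h3 : ‖WA_T a c‖ ^ 2 = ‖WA_T a c * (starRingEnd ℂ) (WA_T a c)‖ := by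
    rw [norm_mul, RCLike.norm_conj]
    ring
  rw [h3, h1]
  refine (norm_sum_le _ _).trans ?_
  have h4 : ∀ j : ZMod b, ‖ZMod.stdAddChar (a * j ^ 2 + c * j) *
      (if 2 * a * j = 0 then (b : ℂ) else 0)‖ = if 2 * j = 0 then (b : ℝ) else 0 := by
    intro j
    rw [norm_mul, AddChar.norm_apply, one_mul]
    have h5 : 2 * a * j = 0 ↔ 2 * j = 0 := by
      rw [show 2 * a * j = a * (2 * j) by ring]
      exact ha.mul_right_eq_zero
    by_cases h6 : 2 * j = 0
    · rw [if_pos h6, if_pos (h5.2 h6), Complex.norm_natCast]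
    · rw [if_neg h6, if_neg (fun h => h6 (h5.1 h)), norm_zero]
  rw [Finset.sum_congr rfl (fun j _ => h4 j), ← Finset.sum_filter, Finset.sum_const,
    nsmul_eq_mul]
  have h7 : (((Finset.univ : Finset (ZMod b)).filter (fun j => 2 * j = 0)).card : ℝ) ≤ 2 := by
    exact_mod_cast WA_tors b
  exact mul_le_mul_of_nonneg_right h7 (Nat.cast_nonneg b)

theorem WA_le {b : ℕ} [NeZero b] {a : ZMod b} (ha : IsUnit a) (c : ZMod b) :
    ‖WA_T a c‖ ≤ Real.sqrt (2 * b) := Real.le_sqrt_of_sq_le (WA_sq ha c)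

/-- Fourier inversion -/
theorem WA_inv {b : ℕ} [NeZero b] (a : ZMod b) (u v : ℕ) :
    (b : ℂ) * ∑ h ∈ Finset.Ico u v, (ZMod.stdAddChar (a * (h : ZMod b) ^ 2) : ℂ) =
      ∑ c : ZMod b, WA_T a c * ∑ h ∈ Finset.Ico u v, ZMod.stdAddChar (-(c * (h : ZMod b))) := by
  have h1 : ∀ c : ZMod b, WA_T a c * ∑ h ∈ Finset.Ico u v,
      (ZMod.stdAddChar (-(c * (h : ZMod b))) : ℂ) =
      ∑ h ∈ Finset.Ico u v, ∑ x : ZMod b, (ZMod.stdAddChar (a * x ^ 2) : ℂ) *
        ZMod.stdAddChar (c * (x - (h : ZMod b))) := by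
    intro c
    rw [Finset.mul_sum]
    refine Finset.sum_congr rfl fun h _ => ?_
    unfold WA_T
    rw [Finset.sum_mul]
    refine Finset.sum_congr rfl fun x _ => ?_
    rw [← AddChar.map_add_eq_mul, ← AddChar.map_add_eq_mul]
    congr 1
    ring
  rw [Finset.sum_congr rfl (fun c _ => h1 c), Finset.sum_comm, Finset.mul_sum]
  refine Finset.sum_congr rfl fun h _ => ?_
  rw [Finset.sum_comm]
  have h2 : ∀ x : ZMod b, ∑ c : ZMod b, (ZMod.stdAddChar (a * x ^ 2) : ℂ) *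
      ZMod.stdAddChar (c * (x - (h : ZMod b))) =
      if x = (h : ZMod b) then (b : ℂ) * ZMod.stdAddChar (a * x ^ 2) else 0 := by
    intro x
    rw [← Finset.mul_sum, AddChar.sum_mulShift _ (ZMod.isPrimitive_stdAddChar b), ZMod.card]
    by_cases h3 : x = (h : ZMod b)
    · rw [if_pos h3, if_pos (sub_eq_zero.2 h3)]
      push_cast
      ring
    · rw [if_neg h3, if_neg (fun h4 => h3 (sub_eq_zero.1 h4))]
      simp
  rw [Finset.sum_congr rfl (fun x _ => h2 x), Finset.sum_ite_eq' Finset.univ (h : ZMod b)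
    (fun x => (b : ℂ) * ZMod.stdAddChar (a * x ^ 2)), if_pos (Finset.mem_univ _)]

/-- lower bound of the sine -/
theorem WA_sin {b k : ℕ} (hk : 1 ≤ k) (hkb : k < b) :
    1 / Real.sin (Real.pi * k / b) ≤ (b : ℝ) / 2 * (1 / k + 1 / ((b : ℝ) - k)) ∧
      0 < Real.sin (Real.pi * k / b) := by
  have hk' : (0 : ℝ) < k := by exact_mod_cast hk
  have hkb' : (k : ℝ) < b := by exact_mod_cast hkb
  have hb' : (0 : ℝ) < b := hk'.trans hkb'
  have hbk : (0 : ℝ) < b - k := by linarith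
  have hpi := Real.pi_pos
  have h0 : ∀ m : ℝ, 0 < m → 2 * m ≤ b → 2 * m / b ≤ Real.sin (Real.pi * m / b) := by
    intro m hm hmb
    have h1 := Real.mul_le_sin (x := Real.pi * m / b) (by positivity) (by
      rw [div_le_div_iff₀ hb' (by norm_num)]
      nlinarith)
    have h2 : 2 / Real.pi * (Real.pi * m / b) = 2 * m / b := by
      field_simp
    rw [h2] at h1
    exact h1
  have h1 : ∃ m : ℝ, 0 < m ∧ 2 * m / b ≤ Real.sin (Real.pi * k / b) ∧
      1 / m ≤ 1 / (k : ℝ) + 1 / ((b : ℝ) - k) := by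
    rcases le_or_gt (2 * (k : ℝ)) b with h | h
    · refine ⟨k, hk', h0 k hk' h, ?_⟩
      have : 0 < 1 / ((b : ℝ) - k) := by positivity
      linarith
    · refine ⟨b - k, hbk, ?_, ?_⟩
      · have h2 := h0 (b - k) hbk (by linarith)
        have h3 : Real.pi * ((b : ℝ) - k) / b = Real.pi - Real.pi * k / b := by
          field_simp
        rw [h3, Real.sin_pi_sub] at h2
        exact h2
      · have : 0 < 1 / (k : ℝ) := by positivity
        linarith
  obtain ⟨m, hm, hs, hmk⟩ := h1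
  have h2 : 0 < 2 * m / b := by positivity
  refine ⟨?_, h2.trans_le hs⟩
  calc 1 / Real.sin (Real.pi * k / b) ≤ 1 / (2 * m / b) :=
        one_div_le_one_div_of_le h2 hs
    _ = (b : ℝ) / 2 * (1 / m) := by
        field_simp
    _ ≤ (b : ℝ) / 2 * (1 / k + 1 / ((b : ℝ) - k)) :=
        mul_le_mul_of_nonneg_left hmk (by positivity)

/-- geometric sums -/
theorem WA_geom {b : ℕ} [NeZero b] {c : ZMod b} (hc : c ≠ 0) {u v : ℕ} (huv : u ≤ v) :
    ‖∑ h ∈ Finset.Ico u v, (ZMod.stdAddChar (-(c * (h : ZMod b))) : ℂ)‖ ≤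
      (b : ℝ) / 2 * (1 / (c.val : ℝ) + 1 / ((b : ℝ) - c.val)) := by
  have hval0 : c.val ≠ 0 := fun h => hc ((ZMod.val_eq_zero c).1 h)
  have hval : c.val < b := ZMod.val_lt c
  obtain ⟨h1, h2⟩ := WA_sin (b := b) (k := c.val) (by omega) hval
  have hb' : (0 : ℝ) < b := by exact_mod_cast Nat.pos_of_ne_zero (NeZero.ne b)
  set w : ℂ := ZMod.stdAddChar (-c) with hw
  have h3 : ∀ h : ℕ, (ZMod.stdAddChar (-(c * (h : ZMod b))) : ℂ) = w ^ h := by
    intro h
    rw [hw, ← AddChar.map_nsmul_eq_pow]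
    congr 1
    rw [nsmul_eq_mul]
    ring
  have h4 : ‖w - 1‖ = 2 * Real.sin (Real.pi * c.val / b) := by
    have h5 : w - 1 = (starRingEnd ℂ) ((ZMod.stdAddChar c : ℂ) - 1) := by
      rw [map_sub, map_one, ← AddChar.map_neg_eq_conj]
    rw [h5, RCLike.norm_conj]
    have h6 : (ZMod.stdAddChar c : ℂ) =
        Complex.exp (Complex.I * ((2 * Real.pi * c.val / b : ℝ) : ℂ)) := by
      have h7 : c = ((c.val : ℤ) : ZMod b) := by
        rw [Int.cast_natCast, ZMod.natCast_zmod_val]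
      conv_lhs => rw [h7]
      rw [ZMod.stdAddChar_coe]
      congr 1
      push_cast
      ring
    rw [h6, Complex.norm_exp_I_mul_ofReal_sub_one, Real.norm_eq_abs]
    have h8 : 2 * Real.pi * (c.val : ℝ) / b / 2 = Real.pi * c.val / b := by ring
    rw [h8, abs_of_pos (by linarith)]
  have h5 : w ≠ 1 := by
    intro h
    rw [h, sub_self, norm_zero] at h4
    linarith
  rw [Finset.sum_congr rfl (fun h _ => h3 h), geom_sum_Ico h5 huv, norm_div, h4]
  have h6 : ‖w ^ v - w ^ u‖ ≤ 2 := by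
    have h7 : ‖w‖ = 1 := AddChar.norm_apply _ _
    calc ‖w ^ v - w ^ u‖ ≤ ‖w ^ v‖ + ‖w ^ u‖ := norm_sub_le _ _
      _ = 2 := by
        rw [norm_pow, norm_pow, h7, one_pow, one_pow]
        norm_num
  calc ‖w ^ v - w ^ u‖ / (2 * Real.sin (Real.pi * c.val / b))
      ≤ 2 / (2 * Real.sin (Real.pi * c.val / b)) :=
        div_le_div_of_nonneg_right h6 (by positivity)
    _ = 1 / Real.sin (Real.pi * c.val / b) := by
        field_simp
    _ ≤ _ := h1

theorem WA_val (n : ℕ) (f : ℕ → ℝ) :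
    ∑ c : ZMod (n + 1), f c.val = ∑ k ∈ Finset.range (n + 1), f k :=
  Fin.sum_univ_eq_sum_range f (n + 1)

/-- the sum of the bounds -/
theorem WA_harm (n : ℕ) :
    ∑ k ∈ Finset.range n, (((n + 1 : ℕ) : ℝ) / 2 * (1 / ((k + 1 : ℕ) : ℝ) +
      1 / (((n + 1 : ℕ) : ℝ) - ((k + 1 : ℕ) : ℝ)))) ≤
      ((n + 1 : ℕ) : ℝ) * (1 + Real.log ((n + 1 : ℕ) : ℝ)) := by
  rw [← Finset.mul_sum, Finset.sum_add_distrib]
  have h1 : ∑ k ∈ Finset.range n, 1 / ((k + 1 : ℕ) : ℝ) ≤ 1 + Real.log ((n + 1 : ℕ) : ℝ) := by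
    have h2 := harmonic_le_one_add_log n
    have h3 : ((harmonic n : ℚ) : ℝ) = ∑ k ∈ Finset.range n, 1 / ((k + 1 : ℕ) : ℝ) := by
      unfold harmonic
      push_cast
      refine Finset.sum_congr rfl fun k _ => ?_
      rw [one_div]
    rw [h3] at h2
    refine h2.trans ?_
    rcases Nat.eq_zero_or_pos n with hn | hn
    · subst hn
      simp
    · have h4 : Real.log n ≤ Real.log ((n + 1 : ℕ) : ℝ) :=
        Real.log_le_log (by exact_mod_cast hn) (by exact_mod_cast Nat.le_succ n)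
      linarith
  have h2 : ∑ k ∈ Finset.range n, 1 / (((n + 1 : ℕ) : ℝ) - ((k + 1 : ℕ) : ℝ)) =
      ∑ k ∈ Finset.range n, 1 / ((k + 1 : ℕ) : ℝ) := by
    rw [← Finset.sum_range_reflect (fun k => 1 / ((k + 1 : ℕ) : ℝ)) n]
    refine Finset.sum_congr rfl fun k hk => ?_
    have hk' := Finset.mem_range.1 hk
    congr 1
    have h3 : n - 1 - k + 1 = n - k := by omega
    rw [h3, Nat.cast_sub (by omega)]
    push_cast
    ring
  rw [h2]
  have h3 : (0 : ℝ) ≤ ((n + 1 : ℕ) : ℝ) := Nat.cast_nonneg _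
  nlinarith

theorem WA_aux (n : ℕ) {a : ZMod (n + 1)} (ha : IsUnit a) {u v : ℕ} (huv : u ≤ v) :
    ((n + 1 : ℕ) : ℝ) * ‖∑ h ∈ Finset.Ico u v,
      (ZMod.stdAddChar (a * (h : ZMod (n + 1)) ^ 2) : ℂ)‖ ≤
      Real.sqrt (2 * ((n + 1 : ℕ) : ℝ)) * (((v : ℝ) - u) +
        ((n + 1 : ℕ) : ℝ) * (1 + Real.log ((n + 1 : ℕ) : ℝ))) := by
  have h0 : ((n + 1 : ℕ) : ℝ) * ‖∑ h ∈ Finset.Ico u v,
      (ZMod.stdAddChar (a * (h : ZMod (n + 1)) ^ 2) : ℂ)‖ =
      ‖((n + 1 : ℕ) : ℂ) * ∑ h ∈ Finset.Ico u v,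
      (ZMod.stdAddChar (a * (h : ZMod (n + 1)) ^ 2) : ℂ)‖ := by
    rw [norm_mul, Complex.norm_natCast]
  rw [h0, WA_inv a u v]
  refine (norm_sum_le _ _).trans ?_
  set f : ℕ → ℝ := fun k => if k = 0 then (v : ℝ) - u else
    ((n + 1 : ℕ) : ℝ) / 2 * (1 / (k : ℝ) + 1 / (((n + 1 : ℕ) : ℝ) - k)) with hf
  have h1 : ∀ c : ZMod (n + 1), ‖WA_T a c * ∑ h ∈ Finset.Ico u v,
      (ZMod.stdAddChar (-(c * (h : ZMod (n + 1)))) : ℂ)‖ ≤
      Real.sqrt (2 * ((n + 1 : ℕ) : ℝ)) * f c.val := by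
    intro c
    rw [norm_mul]
    refine mul_le_mul (WA_le ha c) ?_ (norm_nonneg _) (Real.sqrt_nonneg _)
    by_cases hc : c = 0
    · have h2 : f c.val = (v : ℝ) - u := by
        rw [hf]
        simp only [(ZMod.val_eq_zero c).2 hc, if_true]
      rw [h2, hc]
      simp only [zero_mul, neg_zero, AddChar.map_zero_eq_one, Finset.sum_const, Nat.card_Ico,
        nsmul_eq_mul, mul_one]
      rw [Complex.norm_natCast, Nat.cast_sub huv]
    · have h2 : c.val ≠ 0 := fun h => hc ((ZMod.val_eq_zero c).1 h)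
      have h3 : f c.val = ((n + 1 : ℕ) : ℝ) / 2 * (1 / (c.val : ℝ) +
          1 / (((n + 1 : ℕ) : ℝ) - c.val)) := by
        rw [hf]
        simp only [h2, if_false]
      rw [h3]
      exact WA_geom hc huv
  refine (Finset.sum_le_sum (fun c _ => h1 c)).trans ?_
  rw [← Finset.mul_sum, WA_val n f]
  refine mul_le_mul_of_nonneg_left ?_ (Real.sqrt_nonneg _)
  rw [Finset.sum_range_succ']
  have h2 : f 0 = (v : ℝ) - u := by
    rw [hf]
    simp
  have h3 : ∑ k ∈ Finset.range n, f (k + 1) =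
      ∑ k ∈ Finset.range n, (((n + 1 : ℕ) : ℝ) / 2 * (1 / ((k + 1 : ℕ) : ℝ) +
      1 / (((n + 1 : ℕ) : ℝ) - ((k + 1 : ℕ) : ℝ)))) := by
    refine Finset.sum_congr rfl fun k _ => ?_
    rw [hf]
    simp only [Nat.succ_ne_zero, if_false]
  rw [h2, h3]
  have h4 := WA_harm n
  linarith

theorem weyl (a : ℤ) (b u v : ℕ) (hb : 1 ≤ b) (hab : IsCoprime a (b : ℤ)) (huv : u ≤ v) :
    ‖∑ h ∈ Finset.Ico u v, e ((h : ℝ) ^ 2 * ((a : ℝ) / b))‖ ≤
      8 * (1 + Real.log b) * (((v : ℝ) - u) / Real.sqrt b + Real.sqrt b) := by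
  obtain ⟨n, rfl⟩ : ∃ n, b = n + 1 := ⟨b - 1, by omega⟩
  have ha : IsUnit ((a : ℤ) : ZMod (n + 1)) :=
    (ZMod.coe_int_isUnit_iff_isCoprime a (n + 1)).2 hab.symm
  have h1 : ∀ h : ℕ, e ((h : ℝ) ^ 2 * ((a : ℝ) / ((n + 1 : ℕ) : ℝ))) =
      (ZMod.stdAddChar (((a : ℤ) : ZMod (n + 1)) * (h : ZMod (n + 1)) ^ 2) : ℂ) := by
    intro h
    have h2 : ((a : ℤ) : ZMod (n + 1)) * (h : ZMod (n + 1)) ^ 2 =
        ((a * (h : ℤ) ^ 2 : ℤ) : ZMod (n + 1)) := by
      push_cast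
      rfl
    rw [h2, ZMod.stdAddChar_coe]
    unfold e
    congr 1
    push_cast
    ring
  rw [Finset.sum_congr rfl (fun h _ => h1 h)]
  have h2 := WA_aux n ha huv
  set B : ℝ := ((n + 1 : ℕ) : ℝ) with hB
  have hB1 : (1 : ℝ) ≤ B := by
    rw [hB]
    exact_mod_cast hb
  have hB0 : (0 : ℝ) < B := by linarith
  set s : ℝ := Real.sqrt B with hs
  have hs0 : 0 < s := Real.sqrt_pos.2 hB0
  have hss : s * s = B := Real.mul_self_sqrt hB0.le
  have hlog : 0 ≤ Real.log B := Real.log_nonneg hB1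
  have hN : (0 : ℝ) ≤ (v : ℝ) - u := by
    have : (u : ℝ) ≤ v := by exact_mod_cast huv
    linarith
  have h3 : Real.sqrt (2 * B) ≤ 2 * s := by
    rw [Real.sqrt_mul (by norm_num : (0 : ℝ) ≤ 2)]
    have h4 : Real.sqrt 2 ≤ 2 := by
      rw [Real.sqrt_le_left (by norm_num)]
      norm_num
    exact mul_le_mul_of_nonneg_right h4 hs0.le
  set X : ℝ := ‖∑ h ∈ Finset.Ico u v,
      (ZMod.stdAddChar (((a : ℤ) : ZMod (n + 1)) * (h : ZMod (n + 1)) ^ 2) : ℂ)‖ with hX
  set N : ℝ := (v : ℝ) - u with hNdef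
  set L : ℝ := 1 + Real.log B with hL
  have hL1 : 1 ≤ L := by linarith
  have h4 : B * X ≤ 2 * s * (N + B * L) :=
    h2.trans (mul_le_mul_of_nonneg_right h3 (by positivity))
  have h5 : B * (8 * L * (N / s + s)) = 8 * L * (N * s + s * B) := by
    rw [← hss]
    field_simp
  refine le_of_mul_le_mul_left ?_ hB0
  rw [h5]
  refine h4.trans ?_
  have h6 : N * s ≤ L * (N * s) := le_mul_of_one_le_left (by positivity) hL1
  have h7 : 0 ≤ L * (N * s) := by positivity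
  have h8 : 0 ≤ L * (s * B) := by positivity
  nlinarith

end Pool.Agent.SQ42
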